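import Mathlib

set_option autoImplicit false

/-!
Admissible collections of polynomials (linear Nijenhuis operators), `n = 3`.
-/

namespace Pool.Agent.Helper190.NJ

open MvPolynomial Matrix

/-- The Jacobian matrix: row `i` is the gradient of `s i`. -/
noncomputable def jac {n : ℕ} (s : Fin n → MvPolynomial (Fin n) ℝ) :
    Matrix (Fin n) (Fin n) (MvPolynomial (Fin n) ℝ) :=
  Matrix.of fun i j => pderiv j (s i)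

/-- The matrix `C`: first column `-s i`, ones at the places `(i, i+1)`, zeros elsewhere. -/
noncomputable def cmat {n : ℕ} (s : Fin n → MvPolynomial (Fin n) ℝ) :
    Matrix (Fin n) (Fin n) (MvPolynomial (Fin n) ℝ) :=
  Matrix.of fun i j => if (j : ℕ) = 0 then - s i else if (j : ℕ) = (i : ℕ) + 1 then 1 else 0

/-- Admissible collections: algebraically independent, `s k` homogeneous of degree `k + 1`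
(indices from `0`), and `D = det J` divides every entry of `D * J⁻¹ C J = adj(J) C J`. -/
def Admissible {n : ℕ} (s : Fin n → MvPolynomial (Fin n) ℝ) : Prop :=
  AlgebraicIndependent ℝ s ∧ (∀ k : Fin n, (s k).IsHomogeneous ((k : ℕ) + 1)) ∧
    ∀ i j, (jac s).det ∣ ((jac s).adjugate * cmat s * jac s) i j

/-- The linear form with coefficients the row `i` of `A`. -/
noncomputable def lf (A : Matrix (Fin 3) (Fin 3) ℝ) (i : Fin 3) : MvPolynomial (Fin 3) ℝ :=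
  ∑ j, C (A i j) * X j

/-- The eight families (in terms of the characteristic polynomial
`t^3 + s 0 t^2 + s 1 t + s 2`):
`(t+a)(t+b)(t+c)`, `(t+a)((t+b)^2+c^2)`, `(t+a)(t^2+bt+c^2)`, `(t+a)(t^2+bt-c^2)`,
`(t+a)((t+a)(t+b)+c^2)`, `(t+a)((t+a)(t+b)-c^2)`, `t^3+a t^2+b c t+b^3`, `(t+a)(t^2+bt+ac)`. -/
def Fam (a b c : MvPolynomial (Fin 3) ℝ) (s : Fin 3 → MvPolynomial (Fin 3) ℝ) : Prop :=
  s = ![a + b + c, a * b + b * c + c * a, a * b * c] ∨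
  s = ![a + 2 * b, 2 * a * b + b ^ 2 + c ^ 2, a * (b ^ 2 + c ^ 2)] ∨
  s = ![a + b, a * b + c ^ 2, a * c ^ 2] ∨
  s = ![a + b, a * b - c ^ 2, -(a * c ^ 2)] ∨
  s = ![2 * a + b, a ^ 2 + 2 * a * b + c ^ 2, a * (a * b + c ^ 2)] ∨
  s = ![2 * a + b, a ^ 2 + 2 * a * b - c ^ 2, a * (a * b - c ^ 2)] ∨
  s = ![a, b * c, b ^ 3] ∨
  s = ![a + b, a * b + a * c, a ^ 2 * c]

/-- Working form of admissibility. -/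
def Adm' (s : Fin 3 → MvPolynomial (Fin 3) ℝ) : Prop :=
  (jac s).det ≠ 0 ∧ (∀ k : Fin 3, (s k).IsHomogeneous ((k : ℕ) + 1)) ∧
    ∃ L : Matrix (Fin 3) (Fin 3) (MvPolynomial (Fin 3) ℝ),
      (∀ i j, (L i j).IsHomogeneous 1) ∧ jac s * L = cmat s * jac s

/-- Linear substitution `X i ↦ ∑ j, P i j X j`. -/
noncomputable def sub3 (P : Matrix (Fin 3) (Fin 3) ℝ) :
    MvPolynomial (Fin 3) ℝ →ₐ[ℝ] MvPolynomial (Fin 3) ℝ :=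
  aeval (fun i => lf P i)

noncomputable def quadP (q : Fin 6 → ℝ) : MvPolynomial (Fin 3) ℝ :=
  C (q 0) * X 0 ^ 2 + C (q 1) * (X 0 * X 1) + C (q 2) * (X 0 * X 2) + C (q 3) * X 1 ^ 2 +
    C (q 4) * (X 1 * X 2) + C (q 5) * X 2 ^ 2

noncomputable def cubP (k : Fin 10 → ℝ) : MvPolynomial (Fin 3) ℝ :=
  C (k 0) * X 0 ^ 3 + C (k 1) * (X 0 ^ 2 * X 1) + C (k 2) * (X 0 ^ 2 * X 2) +
    C (k 3) * (X 0 * X 1 ^ 2) + C (k 4) * (X 0 * X 1 * X 2) + C (k 5) * (X 0 * X 2 ^ 2) +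
    C (k 6) * X 1 ^ 3 + C (k 7) * (X 1 ^ 2 * X 2) + C (k 8) * (X 1 * X 2 ^ 2) + C (k 9) * X 2 ^ 3

def qx (q : Fin 6 → ℝ) (x y z : ℝ) : ℝ := 2 * q 0 * x + q 1 * y + q 2 * z
def qy (q : Fin 6 → ℝ) (x y z : ℝ) : ℝ := q 1 * x + 2 * q 3 * y + q 4 * z
def qz (q : Fin 6 → ℝ) (x y z : ℝ) : ℝ := q 2 * x + q 4 * y + 2 * q 5 * z
def qv (q : Fin 6 → ℝ) (x y z : ℝ) : ℝ :=
  q 0 * x ^ 2 + q 1 * (x * y) + q 2 * (x * z) + q 3 * y ^ 2 + q 4 * (y * z) + q 5 * z ^ 2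
def cx (k : Fin 10 → ℝ) (x y z : ℝ) : ℝ :=
  3 * k 0 * x ^ 2 + 2 * k 1 * (x * y) + 2 * k 2 * (x * z) + k 3 * y ^ 2 + k 4 * (y * z) + k 5 * z ^ 2
def cy (k : Fin 10 → ℝ) (x y z : ℝ) : ℝ :=
  k 1 * x ^ 2 + 2 * k 3 * (x * y) + k 4 * (x * z) + 3 * k 6 * y ^ 2 + 2 * k 7 * (y * z) + k 8 * z ^ 2
def cz (k : Fin 10 → ℝ) (x y z : ℝ) : ℝ :=
  k 2 * x ^ 2 + k 4 * (x * y) + 2 * k 5 * (x * z) + k 7 * y ^ 2 + 2 * k 8 * (y * z) + 3 * k 9 * z ^ 2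
def cv (k : Fin 10 → ℝ) (x y z : ℝ) : ℝ :=
  k 0 * x ^ 3 + k 1 * (x ^ 2 * y) + k 2 * (x ^ 2 * z) + k 3 * (x * y ^ 2) + k 4 * (x * y * z) +
    k 5 * (x * z ^ 2) + k 6 * y ^ 3 + k 7 * (y ^ 2 * z) + k 8 * (y * z ^ 2) + k 9 * z ^ 3
def ln (l : Fin 3 → ℝ) (x y z : ℝ) : ℝ := l 0 * x + l 1 * y + l 2 * z

/-- The equation `J L = C J` in coordinates with `s 0 = X 0` (first row of `L` eliminated). -/
def Eqs (q : Fin 6 → ℝ) (k : Fin 10 → ℝ) (m : Fin 2 → Fin 3 → Fin 3 → ℝ) : Prop :=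
  ∀ x y z : ℝ,
    qx q x y z * (qx q x y z - x) + qy q x y z * ln (m 0 0) x y z + qz q x y z * ln (m 1 0) x y z =
      cx k x y z - qv q x y z ∧
    qx q x y z * qy q x y z + qy q x y z * ln (m 0 1) x y z + qz q x y z * ln (m 1 1) x y z =
      cy k x y z ∧
    qx q x y z * qz q x y z + qy q x y z * ln (m 0 2) x y z + qz q x y z * ln (m 1 2) x y z =
      cz k x y z ∧
    cx k x y z * (qx q x y z - x) + cy k x y z * ln (m 0 0) x y z + cz k x y z * ln (m 1 0) x y z =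
      - cv k x y z ∧
    cx k x y z * qy q x y z + cy k x y z * ln (m 0 1) x y z + cz k x y z * ln (m 1 1) x y z = 0 ∧
    cx k x y z * qz q x y z + cy k x y z * ln (m 0 2) x y z + cz k x y z * ln (m 1 2) x y z = 0

/-- The Jacobian determinant is not zero. -/
def Nz (q : Fin 6 → ℝ) (k : Fin 10 → ℝ) : Prop :=
  ∃ x y z : ℝ, qy q x y z * cz k x y z - qz q x y z * cy k x y z ≠ 0

/-- Coefficient equations, hyperbolic normal form. -/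
def EqN2 (a : ℝ) (k : Fin 10 → ℝ) : Prop :=
  k 1 = 0 ∧ k 2 = 0 ∧ ∃ u v w : ℝ,
    4 * a ^ 2 - a - 3 * k 0 = 0 ∧
    6 * a * k 0 - 2 * k 0 = 0 ∧
    2 * a * k 3 + 2 * k 3 * k 4 + 2 * k 3 * u - k 3 = 0 ∧
    2 * a * k 4 + 4 * k 3 * k 5 + (k 4) ^ 2 - k 4 = 0 ∧
    2 * a * k 5 + 2 * k 4 * k 5 - 2 * k 5 * u - k 5 = 0 ∧
    k 3 * k 7 + (3/2) * k 4 * k 6 + 3 * k 6 * u - (1/2) * k 6 = 0 ∧
    2 * k 3 * k 8 + (3/2) * k 4 * k 7 + 3 * k 5 * k 6 + k 7 * u - (1/2) * k 7 = 0 ∧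
    3 * k 3 * k 9 + (3/2) * k 4 * k 8 + 2 * k 5 * k 7 - k 8 * u - (1/2) * k 8 = 0 ∧
    (3/2) * k 4 * k 9 + k 5 * k 8 - 3 * k 9 * u - (1/2) * k 9 = 0 ∧
    -4 * a * k 3 + 4 * k 3 * k 4 = 0 ∧
    -2 * a * k 4 + 3 * k 0 + 4 * k 3 * k 5 + (k 4) ^ 2 = 0 ∧
    -6 * a * k 6 + 4 * k 3 * k 7 + 2 * k 3 * v + 6 * k 4 * k 6 = 0 ∧
    -4 * a * k 7 + 6 * k 3 * k 8 + 4 * k 4 * k 7 + 6 * k 5 * k 6 = 0 ∧
    -2 * a * k 8 + 6 * k 3 * k 9 + 2 * k 4 * k 8 + 2 * k 5 * k 7 - 2 * k 5 * v = 0 ∧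
    6 * k 6 * k 7 + 3 * k 6 * v = 0 ∧
    k 3 + 9 * k 6 * k 8 + 3 * (k 7) ^ 2 + k 7 * v = 0 ∧
    k 4 + 9 * k 6 * k 9 + 5 * k 7 * k 8 - k 8 * v = 0 ∧
    k 5 + 3 * k 7 * k 9 + (k 8) ^ 2 - 3 * k 9 * v = 0 ∧
    -4 * a * k 5 + 4 * k 4 * k 5 = 0 ∧
    -2 * a * k 7 + 2 * k 3 * k 8 + 2 * k 3 * w + 2 * k 4 * k 7 + 6 * k 5 * k 6 = 0 ∧
    -4 * a * k 8 + 6 * k 3 * k 9 + 4 * k 4 * k 8 + 6 * k 5 * k 7 = 0 ∧
    -6 * a * k 9 + 6 * k 4 * k 9 + 4 * k 5 * k 8 - 2 * k 5 * w = 0 ∧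
    k 3 + 3 * k 6 * k 8 + 3 * k 6 * w + (k 7) ^ 2 = 0 ∧
    k 4 + 9 * k 6 * k 9 + 5 * k 7 * k 8 + k 7 * w = 0 ∧
    k 5 + 9 * k 7 * k 9 + 3 * (k 8) ^ 2 - k 8 * w = 0 ∧
    6 * k 8 * k 9 - 3 * k 9 * w = 0

/-- Coefficient equations, definite normal form (`c = 1` or `c = -1`). -/
def EqN1 (a c : ℝ) (k : Fin 10 → ℝ) : Prop :=
  k 1 = 0 ∧ k 2 = 0 ∧ ∃ u v w : ℝ,
    4 * a ^ 2 - a - 3 * k 0 = 0 ∧
    6 * a * k 0 - 2 * k 0 = 0 ∧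
    2 * a * k 3 + 2 * (k 3) ^ 2 * c - k 3 + (1/2) * (k 4) ^ 2 * c - k 4 * u * c = 0 ∧
    2 * a * k 4 + 2 * k 3 * k 4 * c + 2 * k 3 * u * c + 2 * k 4 * k 5 * c - k 4 - 2 * k 5 * u * c = 0 ∧
    2 * a * k 5 + (1/2) * (k 4) ^ 2 * c + k 4 * u * c + 2 * (k 5) ^ 2 * c - k 5 = 0 ∧
    3 * k 3 * k 6 * c + (1/2) * k 4 * k 7 * c - (1/2) * k 6 - k 7 * u * c = 0 ∧
    2 * k 3 * k 7 * c + (3/2) * k 4 * k 6 * c + k 4 * k 8 * c + k 5 * k 7 * c + 3 * k 6 * u * c - (1/2) * k 7 - 2 * k 8 * u * c = 0 ∧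
    k 3 * k 8 * c + k 4 * k 7 * c + (3/2) * k 4 * k 9 * c + 2 * k 5 * k 8 * c + 2 * k 7 * u * c - (1/2) * k 8 - 3 * k 9 * u * c = 0 ∧
    (1/2) * k 4 * k 8 * c + 3 * k 5 * k 9 * c + k 8 * u * c - (1/2) * k 9 = 0 ∧
    -4 * a * k 3 + 3 * k 0 * c + 4 * (k 3) ^ 2 * c + (k 4) ^ 2 * c = 0 ∧
    -2 * a * k 4 + 2 * k 3 * k 4 * c + 2 * k 4 * k 5 * c = 0 ∧
    -6 * a * k 6 + 12 * k 3 * k 6 * c + 2 * k 4 * k 7 * c - k 4 * v * c = 0 ∧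
    -4 * a * k 7 + 6 * k 3 * k 7 * c + 2 * k 3 * v * c + 3 * k 4 * k 6 * c + 3 * k 4 * k 8 * c + 2 * k 5 * k 7 * c - 2 * k 5 * v * c = 0 ∧
    -2 * a * k 8 + 2 * k 3 * k 8 * c + k 4 * k 7 * c + 3 * k 4 * k 9 * c + k 4 * v * c + 2 * k 5 * k 8 * c = 0 ∧
    k 3 * c + 9 * (k 6) ^ 2 * c + (k 7) ^ 2 * c - k 7 * v * c = 0 ∧
    k 4 * c + 9 * k 6 * k 7 * c + 3 * k 6 * v * c + 3 * k 7 * k 8 * c - 2 * k 8 * v * c = 0 ∧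
    k 5 * c + 3 * k 6 * k 8 * c + 2 * (k 7) ^ 2 * c + 3 * k 7 * k 9 * c + 2 * k 7 * v * c + 2 * (k 8) ^ 2 * c - 3 * k 9 * v * c = 0 ∧
    k 7 * k 8 * c + 3 * k 8 * k 9 * c + k 8 * v * c = 0 ∧
    -4 * a * k 5 + 3 * k 0 * c + (k 4) ^ 2 * c + 4 * (k 5) ^ 2 * c = 0 ∧
    -2 * a * k 7 + 2 * k 3 * k 7 * c + 3 * k 4 * k 6 * c + k 4 * k 8 * c - k 4 * w * c + 2 * k 5 * k 7 * c = 0 ∧
    -4 * a * k 8 + 2 * k 3 * k 8 * c + 2 * k 3 * w * c + 3 * k 4 * k 7 * c + 3 * k 4 * k 9 * c + 6 * k 5 * k 8 * c - 2 * k 5 * w * c = 0 ∧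
    -6 * a * k 9 + 2 * k 4 * k 8 * c + k 4 * w * c + 12 * k 5 * k 9 * c = 0 ∧
    3 * k 6 * k 7 * c + k 7 * k 8 * c - k 7 * w * c = 0 ∧
    k 3 * c + 3 * k 6 * k 8 * c + 3 * k 6 * w * c + 2 * (k 7) ^ 2 * c + 3 * k 7 * k 9 * c + 2 * (k 8) ^ 2 * c - 2 * k 8 * w * c = 0 ∧
    k 4 * c + 3 * k 7 * k 8 * c + 2 * k 7 * w * c + 9 * k 8 * k 9 * c - 3 * k 9 * w * c = 0 ∧
    k 5 * c + (k 8) ^ 2 * c + k 8 * w * c + 9 * (k 9) ^ 2 * c = 0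


end Pool.Agent.Helper190.NJ
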