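import Pool.Agent.Helper190.NJ.Defs

set_option autoImplicit false

/-!
Admissible collections of polynomials (linear Nijenhuis operators), `n = 3`.
-/

namespace Pool.Agent.Helper190.NJ
open MvPolynomial Matrix

section jacaux
open TensorProduct
set_option synthInstance.maxHeartbeats 400000
set_option maxHeartbeats 4000000

theorem derivation_eq_sum {M : ℕ} {N : Type*} [AddCommGroup N] [Module ℝ N]
    [Module (MvPolynomial (Fin M) ℝ) N]
    (δ : Derivation ℝ (MvPolynomial (Fin M) ℝ) N) (f : MvPolynomial (Fin M) ℝ) :
    δ f = ∑ k : Fin M, (pderiv k f : MvPolynomial (Fin M) ℝ) • δ (X k) := by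
  induction f using MvPolynomial.induction_on with
  | C a => simp
  | add p q hp hq => simp only [map_add, hp, hq, add_smul, Finset.sum_add_distrib]
  | mul_X p i hp =>
    rw [Derivation.leibniz, hp, Finset.smul_sum]
    have h1 : ∀ k : Fin M, (pderiv k (p * X i) : MvPolynomial (Fin M) ℝ) • δ (X k) =
        (X i : MvPolynomial (Fin M) ℝ) • ((pderiv k p : MvPolynomial (Fin M) ℝ) • δ (X k)) +
          (if k = i then p • δ (X i) else 0) := by
      intro k
      rw [pderiv_mul, pderiv_X, add_smul, mul_comm, mul_smul]
      congr 1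
      by_cases h : k = i
      · subst h; simp
      · rw [if_neg h, Pi.single_eq_of_ne (Ne.symm h)]; simp
    rw [Finset.sum_congr rfl fun k _ => h1 k, Finset.sum_add_distrib, Finset.sum_ite_eq',
      if_pos (Finset.mem_univ i), add_comm]

/-- The Jacobian rows of algebraically independent polynomials (characteristic zero) are linearly
independent over the fraction field. -/
theorem jacobian_rows {n M : ℕ} (x : Fin n → MvPolynomial (Fin M) ℝ)
    (hx : AlgebraicIndependent ℝ x) (c : Fin n → FractionRing (MvPolynomial (Fin M) ℝ))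
    (hc : ∀ k : Fin M, ∑ i, c i * algebraMap _ (FractionRing (MvPolynomial (Fin M) ℝ))
      (pderiv k (x i)) = 0) : c = 0 := by
  let A := MvPolynomial (Fin n) ℝ
  let B := MvPolynomial (Fin M) ℝ
  let L := FractionRing B
  let K := FractionRing A
  let φ : A →ₐ[ℝ] L := (IsScalarTower.toAlgHom ℝ B L).comp (aeval x)
  have hφ : Function.Injective φ := by
    intro a b hab
    exact hx (IsFractionRing.injective B L hab)
  letI : Algebra A L := φ.toRingHom.toAlgebra
  have hst1 : IsScalarTower ℝ A L := IsScalarTower.of_algebraMap_eq fun r => (φ.commutes r).symm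
  let ψ : K →+* L := IsFractionRing.lift (g := φ.toRingHom) hφ
  letI : Algebra K L := ψ.toAlgebra
  have hst2 : IsScalarTower A K L := IsScalarTower.of_algebraMap_eq fun a => by
    exact (IsFractionRing.lift_algebraMap hφ a).symm
  have hst3 : IsScalarTower ℝ K L := by
    refine IsScalarTower.of_algebraMap_eq fun r => ?_
    rw [IsScalarTower.algebraMap_apply ℝ A L, IsScalarTower.algebraMap_apply A K L,
      ← IsScalarTower.algebraMap_apply ℝ A K]
  have hch : CharZero K := charZero_of_injective_algebraMap (algebraMap ℝ K).injective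
  have hfs1 : Algebra.FormallySmooth A K := Algebra.FormallySmooth.of_isLocalization (nonZeroDivisors A)
  have hess : Algebra.EssFiniteType ℝ L := by
    have h1 : Algebra.EssFiniteType B L := Algebra.EssFiniteType.of_isLocalization L (nonZeroDivisors B)
    exact Algebra.EssFiniteType.comp ℝ B L
  have hess2 : Algebra.EssFiniteType K L := Algebra.EssFiniteType.of_comp ℝ K L
  have hfs2 : Algebra.FormallySmooth K L := inferInstance
  have hfs3 : Algebra.FormallySmooth A L := Algebra.FormallySmooth.comp A K L
  have hinj : Function.Injective (KaehlerDifferential.mapBaseChange ℝ A L) := by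
    rw [injective_iff_map_eq_zero]
    intro ξ hξ
    obtain ⟨η, hη⟩ := (Algebra.H1Cotangent.exact_δ_mapBaseChange ℝ A L ξ).mp hξ
    rw [← hη, Subsingleton.elim η 0, map_zero]
  let bas := (KaehlerDifferential.mvPolynomialBasis ℝ (Fin n)).baseChange L
  have hbas : ∀ i, bas i = 1 ⊗ₜ[A] KaehlerDifferential.D ℝ A (X i) := by
    intro i
    simp only [bas, Module.Basis.baseChange_apply, KaehlerDifferential.mvPolynomialBasis_apply]
    rfl
  have hD : ∀ f : B, KaehlerDifferential.D ℝ L (algebraMap B L f) =
      ∑ k, algebraMap B L (pderiv k f) • KaehlerDifferential.D ℝ L (algebraMap B L (X k)) := by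
    intro f
    have h1 := derivation_eq_sum ((KaehlerDifferential.D ℝ L).compAlgebraMap B) f
    have h2 : ∀ g, ((KaehlerDifferential.D ℝ L).compAlgebraMap B) g =
      KaehlerDifferential.D ℝ L (algebraMap B L g) := fun g => rfl
    simp only [h2] at h1
    rw [h1]
    refine Finset.sum_congr rfl fun k _ => ?_
    rw [algebraMap_smul]
  have hξ : KaehlerDifferential.mapBaseChange ℝ A L (∑ i, c i • bas i) = 0 := by
    rw [map_sum]
    have h1 : ∀ i, KaehlerDifferential.mapBaseChange ℝ A L (c i • bas i) =
        ∑ k, (c i * algebraMap B L (pderiv k (x i))) •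
          KaehlerDifferential.D ℝ L (algebraMap B L (X k)) := by
      intro i
      rw [map_smul, hbas, KaehlerDifferential.mapBaseChange_tmul, one_smul,
        KaehlerDifferential.map_D]
      have h2 : algebraMap A L (X i) = algebraMap B L (x i) := by
        change algebraMap B L (aeval x (X i)) = _
        rw [aeval_X]
      rw [h2, hD, Finset.smul_sum]
      refine Finset.sum_congr rfl fun k _ => ?_
      rw [mul_smul]
    rw [Finset.sum_congr rfl fun i _ => h1 i, Finset.sum_comm]
    refine Finset.sum_eq_zero fun k _ => ?_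
    rw [← Finset.sum_smul, hc k, zero_smul]
  have h0 : ∑ i, c i • bas i = 0 := hinj (by rw [hξ, map_zero])
  have hli := bas.linearIndependent
  rw [Fintype.linearIndependent_iff] at hli
  funext i
  exact hli c h0 i

end jacaux

theorem det_of_alg {n : ℕ} (s : Fin n → MvPolynomial (Fin n) ℝ) (h : AlgebraicIndependent ℝ s) :
    (jac s).det ≠ 0 := by
  intro hd
  obtain ⟨v, hv0, hv⟩ := Matrix.exists_vecMul_eq_zero_iff.mpr hd
  have h1 := jacobian_rows s h
    (fun i => algebraMap (MvPolynomial (Fin n) ℝ) (FractionRing (MvPolynomial (Fin n) ℝ)) (v i))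
    (by
      intro k
      have h2 := congrFun hv k
      rw [Matrix.vecMul, dotProduct] at h2
      simp only [jac, Matrix.of_apply, Pi.zero_apply] at h2
      have h3 := congrArg (algebraMap (MvPolynomial (Fin n) ℝ)
        (FractionRing (MvPolynomial (Fin n) ℝ))) h2
      rw [map_sum, map_zero] at h3
      rw [← h3]
      refine Finset.sum_congr rfl (fun i _ => ?_)
      rw [map_mul])
  apply hv0
  funext i
  have h4 := congrFun h1 i
  simp only [Pi.zero_apply] at h4
  exact (IsFractionRing.injective (MvPolynomial (Fin n) ℝ)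
    (FractionRing (MvPolynomial (Fin n) ℝ))) (by rw [h4, Pi.zero_apply, map_zero])

end Pool.Agent.Helper190.NJ
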