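import Pool.Agent.Helper190.NJ.Defs

set_option autoImplicit false

/-!
Admissible collections of polynomials (linear Nijenhuis operators), `n = 3`.
-/

namespace Pool.Agent.Helper190.NJ
open MvPolynomial Matrix


theorem hcomp_mul (d : ℕ) (p q : MvPolynomial (Fin 3) ℝ) (hp : p.IsHomogeneous d) :
    homogeneousComponent (d + 1) (p * q) = p * homogeneousComponent 1 q := by
  classical
  ext m
  rw [coeff_homogeneousComponent, coeff_mul, coeff_mul]
  have hdeg : ∀ a : Fin 3 →₀ ℕ, coeff a p ≠ 0 → a.degree = d := by
    intro a ha
    have h := hp ha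
    rwa [Finsupp.degree_eq_weight_one]
  have hterm : ∀ x ∈ Finset.HasAntidiagonal.antidiagonal m, coeff x.1 p * coeff x.2 (homogeneousComponent 1 q) =
      if m.degree = d + 1 then coeff x.1 p * coeff x.2 q else 0 := by
    intro x hx
    have hm : x.1 + x.2 = m := Finset.HasAntidiagonal.mem_antidiagonal.mp hx
    by_cases ha : coeff x.1 p = 0
    · simp [ha]
    · have h1 := hdeg x.1 ha
      have h2 : m.degree = d + x.2.degree := by
        rw [← hm, map_add, h1]
      rw [coeff_homogeneousComponent]
      by_cases h3 : x.2.degree = 1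
      · rw [if_pos h3, if_pos (by omega)]
      · rw [if_neg h3, if_neg (by omega), mul_zero]
  rw [Finset.sum_congr rfl hterm]
  split_ifs
  · rfl
  · simp

end Pool.Agent.Helper190.NJ
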