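import Pool.Agent.Helper190.NJ.Defs

set_option autoImplicit false

/-!
Admissible collections of polynomials (linear Nijenhuis operators), `n = 3`.
-/

namespace Pool.Agent.Helper190.NJ
open MvPolynomial Matrix

theorem chain_753 {n : ℕ} (s : Fin n → MvPolynomial (Fin n) ℝ) (j : Fin n)
    (P : MvPolynomial (Fin n) ℝ) :
    pderiv j (aeval s P) = ∑ i, aeval s (pderiv i P) * pderiv j (s i) := by
  induction P using MvPolynomial.induction_on with
  | C a => simp
  | add p q hp hq => simp only [map_add, hp, hq, add_mul, Finset.sum_add_distrib]
  | mul_X p k hp =>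
    simp only [map_mul, aeval_X, pderiv_mul, hp, map_add, pderiv_X, add_mul, Finset.sum_add_distrib]
    congr 1
    · rw [Finset.sum_mul]
      exact Finset.sum_congr rfl fun i _ => by ring
    · rw [Finset.sum_eq_single k]
      · simp
      · intro b _ hb
        rw [Pi.single_eq_of_ne' hb]
        simp
      · simp

theorem deg_pderiv_753 {n : ℕ} (i : Fin n) (P : MvPolynomial (Fin n) ℝ) (h : pderiv i P ≠ 0) :
    (pderiv i P).totalDegree < P.totalDegree := by
  have key : ∀ m ∈ (pderiv i P).support, (m.sum fun _ e => e) < P.totalDegree := by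
    intro m hm
    rw [mem_support_iff, coeff_pderiv] at hm
    have h1 : m + Finsupp.single i 1 ∈ P.support := by
      rw [mem_support_iff]
      intro h0
      apply hm
      rw [h0, zero_mul]
    have h2 := le_totalDegree h1
    rw [Finsupp.sum_add_index' (fun _ => rfl) (fun _ _ _ => rfl), Finsupp.sum_single_index rfl] at h2
    omega
  have hne : (pderiv i P).support.Nonempty := support_nonempty.2 h
  obtain ⟨m0, hm0⟩ := hne
  have hpos : ⊥ < P.totalDegree := lt_of_le_of_lt (Nat.zero_le _) (key m0 hm0)
  unfold totalDegree
  exact (Finset.sup_lt_iff hpos).2 key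

theorem alg_of_det {n : ℕ} (s : Fin n → MvPolynomial (Fin n) ℝ) (h : (jac s).det ≠ 0) :
    AlgebraicIndependent ℝ s := by
  have main : ∀ d : ℕ, ∀ P : MvPolynomial (Fin n) ℝ, P.totalDegree ≤ d → aeval s P = 0 → P = 0 := by
    intro d
    induction d with
    | zero =>
      intro P hP h0
      have h1 := totalDegree_eq_zero_iff_eq_C.1 (Nat.le_zero.1 hP)
      rw [h1] at h0 ⊢
      rw [← algebraMap_eq, AlgHom.commutes, algebraMap_eq, C_eq_zero] at h0
      rw [h0, C_0]
    | succ d ih =>
      intro P hP h0
      have hv : (fun i => aeval s (pderiv i P)) ᵥ* jac s = 0 := by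
        funext j
        have h1 := chain_753 s j P
        rw [h0, map_zero] at h1
        rw [Matrix.vecMul, dotProduct, Pi.zero_apply, h1]
        rfl
      have hz := eq_zero_of_vecMul_eq_zero h hv
      have hall : ∀ i, pderiv i P = 0 := by
        intro i
        by_contra hne
        have := deg_pderiv_753 i P hne
        exact hne (ih _ (by omega) (congrFun hz i))
      have hC : P = C (coeff 0 P) := by
        classical
        ext m
        rw [coeff_C]
        split_ifs with hm
        · rw [← hm]
        · obtain ⟨i, hi⟩ : ∃ i, m i ≠ 0 := by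
            by_contra hcon
            push Not at hcon
            exact hm (by ext i; simp [hcon i])
          have h2 := congrArg (coeff (m - Finsupp.single i 1)) (hall i)
          rw [coeff_pderiv, coeff_zero, tsub_add_cancel_of_le
            (Finsupp.single_le_iff.2 (Nat.one_le_iff_ne_zero.2 hi))] at h2
          rcases mul_eq_zero.1 h2 with h3 | h3
          · exact h3
          · exfalso
            exact absurd h3 (by positivity)
      rw [hC] at h0 ⊢
      rw [← algebraMap_eq, AlgHom.commutes, algebraMap_eq, C_eq_zero] at h0
      rw [h0, C_0]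
  rw [algebraicIndependent_iff]
  intro P h0
  exact main _ P le_rfl h0

end Pool.Agent.Helper190.NJ
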