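import Pool.Agent.Helper190.NJ.Defs

set_option autoImplicit false

/-!
Admissible collections of polynomials (linear Nijenhuis operators), `n = 3`.
-/

namespace Pool.Agent.Helper190.NJ
open MvPolynomial Matrix


theorem bin_root (y : ℝ) (hy : 0 < y) (k : ℝ) (hk : 0 < k) : ∃ x : ℝ, x ≠ 0 ∧ y * x ^ 2 = k := by
  refine ⟨Real.sqrt (k / y), ?_, ?_⟩
  · exact (Real.sqrt_pos.2 (div_pos hk hy)).ne'
  · rw [Real.sq_sqrt (div_pos hk hy).le]
    field_simp

theorem bin_ne (α β γ : ℝ) (hα : α ≠ 0) : ∃ p r s t : ℝ, p * t - r * s ≠ 0 ∧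
    ((∃ c : ℝ, (c = 1 ∨ c = -1) ∧ α * p ^ 2 + β * p * s + γ * s ^ 2 = c / 2 ∧
        2 * α * p * r + β * (p * t + r * s) + 2 * γ * s * t = 0 ∧
        α * r ^ 2 + β * r * t + γ * t ^ 2 = c / 2) ∨
      (α * p ^ 2 + β * p * s + γ * s ^ 2 = 0 ∧
        2 * α * p * r + β * (p * t + r * s) + 2 * γ * s * t = 1 ∧
        α * r ^ 2 + β * r * t + γ * t ^ 2 = 0) ∨
      (∃ c : ℝ, c ≠ 0 ∧ α * p ^ 2 + β * p * s + γ * s ^ 2 = c ∧
        2 * α * p * r + β * (p * t + r * s) + 2 * γ * s * t = 0 ∧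
        α * r ^ 2 + β * r * t + γ * t ^ 2 = 0) ∨
      (α = 0 ∧ β = 0 ∧ γ = 0)) := by
  obtain ⟨ρ, hρ⟩ : ∃ ρ : ℝ, 2 * α * ρ + β = 0 := ⟨-β / (2 * α), by field_simp; ring⟩
  obtain ⟨δ, hδ⟩ : ∃ δ : ℝ, δ = γ + β * ρ + α * ρ ^ 2 := ⟨_, rfl⟩
  rcases lt_trichotomy δ 0 with hd | hd | hd
  · rcases lt_or_gt_of_ne hα with ha | ha
    · -- both negative
      obtain ⟨x, hx0, hx⟩ := bin_root (-α) (by linarith) (1 / 2) (by norm_num)
      obtain ⟨w, hw0, hw⟩ := bin_root (-δ) (by linarith) (1 / 2) (by norm_num)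
      refine ⟨x, w * ρ, 0, w, ?_, Or.inl ⟨-1, Or.inr rfl, ?_, ?_, ?_⟩⟩
      · rw [mul_zero, sub_zero]
        exact mul_ne_zero hx0 hw0
      · linear_combination -hx
      · linear_combination x * w * hρ
      · rw [hδ] at hw
        linear_combination -hw
    · -- α > 0, δ < 0
      obtain ⟨x, hx0, hx⟩ := bin_root α ha (1 / 4) (by norm_num)
      obtain ⟨w, hw0, hw⟩ := bin_root (-δ) (by linarith) (1 / 4) (by norm_num)
      rw [hδ] at hw
      refine ⟨x + w * ρ, x - w * ρ, w, -w, ?_, Or.inr (Or.inl ⟨?_, ?_, ?_⟩)⟩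
      · have : (x + w * ρ) * -w - (x - w * ρ) * w = -2 * (x * w) := by ring
        rw [this]
        exact mul_ne_zero (by norm_num) (mul_ne_zero hx0 hw0)
      · linear_combination hx - hw + x * w * hρ
      · linear_combination 2 * hx + 2 * hw
      · linear_combination hx - hw - x * w * hρ
  · refine ⟨1, ρ, 0, 1, by norm_num, Or.inr (Or.inr (Or.inl ⟨α, hα, ?_, ?_, ?_⟩))⟩
    · ring
    · linear_combination hρ
    · rw [hδ] at hd
      linear_combination hd
  · rcases lt_or_gt_of_ne hα with ha | ha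
    · -- α < 0, δ > 0
      obtain ⟨x, hx0, hx⟩ := bin_root (-α) (by linarith) (1 / 4) (by norm_num)
      obtain ⟨w, hw0, hw⟩ := bin_root δ hd (1 / 4) (by norm_num)
      rw [hδ] at hw
      refine ⟨w * ρ + x, w * ρ - x, w, w, ?_, Or.inr (Or.inl ⟨?_, ?_, ?_⟩)⟩
      · have : (w * ρ + x) * w - (w * ρ - x) * w = 2 * (x * w) := by ring
        rw [this]
        exact mul_ne_zero (by norm_num) (mul_ne_zero hx0 hw0)
      · linear_combination -hx + hw + x * w * hρ
      · linear_combination 2 * hx + 2 * hw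
      · linear_combination -hx + hw - x * w * hρ
    · obtain ⟨x, hx0, hx⟩ := bin_root α ha (1 / 2) (by norm_num)
      obtain ⟨w, hw0, hw⟩ := bin_root δ hd (1 / 2) (by norm_num)
      refine ⟨x, w * ρ, 0, w, ?_, Or.inl ⟨1, Or.inl rfl, ?_, ?_, ?_⟩⟩
      · rw [mul_zero, sub_zero]
        exact mul_ne_zero hx0 hw0
      · linear_combination hx
      · linear_combination x * w * hρ
      · rw [hδ] at hw
        linear_combination hw

theorem bin (α β γ : ℝ) : ∃ p r s t : ℝ, p * t - r * s ≠ 0 ∧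
    ((∃ c : ℝ, (c = 1 ∨ c = -1) ∧ α * p ^ 2 + β * p * s + γ * s ^ 2 = c / 2 ∧
        2 * α * p * r + β * (p * t + r * s) + 2 * γ * s * t = 0 ∧
        α * r ^ 2 + β * r * t + γ * t ^ 2 = c / 2) ∨
      (α * p ^ 2 + β * p * s + γ * s ^ 2 = 0 ∧
        2 * α * p * r + β * (p * t + r * s) + 2 * γ * s * t = 1 ∧
        α * r ^ 2 + β * r * t + γ * t ^ 2 = 0) ∨
      (∃ c : ℝ, c ≠ 0 ∧ α * p ^ 2 + β * p * s + γ * s ^ 2 = c ∧
        2 * α * p * r + β * (p * t + r * s) + 2 * γ * s * t = 0 ∧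
        α * r ^ 2 + β * r * t + γ * t ^ 2 = 0) ∨
      (α = 0 ∧ β = 0 ∧ γ = 0)) := by
  by_cases hα : α = 0
  · by_cases hγ : γ = 0
    · by_cases hβ : β = 0
      · exact ⟨1, 0, 0, 1, by norm_num, Or.inr (Or.inr (Or.inr ⟨hα, hβ, hγ⟩))⟩
      · refine ⟨1, 0, 0, 1 / β, ?_, Or.inr (Or.inl ⟨?_, ?_, ?_⟩)⟩
        · rw [zero_mul, sub_zero, one_mul]
          exact one_div_ne_zero hβ
        · rw [hα]; ring
        · rw [hα, hγ]
          field_simp
          ring
        · rw [hγ]; ring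
    · obtain ⟨p, r, s, t, hdet, h⟩ := bin_ne γ β α hγ
      refine ⟨s, t, p, r, ?_, ?_⟩
      · intro h0
        apply hdet
        linear_combination -h0
      · rcases h with ⟨c, hc, h1, h2, h3⟩ | ⟨h1, h2, h3⟩ | ⟨c, hc, h1, h2, h3⟩ | ⟨h1, h2, h3⟩
        · exact Or.inl ⟨c, hc, by linear_combination h1, by linear_combination h2,
            by linear_combination h3⟩
        · exact Or.inr (Or.inl ⟨by linear_combination h1, by linear_combination h2,
            by linear_combination h3⟩)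
        · exact Or.inr (Or.inr (Or.inl ⟨c, hc, by linear_combination h1, by linear_combination h2,
            by linear_combination h3⟩))
        · exact Or.inr (Or.inr (Or.inr ⟨h3, h2, h1⟩))
  · exact bin_ne α β γ hα

end Pool.Agent.Helper190.NJ
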