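import Pool.Agent.Helper190.NJ.Defs

set_option autoImplicit false

/-!
Admissible collections of polynomials (linear Nijenhuis operators), `n = 3`.
-/

namespace Pool.Agent.Helper190.NJ
open MvPolynomial Matrix


lemma quad0 (a0 a1 a2 a3 a4 a5 : ℝ)
    (h : ∀ x y z : ℝ, a0*x^2 + a1*(x*y) + a2*(x*z) + a3*y^2+a4*(y*z)+a5*z^2 = 0) :
    a0 = 0 ∧ a1 = 0 ∧ a2 = 0 ∧ a3 = 0 ∧ a4 = 0 ∧ a5 = 0 := by
  have h1 := h 1 0 0
  have h2 := h 0 1 0
  have h3 := h 0 0 1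
  have h4 := h 1 1 0
  have h5 := h 1 0 1
  have h6 := h 0 1 1
  refine ⟨?_, ?_, ?_, ?_, ?_, ?_⟩ <;> linarith

lemma cub0 (a0 a1 a2 a3 a4 a5 a6 a7 a8 a9 : ℝ)
    (h : ∀ x y z : ℝ, a0*x^3 + a1*(x^2*y) + a2*(x^2*z) + a3*(x*y^2)+a4*(x*y*z)+a5*(x*z^2)
      + a6*y^3 + a7*(y^2*z) + a8*(y*z^2) + a9*z^3 = 0) :
    a0 = 0 ∧ a1 = 0 ∧ a2 = 0 ∧ a3 = 0 ∧ a4 = 0 ∧ a5 = 0 ∧ a6 = 0 ∧ a7 = 0 ∧ a8 = 0 ∧ a9 = 0 := by
  have h1 := h 1 0 0
  have h2 := h 0 1 0
  have h3 := h 0 0 1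
  have h4 := h 1 1 0
  have h5 := h 1 (-1) 0
  have h6 := h 1 0 1
  have h7 := h 1 0 (-1)
  have h8 := h 0 1 1
  have h9 := h 0 1 (-1)
  have h10 := h 1 1 1
  refine ⟨?_, ?_, ?_, ?_, ?_, ?_, ?_, ?_, ?_, ?_⟩ <;> linarith

set_option maxHeartbeats 4000000 in
theorem eqN1 (a c : ℝ) (hc : c = 1 ∨ c = -1) (k : Fin 10 → ℝ) (m : Fin 2 → Fin 3 → Fin 3 → ℝ)
    (h : Eqs ![a, 0, 0, c / 2, 0, c / 2] k m) : EqN1 a c k := by
  have hcc : c * c = 1 := by rcases hc with rfl | rfl <;> norm_num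
  have e1 := quad0 (4*a^2 - 2*a - 3 * k 0 + a) (c * m 0 0 0 - 2 * k 1) (c * m 1 0 0 - 2 * k 2)
    (c * m 0 0 1 - k 3 + c/2) (c * m 0 0 2 + c * m 1 0 1 - k 4) (c * m 1 0 2 - k 5 + c/2)
    (by
      intro x y z
      have := (h x y z).1
      simp [qx, qy, qz, qv, cx, ln] at this
      linear_combination this)
  have e2 := quad0 (- k 1) (2*a*c + c * m 0 1 0 - 2 * k 3) (c * m 1 1 0 - k 4)
    (c * m 0 1 1 - 3 * k 6) (c * m 0 1 2 + c * m 1 1 1 - 2 * k 7) (c * m 1 1 2 - k 8)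
    (by
      intro x y z
      have := (h x y z).2.1
      simp [qx, qy, qz, qv, cy, ln] at this
      linear_combination this)
  have e3 := quad0 (- k 2) (c * m 0 2 0 - k 4) (2*a*c + c * m 1 2 0 - 2 * k 5)
    (c * m 0 2 1 - k 7) (c * m 0 2 2 + c * m 1 2 1 - 2 * k 8) (c * m 1 2 2 - 3 * k 9)
    (by
      intro x y z
      have := (h x y z).2.2.1
      simp [qx, qy, qz, qv, cz, ln] at this
      linear_combination this)
  obtain ⟨e10, e11, e12, e13, e14, e15⟩ := e1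
  obtain ⟨e20, e21, e22, e23, e24, e25⟩ := e2
  obtain ⟨e30, e31, e32, e33, e34, e35⟩ := e3
  have k1 : k 1 = 0 := by linarith
  have k2 : k 2 = 0 := by linarith
  -- m in terms of k
  obtain ⟨u, hu⟩ : ∃ u : ℝ, m 0 0 2 = c * (u + k 4 / 2) := ⟨c * m 0 0 2 - k 4 / 2, by
    linear_combination (- m 0 0 2) * hcc⟩
  obtain ⟨v, hv⟩ : ∃ v : ℝ, m 0 1 2 = c * (v + k 7) := ⟨c * m 0 1 2 - k 7, by
    linear_combination (- m 0 1 2) * hcc⟩
  obtain ⟨w, hw⟩ : ∃ w : ℝ, m 0 2 2 = c * (w + k 8) := ⟨c * m 0 2 2 - k 8, by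
    linear_combination (- m 0 2 2) * hcc⟩
  have m000 : m 0 0 0 = 0 := by linear_combination c * e11 + (2*c) * k1 - m 0 0 0 * hcc
  have m100 : m 1 0 0 = 0 := by linear_combination c * e12 + (2*c) * k2 - m 1 0 0 * hcc
  have m001 : m 0 0 1 = c * k 3 - 1/2 := by linear_combination c * e13 - (m 0 0 1 + 1/2) * hcc
  have m102 : m 1 0 2 = c * k 5 - 1/2 := by linear_combination c * e15 - (m 1 0 2 + 1/2) * hcc
  have m101 : m 1 0 1 = c * (k 4 / 2 - u) := by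
    rw [hu] at e14
    linear_combination c * e14 - (m 1 0 1 + c * (u + k 4 / 2)) * hcc
  have m010 : m 0 1 0 = 2 * c * k 3 - 2 * a := by
    linear_combination c * e21 - (m 0 1 0 + 2 * a) * hcc
  have m110 : m 1 1 0 = c * k 4 := by linear_combination c * e22 - (m 1 1 0) * hcc
  have m011 : m 0 1 1 = 3 * c * k 6 := by linear_combination c * e23 - (m 0 1 1) * hcc
  have m112 : m 1 1 2 = c * k 8 := by linear_combination c * e25 - (m 1 1 2) * hcc
  have m111 : m 1 1 1 = c * (k 7 - v) := by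
    rw [hv] at e24
    linear_combination c * e24 - (m 1 1 1 + c * (v + k 7)) * hcc
  have m020 : m 0 2 0 = c * k 4 := by linear_combination c * e31 - (m 0 2 0) * hcc
  have m120 : m 1 2 0 = 2 * c * k 5 - 2 * a := by
    linear_combination c * e32 - (m 1 2 0 + 2 * a) * hcc
  have m021 : m 0 2 1 = c * k 7 := by linear_combination c * e33 - (m 0 2 1) * hcc
  have m122 : m 1 2 2 = 3 * c * k 9 := by linear_combination c * e35 - (m 1 2 2) * hcc
  have m121 : m 1 2 1 = c * (k 8 - w) := by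
    rw [hw] at e34
    linear_combination c * e34 - (m 1 2 1 + c * (w + k 8)) * hcc
  have key : ∀ x y z : ℝ,
      cx k x y z * (2 * a * x - x) + cy k x y z * ln (m 0 0) x y z + cz k x y z * ln (m 1 0) x y z +
      cv k x y z = 0 ∧
      cx k x y z * (c * y) + cy k x y z * ln (m 0 1) x y z + cz k x y z * ln (m 1 1) x y z = 0 ∧
      cx k x y z * (c * z) + cy k x y z * ln (m 0 2) x y z + cz k x y z * ln (m 1 2) x y z = 0 := by
    intro x y z
    obtain ⟨-, -, -, h4, h5, h6⟩ := h x y z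
    simp [qx, qy, qz] at h4 h5 h6
    refine ⟨?_, ?_, ?_⟩
    · linear_combination h4
    · linear_combination h5
    · linear_combination h6
  clear h e11 e12 e13 e14 e15 e20 e21 e22 e23 e24 e25 e30 e31 e32 e33 e34 e35
  refine ⟨k1, k2, u, v, w, ?_⟩
  obtain ⟨p0, q0, r0⟩ := key (1) (0) (0)
  obtain ⟨p1, q1, r1⟩ := key (0) (1) (0)
  obtain ⟨p2, q2, r2⟩ := key (0) (0) (1)
  obtain ⟨p3, q3, r3⟩ := key (1) (1) (0)
  obtain ⟨p4, q4, r4⟩ := key (1) (-1) (0)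
  obtain ⟨p5, q5, r5⟩ := key (1) (0) (1)
  obtain ⟨p6, q6, r6⟩ := key (1) (0) (-1)
  obtain ⟨p7, q7, r7⟩ := key (0) (1) (1)
  obtain ⟨p8, q8, r8⟩ := key (0) (1) (-1)
  obtain ⟨p9, q9, r9⟩ := key (1) (1) (1)
  simp only [cx, cy, cz, cv, ln, hu, hv, hw, m000, m100, m001, m102, m101, m010, m110, m011, m112, m111,
    m020, m120, m021, m122, m121, k1, k2] at p0 p1 p2 p3 p4 p5 p6 p7 p8 p9 q0 q1 q2 q3 q4 q5 q6 q7 q8 q9 r0 r1 r2 r3 r4 r5 r6 r7 r8 r9
  clear key hcc hu hv hw m000 m100 m001 m102 m101 m010 m110 m011 m112 m111 m020 m120 m021 m122 m121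
  rcases hc with rfl | rfl
  · refine ⟨?_, ?_, ?_, ?_, ?_, ?_, ?_, ?_, ?_, ?_, ?_, ?_, ?_, ?_, ?_, ?_, ?_, ?_, ?_, ?_, ?_, ?_, ?_, ?_, ?_, ?_⟩
    · linarith only [e10]
    · linarith only [p0, p1, p2, p3, p4, p5, p6, p7, p8, p9]
    · linarith only [p0, p1, p2, p3, p4, p5, p6, p7, p8, p9]
    · linarith only [p0, p1, p2, p3, p4, p5, p6, p7, p8, p9]
    · linarith only [p0, p1, p2, p3, p4, p5, p6, p7, p8, p9]
    · linarith only [p0, p1, p2, p3, p4, p5, p6, p7, p8, p9]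
    · linarith only [p0, p1, p2, p3, p4, p5, p6, p7, p8, p9]
    · linarith only [p0, p1, p2, p3, p4, p5, p6, p7, p8, p9]
    · linarith only [p0, p1, p2, p3, p4, p5, p6, p7, p8, p9]
    · linarith only [q0, q1, q2, q3, q4, q5, q6, q7, q8, q9]
    · linarith only [q0, q1, q2, q3, q4, q5, q6, q7, q8, q9]
    · linarith only [q0, q1, q2, q3, q4, q5, q6, q7, q8, q9]
    · linarith only [q0, q1, q2, q3, q4, q5, q6, q7, q8, q9]
    · linarith only [q0, q1, q2, q3, q4, q5, q6, q7, q8, q9]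
    · linarith only [q0, q1, q2, q3, q4, q5, q6, q7, q8, q9]
    · linarith only [q0, q1, q2, q3, q4, q5, q6, q7, q8, q9]
    · linarith only [q0, q1, q2, q3, q4, q5, q6, q7, q8, q9]
    · linarith only [q0, q1, q2, q3, q4, q5, q6, q7, q8, q9]
    · linarith only [r0, r1, r2, r3, r4, r5, r6, r7, r8, r9]
    · linarith only [r0, r1, r2, r3, r4, r5, r6, r7, r8, r9]
    · linarith only [r0, r1, r2, r3, r4, r5, r6, r7, r8, r9]
    · linarith only [r0, r1, r2, r3, r4, r5, r6, r7, r8, r9]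
    · linarith only [r0, r1, r2, r3, r4, r5, r6, r7, r8, r9]
    · linarith only [r0, r1, r2, r3, r4, r5, r6, r7, r8, r9]
    · linarith only [r0, r1, r2, r3, r4, r5, r6, r7, r8, r9]
    · linarith only [r0, r1, r2, r3, r4, r5, r6, r7, r8, r9]
  · refine ⟨?_, ?_, ?_, ?_, ?_, ?_, ?_, ?_, ?_, ?_, ?_, ?_, ?_, ?_, ?_, ?_, ?_, ?_, ?_, ?_, ?_, ?_, ?_, ?_, ?_, ?_⟩
    · linarith only [e10]
    · linarith only [p0, p1, p2, p3, p4, p5, p6, p7, p8, p9]
    · linarith only [p0, p1, p2, p3, p4, p5, p6, p7, p8, p9]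
    · linarith only [p0, p1, p2, p3, p4, p5, p6, p7, p8, p9]
    · linarith only [p0, p1, p2, p3, p4, p5, p6, p7, p8, p9]
    · linarith only [p0, p1, p2, p3, p4, p5, p6, p7, p8, p9]
    · linarith only [p0, p1, p2, p3, p4, p5, p6, p7, p8, p9]
    · linarith only [p0, p1, p2, p3, p4, p5, p6, p7, p8, p9]
    · linarith only [p0, p1, p2, p3, p4, p5, p6, p7, p8, p9]
    · linarith only [q0, q1, q2, q3, q4, q5, q6, q7, q8, q9]
    · linarith only [q0, q1, q2, q3, q4, q5, q6, q7, q8, q9]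
    · linarith only [q0, q1, q2, q3, q4, q5, q6, q7, q8, q9]
    · linarith only [q0, q1, q2, q3, q4, q5, q6, q7, q8, q9]
    · linarith only [q0, q1, q2, q3, q4, q5, q6, q7, q8, q9]
    · linarith only [q0, q1, q2, q3, q4, q5, q6, q7, q8, q9]
    · linarith only [q0, q1, q2, q3, q4, q5, q6, q7, q8, q9]
    · linarith only [q0, q1, q2, q3, q4, q5, q6, q7, q8, q9]
    · linarith only [q0, q1, q2, q3, q4, q5, q6, q7, q8, q9]
    · linarith only [r0, r1, r2, r3, r4, r5, r6, r7, r8, r9]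
    · linarith only [r0, r1, r2, r3, r4, r5, r6, r7, r8, r9]
    · linarith only [r0, r1, r2, r3, r4, r5, r6, r7, r8, r9]
    · linarith only [r0, r1, r2, r3, r4, r5, r6, r7, r8, r9]
    · linarith only [r0, r1, r2, r3, r4, r5, r6, r7, r8, r9]
    · linarith only [r0, r1, r2, r3, r4, r5, r6, r7, r8, r9]
    · linarith only [r0, r1, r2, r3, r4, r5, r6, r7, r8, r9]
    · linarith only [r0, r1, r2, r3, r4, r5, r6, r7, r8, r9]

end Pool.Agent.Helper190.NJ
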