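import Pool.Agent.Helper190.NJ.Defs

set_option autoImplicit false

/-!
Admissible collections of polynomials (linear Nijenhuis operators), `n = 3`.
-/

namespace Pool.Agent.Helper190.NJ
open MvPolynomial Matrix


theorem eqN2_quad (c0 c1 c2 c3 c4 c5 : ℝ)
    (h : ∀ x y z : ℝ, c0 * x ^ 2 + c1 * (x * y) + c2 * (x * z) + c3 * y ^ 2 + c4 * (y * z) +
      c5 * z ^ 2 = 0) : c0 = 0 ∧ c1 = 0 ∧ c2 = 0 ∧ c3 = 0 ∧ c4 = 0 ∧ c5 = 0 := by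
  have h1 := h 1 0 0
  have h2 := h 0 1 0
  have h3 := h 0 0 1
  have h4 := h 1 1 0
  have h5 := h 1 0 1
  have h6 := h 0 1 1
  refine ⟨?_, ?_, ?_, ?_, ?_, ?_⟩ <;> linarith

theorem eqN2_cub (c0 c1 c2 c3 c4 c5 c6 c7 c8 c9 : ℝ)
    (h : ∀ x y z : ℝ, c0 * x ^ 3 + c1 * (x ^ 2 * y) + c2 * (x ^ 2 * z) + c3 * (x * y ^ 2) +
      c4 * (x * y * z) + c5 * (x * z ^ 2) + c6 * y ^ 3 + c7 * (y ^ 2 * z) + c8 * (y * z ^ 2) +
      c9 * z ^ 3 = 0) : c0 = 0 ∧ c1 = 0 ∧ c2 = 0 ∧ c3 = 0 ∧ c4 = 0 ∧ c5 = 0 ∧ c6 = 0 ∧ c7 = 0 ∧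
      c8 = 0 ∧ c9 = 0 := by
  have h1 := h 1 0 0
  have h2 := h 0 1 0
  have h3 := h 0 0 1
  have h4 := h 1 1 0
  have h5 := h 1 (-1) 0
  have h6 := h 1 0 1
  have h7 := h 1 0 (-1)
  have h8 := h 0 1 1
  have h9 := h 0 1 (-1)
  have h10 := h 1 1 1
  refine ⟨?_, ?_, ?_, ?_, ?_, ?_, ?_, ?_, ?_, ?_⟩ <;> linarith

theorem eqN2 (a : ℝ) (k : Fin 10 → ℝ) (m : Fin 2 → Fin 3 → Fin 3 → ℝ)
    (h : Eqs ![a, 0, 0, 0, 1, 0] k m) : EqN2 a k := by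
  have hqx : ∀ x y z : ℝ, qx ![a, 0, 0, 0, 1, 0] x y z = 2 * a * x := by
    intro x y z
    simp [qx]
  have hqy : ∀ x y z : ℝ, qy ![a, 0, 0, 0, 1, 0] x y z = z := by
    intro x y z
    simp [qy]
  have hqz : ∀ x y z : ℝ, qz ![a, 0, 0, 0, 1, 0] x y z = y := by
    intro x y z
    simp [qz]
  have hqv : ∀ x y z : ℝ, qv ![a, 0, 0, 0, 1, 0] x y z = a * x ^ 2 + y * z := by
    intro x y z
    simp [qv]
  unfold Eqs at h
  simp only [hqx, hqy, hqz, hqv, ln, cx, cy, cz, cv] at h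
  obtain ⟨a0, a1, a2, a3, a4, a5⟩ := eqN2_quad (4 * a ^ 2 - a - 3 * k 0) (m 1 0 0 - 2 * k 1)
    (m 0 0 0 - 2 * k 2) (m 1 0 1 - k 3) (m 0 0 1 + m 1 0 2 - k 4 + 1) (m 0 0 2 - k 5) (by
      intro x y z
      linear_combination (h x y z).1)
  obtain ⟨b0, b1, b2, b3, b4, b5⟩ := eqN2_quad (- k 1) (m 1 1 0 - 2 * k 3)
    (2 * a + m 0 1 0 - k 4) (m 1 1 1 - 3 * k 6) (m 0 1 1 + m 1 1 2 - 2 * k 7) (m 0 1 2 - k 8) (by
      intro x y z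
      linear_combination (h x y z).2.1)
  obtain ⟨c0, c1, c2, c3, c4, c5⟩ := eqN2_quad (- k 2) (2 * a + m 1 2 0 - k 4)
    (m 0 2 0 - 2 * k 5) (m 1 2 1 - k 7) (m 0 2 1 + m 1 2 2 - 2 * k 8) (m 0 2 2 - 3 * k 9) (by
      intro x y z
      linear_combination (h x y z).2.2.1)
  have k1 : k 1 = 0 := by linarith
  have k2 : k 2 = 0 := by linarith
  obtain ⟨u, hu⟩ : ∃ u, m 0 0 1 = (k 4 - 1) / 2 + u := ⟨m 0 0 1 - (k 4 - 1) / 2, by ring⟩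
  obtain ⟨v, hv⟩ : ∃ v, m 0 1 1 = k 7 + v := ⟨m 0 1 1 - k 7, by ring⟩
  obtain ⟨w, hw⟩ : ∃ w, m 0 2 1 = k 8 + w := ⟨m 0 2 1 - k 8, by ring⟩
  have m100 : m 1 0 0 = 0 := by linarith
  have m000 : m 0 0 0 = 0 := by linarith
  have m101 : m 1 0 1 = k 3 := by linarith
  have m102 : m 1 0 2 = (k 4 - 1) / 2 - u := by linarith
  have m002 : m 0 0 2 = k 5 := by linarith
  have m110 : m 1 1 0 = 2 * k 3 := by linarith
  have m010 : m 0 1 0 = k 4 - 2 * a := by linarith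
  have m111 : m 1 1 1 = 3 * k 6 := by linarith
  have m112 : m 1 1 2 = k 7 - v := by linarith
  have m012 : m 0 1 2 = k 8 := by linarith
  have m120 : m 1 2 0 = k 4 - 2 * a := by linarith
  have m020 : m 0 2 0 = 2 * k 5 := by linarith
  have m121 : m 1 2 1 = k 7 := by linarith
  have m122 : m 1 2 2 = k 8 - w := by linarith
  have m022 : m 0 2 2 = 3 * k 9 := by linarith
  simp only [m100, m000, m101, m102, m002, m110, m010, m111, m112, m012, m120, m020, m121, m122,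
    m022, hu, hv, hw, k1, k2] at h
  obtain ⟨d0, d1, d2, d3, d4, d5, d6, d7, d8, d9⟩ := eqN2_cub
    (3 * k 0 * (2 * a - 1) + k 0) 0 0
    (k 3 * (2 * a - 1) + 2 * k 3 * ((k 4 - 1) / 2 + u) + k 4 * k 3 + k 3)
    (k 4 * (2 * a - 1) + 2 * k 3 * k 5 + k 4 * ((k 4 - 1) / 2 + u) + k 4 * ((k 4 - 1) / 2 - u) +
      2 * k 5 * k 3 + k 4)
    (k 5 * (2 * a - 1) + k 4 * k 5 + 2 * k 5 * ((k 4 - 1) / 2 - u) + k 5)
    (3 * k 6 * ((k 4 - 1) / 2 + u) + k 7 * k 3 + k 6)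
    (3 * k 6 * k 5 + 2 * k 7 * ((k 4 - 1) / 2 + u) + k 7 * ((k 4 - 1) / 2 - u) + 2 * k 8 * k 3 +
      k 7)
    (2 * k 7 * k 5 + k 8 * ((k 4 - 1) / 2 + u) + 2 * k 8 * ((k 4 - 1) / 2 - u) + 3 * k 9 * k 3 +
      k 8)
    (k 8 * k 5 + 3 * k 9 * ((k 4 - 1) / 2 - u) + k 9) (by
      intro x y z
      linear_combination (h x y z).2.2.2.1)
  obtain ⟨e0, e1, e2, e3, e4, e5, e6, e7, e8, e9⟩ := eqN2_cub
    0 (2 * k 3 * (k 4 - 2 * a) + k 4 * (2 * k 3))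
    (3 * k 0 + k 4 * (k 4 - 2 * a) + 2 * k 5 * (2 * k 3))
    (2 * k 3 * (k 7 + v) + 3 * k 6 * (k 4 - 2 * a) + k 4 * (3 * k 6) + k 7 * (2 * k 3))
    (2 * k 3 * k 8 + k 4 * (k 7 + v) + 2 * k 7 * (k 4 - 2 * a) + k 4 * (k 7 - v) +
      2 * k 5 * (3 * k 6) + 2 * k 8 * (2 * k 3))
    (k 4 * k 8 + k 8 * (k 4 - 2 * a) + 2 * k 5 * (k 7 - v) + 3 * k 9 * (2 * k 3))
    (3 * k 6 * (k 7 + v) + k 7 * (3 * k 6))
    (k 3 + 3 * k 6 * k 8 + 2 * k 7 * (k 7 + v) + k 7 * (k 7 - v) + 2 * k 8 * (3 * k 6))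
    (k 4 + 2 * k 7 * k 8 + k 8 * (k 7 + v) + 2 * k 8 * (k 7 - v) + 3 * k 9 * (3 * k 6))
    (k 5 + k 8 * k 8 + 3 * k 9 * (k 7 - v)) (by
      intro x y z
      linear_combination (h x y z).2.2.2.2.1)
  obtain ⟨f0, f1, f2, f3, f4, f5, f6, f7, f8, f9⟩ := eqN2_cub
    0 (3 * k 0 + 2 * k 3 * (2 * k 5) + k 4 * (k 4 - 2 * a))
    (k 4 * (2 * k 5) + 2 * k 5 * (k 4 - 2 * a))
    (2 * k 3 * (k 8 + w) + 3 * k 6 * (2 * k 5) + k 4 * k 7 + k 7 * (k 4 - 2 * a))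
    (2 * k 3 * (3 * k 9) + k 4 * (k 8 + w) + 2 * k 7 * (2 * k 5) + k 4 * (k 8 - w) +
      2 * k 5 * k 7 + 2 * k 8 * (k 4 - 2 * a))
    (k 4 * (3 * k 9) + k 8 * (2 * k 5) + 2 * k 5 * (k 8 - w) + 3 * k 9 * (k 4 - 2 * a))
    (k 3 + 3 * k 6 * (k 8 + w) + k 7 * k 7)
    (k 4 + 3 * k 6 * (3 * k 9) + 2 * k 7 * (k 8 + w) + k 7 * (k 8 - w) + 2 * k 8 * k 7)
    (k 5 + 2 * k 7 * (3 * k 9) + k 8 * (k 8 + w) + 2 * k 8 * (k 8 - w) + 3 * k 9 * k 7)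
    (k 8 * (3 * k 9) + 3 * k 9 * (k 8 - w)) (by
      intro x y z
      linear_combination (h x y z).2.2.2.2.2)
  refine ⟨k1, k2, u, v, w, ?_⟩
  refine ⟨?_, ?_, ?_, ?_, ?_, ?_, ?_, ?_, ?_, ?_, ?_, ?_, ?_, ?_, ?_, ?_, ?_, ?_, ?_, ?_, ?_, ?_,
    ?_, ?_, ?_, ?_⟩
  · linarith
  · linear_combination d0
  · linear_combination d3
  · linear_combination d4
  · linear_combination d5
  · linear_combination d6
  · linear_combination d7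
  · linear_combination d8
  · linear_combination d9
  · linear_combination e1
  · linear_combination e2
  · linear_combination e3
  · linear_combination e4
  · linear_combination e5
  · linear_combination e6
  · linear_combination e7
  · linear_combination e8
  · linear_combination e9
  · linear_combination f2
  · linear_combination f3
  · linear_combination f4
  · linear_combination f5
  · linear_combination f6
  · linear_combination f7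
  · linear_combination f8
  · linear_combination f9

end Pool.Agent.Helper190.NJ
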