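import Pool.Agent.Helper190.NJ.Defs

set_option autoImplicit false

/-!
Admissible collections of polynomials (linear Nijenhuis operators), `n = 3`.
-/

namespace Pool.Agent.Helper190.NJ
open MvPolynomial Matrix


theorem w_key (a b c : ℕ) (r : ℝ) (habc : a + b + c = 3) :
    ∃ k : Fin 10 → ℝ, (C r * (X 0 ^ a * X 1 ^ b * X 2 ^ c) : MvPolynomial (Fin 3) ℝ) = cubP k := by
  have ha : a ≤ 3 := by omega
  have hb : b ≤ 3 := by omega
  refine ⟨![if a = 3 ∧ b = 0 then r else 0, if a = 2 ∧ b = 1 then r else 0,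
    if a = 2 ∧ b = 0 then r else 0, if a = 1 ∧ b = 2 then r else 0, if a = 1 ∧ b = 1 then r else 0,
    if a = 1 ∧ b = 0 then r else 0, if a = 0 ∧ b = 3 then r else 0, if a = 0 ∧ b = 2 then r else 0,
    if a = 0 ∧ b = 1 then r else 0, if a = 0 ∧ b = 0 then r else 0], ?_⟩
  obtain rfl : c = 3 - a - b := by omega
  interval_cases a <;> interval_cases b <;> first | omega | (simp [cubP]; done) | (simp [cubP]; ring)

theorem w_add (k l : Fin 10 → ℝ) : cubP k + cubP l = cubP (k + l) := by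
  simp only [cubP, Pi.add_apply, C_add]
  ring

theorem w_zero : (0 : MvPolynomial (Fin 3) ℝ) = cubP 0 := by
  simp [cubP]

theorem ext_cub (f : MvPolynomial (Fin 3) ℝ) (h : f.IsHomogeneous 3) :
    ∃ k : Fin 10 → ℝ, f = cubP k := by
  rw [← f.support_sum_monomial_coeff]
  apply Finset.sum_induction _ (fun g => ∃ k : Fin 10 → ℝ, g = cubP k)
  · rintro g g' ⟨k, rfl⟩ ⟨l, rfl⟩
    exact ⟨k + l, w_add k l⟩
  · exact ⟨0, w_zero⟩
  · intro m hm
    have hd := h (mem_support_iff.1 hm)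
    have hd3 : m 0 + m 1 + m 2 = 3 := by
      have : (Finsupp.weight 1) m = m 0 + m 1 + m 2 := by
        rw [Finsupp.weight_apply, Finsupp.sum_fintype _ _ (by simp), Fin.sum_univ_three]
        simp
      rw [← this]; exact hd
    obtain ⟨k, hk⟩ := w_key (m 0) (m 1) (m 2) (coeff m f) hd3
    refine ⟨k, ?_⟩
    rw [← hk, monomial_eq, Finsupp.prod_fintype _ _ (by simp), Fin.prod_univ_three]

end Pool.Agent.Helper190.NJ
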