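import Pool.Agent.Helper190.NJ.Defs

set_option autoImplicit false

/-!
Admissible collections of polynomials (linear Nijenhuis operators), `n = 3`.
-/

namespace Pool.Agent.Helper190.NJ
open MvPolynomial Matrix


theorem ext_lin (f : MvPolynomial (Fin 3) ℝ) (h : f.IsHomogeneous 1) :
    ∃ l : Fin 3 → ℝ, f = C (l 0) * X 0 + C (l 1) * X 1 + C (l 2) * X 2 := by
  refine ⟨fun i => coeff (Finsupp.single i 1) f, ?_⟩
  ext m
  simp only [coeff_add, coeff_C_mul, coeff_X']
  by_cases hm : m.degree = 1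
  · have hsum : m 0 + m 1 + m 2 = 1 := by
      rw [← hm, Finsupp.degree_eq_sum, Fin.sum_univ_three]
    have hcase : m = Finsupp.single 0 1 ∨ m = Finsupp.single 1 1 ∨ m = Finsupp.single 2 1 := by
      have h3 : (m 0 = 1 ∧ m 1 = 0 ∧ m 2 = 0) ∨ (m 0 = 0 ∧ m 1 = 1 ∧ m 2 = 0) ∨
          (m 0 = 0 ∧ m 1 = 0 ∧ m 2 = 1) := by omega
      rcases h3 with ⟨a, b, c⟩ | ⟨a, b, c⟩ | ⟨a, b, c⟩
      · left; ext i; fin_cases i <;> simp [a, b, c]
      · right; left; ext i; fin_cases i <;> simp [a, b, c]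
      · right; right; ext i; fin_cases i <;> simp [a, b, c]
    rcases hcase with rfl | rfl | rfl <;>
      simp [Finsupp.single_left_inj]
  · have h0 : coeff m f = 0 := h.coeff_eq_zero hm
    rw [h0]
    have hne : ∀ i : Fin 3, Finsupp.single i 1 ≠ m := by
      intro i hi
      apply hm
      rw [← hi]; simp
    simp [hne]

end Pool.Agent.Helper190.NJ
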