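import Pool.Agent.Helper190.NJ.Defs

set_option autoImplicit false

/-!
Admissible collections of polynomials (linear Nijenhuis operators), `n = 3`.
-/

namespace Pool.Agent.Helper190.NJ
open MvPolynomial Matrix


noncomputable def mm3 (a b c : ℕ) : Fin 3 →₀ ℕ := Finsupp.equivFunOnFinite.symm ![a, b, c]

theorem mm3_eq_iff (a b c : ℕ) (m : Fin 3 →₀ ℕ) :
    mm3 a b c = m ↔ a = m 0 ∧ b = m 1 ∧ c = m 2 := by
  constructor
  · rintro rfl
    exact ⟨rfl, rfl, rfl⟩
  · rintro ⟨h0, h1, h2⟩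
    ext i
    fin_cases i
    · exact h0
    · exact h1
    · exact h2

theorem mono3 (a b c : ℕ) (r : ℝ) :
    (C r * (X 0 ^ a * X 1 ^ b * X 2 ^ c) : MvPolynomial (Fin 3) ℝ) = monomial (mm3 a b c) r := by
  rw [X_pow_eq_monomial, X_pow_eq_monomial, X_pow_eq_monomial, monomial_mul, monomial_mul,
    C_mul_monomial]
  have : (Finsupp.single (0 : Fin 3) a + Finsupp.single 1 b + Finsupp.single 2 c) = mm3 a b c := by
    symm
    rw [mm3_eq_iff]
    simp [Finsupp.single_apply]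
  rw [this]
  simp

theorem quadP_eq (q : Fin 6 → ℝ) : quadP q =
    monomial (mm3 2 0 0) (q 0) + monomial (mm3 1 1 0) (q 1) + monomial (mm3 1 0 1) (q 2) +
    monomial (mm3 0 2 0) (q 3) + monomial (mm3 0 1 1) (q 4) + monomial (mm3 0 0 2) (q 5) := by
  simp only [← mono3, quadP, pow_zero, pow_one, one_mul, mul_one]

theorem degree3 (m : Fin 3 →₀ ℕ) : m.degree = m 0 + m 1 + m 2 := by
  rw [Finsupp.degree_eq_sum, Fin.sum_univ_three]

theorem ext_quad (f : MvPolynomial (Fin 3) ℝ) (h : f.IsHomogeneous 2) :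
    ∃ q : Fin 6 → ℝ, f = quadP q := by
  refine ⟨![coeff (mm3 2 0 0) f, coeff (mm3 1 1 0) f, coeff (mm3 1 0 1) f, coeff (mm3 0 2 0) f,
    coeff (mm3 0 1 1) f, coeff (mm3 0 0 2) f], ?_⟩
  rw [quadP_eq]
  ext m
  simp only [coeff_add, coeff_monomial, mm3_eq_iff]
  by_cases hd : m 0 + m 1 + m 2 = 2
  · have hm : m = mm3 (m 0) (m 1) (m 2) := ((mm3_eq_iff _ _ _ m).2 ⟨rfl, rfl, rfl⟩).symm
    have h0 : m 0 ≤ 2 := by omega
    have h1 : m 1 ≤ 2 := by omega
    have h2 : m 2 = 2 - m 0 - m 1 := by omega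
    rw [hm]
    generalize m 0 = x at *
    generalize m 1 = y at *
    generalize m 2 = z at *
    subst h2
    have e0 : ∀ a b c : ℕ, (mm3 a b c) 0 = a := fun _ _ _ => rfl
    have e1 : ∀ a b c : ℕ, (mm3 a b c) 1 = b := fun _ _ _ => rfl
    have e2 : ∀ a b c : ℕ, (mm3 a b c) 2 = c := fun _ _ _ => rfl
    interval_cases x <;> interval_cases y <;> first | (exfalso; omega) | simp [e0, e1, e2]
  · have hz : coeff m f = 0 := by
      apply h.coeff_eq_zero
      rw [degree3]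
      exact hd
    rw [hz]
    rw [if_neg (by rintro ⟨a, b, c⟩; omega), if_neg (by rintro ⟨a, b, c⟩; omega),
      if_neg (by rintro ⟨a, b, c⟩; omega), if_neg (by rintro ⟨a, b, c⟩; omega),
      if_neg (by rintro ⟨a, b, c⟩; omega), if_neg (by rintro ⟨a, b, c⟩; omega)]
    simp

end Pool.Agent.Helper190.NJ
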