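import Pool.Agent.Helper190.NJ.Defs
import Pool.Agent.Helper190.NJ.P_ext_lin

set_option autoImplicit false

/-!
Admissible collections of polynomials (linear Nijenhuis operators), `n = 3`.
-/

namespace Pool.Agent.Helper190.NJ
open MvPolynomial Matrix


theorem extract_dq0 (q : Fin 6 → ℝ) (x y z : ℝ) :
    eval ![x, y, z] (pderiv 0 (quadP q)) = qx q x y z := by
  simp [quadP, qx, pderiv_X, Pi.single_apply, Derivation.leibniz, Derivation.leibniz_pow]
  try ring
theorem extract_dq1 (q : Fin 6 → ℝ) (x y z : ℝ) :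
    eval ![x, y, z] (pderiv 1 (quadP q)) = qy q x y z := by
  simp [quadP, qy, pderiv_X, Pi.single_apply, Derivation.leibniz, Derivation.leibniz_pow]
  try ring
theorem extract_dq2 (q : Fin 6 → ℝ) (x y z : ℝ) :
    eval ![x, y, z] (pderiv 2 (quadP q)) = qz q x y z := by
  simp [quadP, qz, pderiv_X, Pi.single_apply, Derivation.leibniz, Derivation.leibniz_pow]
  try ring
theorem extract_dc0 (k : Fin 10 → ℝ) (x y z : ℝ) :
    eval ![x, y, z] (pderiv 0 (cubP k)) = cx k x y z := by
  simp [cubP, cx, pderiv_X, Pi.single_apply, Derivation.leibniz, Derivation.leibniz_pow]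
  try ring
theorem extract_dc1 (k : Fin 10 → ℝ) (x y z : ℝ) :
    eval ![x, y, z] (pderiv 1 (cubP k)) = cy k x y z := by
  simp [cubP, cy, pderiv_X, Pi.single_apply, Derivation.leibniz, Derivation.leibniz_pow]
  try ring
theorem extract_dc2 (k : Fin 10 → ℝ) (x y z : ℝ) :
    eval ![x, y, z] (pderiv 2 (cubP k)) = cz k x y z := by
  simp [cubP, cz, pderiv_X, Pi.single_apply, Derivation.leibniz, Derivation.leibniz_pow]
  try ring
theorem extract_q (q : Fin 6 → ℝ) (x y z : ℝ) : eval ![x, y, z] (quadP q) = qv q x y z := by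
  simp [quadP, qv]
theorem extract_c (k : Fin 10 → ℝ) (x y z : ℝ) : eval ![x, y, z] (cubP k) = cv k x y z := by
  simp [cubP, cv]

theorem extract (s : Fin 3 → MvPolynomial (Fin 3) ℝ) (h : Adm' s) (q : Fin 6 → ℝ)
    (k : Fin 10 → ℝ) (h0 : s 0 = X 0) (h1 : s 1 = quadP q) (h2 : s 2 = cubP k) :
    (∃ m : Fin 2 → Fin 3 → Fin 3 → ℝ, Eqs q k m) ∧ Nz q k := by
  obtain ⟨hdet, hhom, L, hL, hJL⟩ := h
  choose l hl using fun i j => ext_lin (L i j) (hL i j)
  have e : ∀ i j, pderiv 0 (s i) * L 0 j + pderiv 1 (s i) * L 1 j + pderiv 2 (s i) * L 2 j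
      = (cmat s * jac s) i j := by
    intro i j
    rw [← hJL]
    simp [Matrix.mul_apply, Fin.sum_univ_three, jac]
  have c0 : ∀ j, (cmat s * jac s) 0 j = - s 0 * pderiv j (s 0) + pderiv j (s 1) := by
    intro j
    simp [Matrix.mul_apply, Fin.sum_univ_three, jac, cmat]
  have c1 : ∀ j, (cmat s * jac s) 1 j = - s 1 * pderiv j (s 0) + pderiv j (s 2) := by
    intro j
    simp [Matrix.mul_apply, Fin.sum_univ_three, jac, cmat]
  have c2 : ∀ j, (cmat s * jac s) 2 j = - s 2 * pderiv j (s 0) := by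
    intro j
    simp [Matrix.mul_apply, Fin.sum_univ_three, jac, cmat]
  have p0 : pderiv (0 : Fin 3) (X 0 : MvPolynomial (Fin 3) ℝ) = 1 := by simp [pderiv_X]
  have p1 : pderiv (1 : Fin 3) (X 0 : MvPolynomial (Fin 3) ℝ) = 0 := by simp [pderiv_X]
  have p2 : pderiv (2 : Fin 3) (X 0 : MvPolynomial (Fin 3) ℝ) = 0 := by simp [pderiv_X]
  refine ⟨⟨fun a j => l a.succ j, ?_⟩, ?_⟩
  · intro x y z
    have g0 : ∀ j, L 0 j = - s 0 * pderiv j (s 0) + pderiv j (s 1) := by
      intro j
      rw [← c0, ← e, h0, p0, p1, p2]; ring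
    have E1 : ∀ j, pderiv 0 (s 1) * L 0 j + pderiv 1 (s 1) * L 1 j + pderiv 2 (s 1) * L 2 j
      = - s 1 * pderiv j (s 0) + pderiv j (s 2) := fun j => by rw [e, c1]
    have E2 : ∀ j, pderiv 0 (s 2) * L 0 j + pderiv 1 (s 2) * L 1 j + pderiv 2 (s 2) * L 2 j
      = - s 2 * pderiv j (s 0) := fun j => by rw [e, c2]
    have hln : ∀ (i j : Fin 3), eval ![x, y, z] (L i j) = ln (l i j) x y z := by
      intro i j
      rw [hl i j]
      simp [ln]
    have F1 := fun j => congrArg (eval ![x, y, z]) (E1 j)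
    have F2 := fun j => congrArg (eval ![x, y, z]) (E2 j)
    have G0 := fun j => congrArg (eval ![x, y, z]) (g0 j)
    rw [h0, h1] at G0
    rw [h0, h1, h2] at F1
    rw [h0, h2] at F2
    have G00 := G0 0
    have G01 := G0 1
    have G02 := G0 2
    have F10 := F1 0
    have F11 := F1 1
    have F12 := F1 2
    have F20 := F2 0
    have F21 := F2 1
    have F22 := F2 2
    simp only [map_add, map_mul, map_neg, p0, p1, p2, map_zero, map_one, mul_zero, mul_one,
      extract_dq0, extract_dq1, extract_dq2, extract_dc0, extract_dc1, extract_dc2, extract_q,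
      extract_c, eval_X, Matrix.cons_val_zero, neg_zero, zero_add] at G00 G01 G02 F10 F11 F12 F20 F21 F22
    rw [G00, hln, hln] at F10 F20
    rw [G01, hln, hln] at F11 F21
    rw [G02, hln, hln] at F12 F22
    have s1 : (Fin.succ (0 : Fin 2)) = (1 : Fin 3) := rfl
    have s2 : (Fin.succ (1 : Fin 2)) = (2 : Fin 3) := rfl
    simp only [s1, s2]
    refine ⟨?_, ?_, ?_, ?_, ?_, ?_⟩
    · linear_combination F10
    · linear_combination F11
    · linear_combination F12
    · linear_combination F20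
    · linear_combination F21
    · linear_combination F22
  · have h3 : ∃ v : Fin 3 → ℝ, eval v ((jac s).det) ≠ 0 := by
      by_contra hcon
      push Not at hcon
      apply hdet
      apply MvPolynomial.funext
      intro v
      rw [hcon v, map_zero]
    obtain ⟨v, hv⟩ := h3
    refine ⟨v 0, v 1, v 2, ?_⟩
    have hvv : v = ![v 0, v 1, v 2] := by
      funext i; fin_cases i <;> rfl
    have hd : (jac s).det = pderiv 1 (s 1) * pderiv 2 (s 2) - pderiv 2 (s 1) * pderiv 1 (s 2) := by
      rw [Matrix.det_fin_three]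
      simp only [jac, Matrix.of_apply]
      rw [h0, p0, p1, p2]; ring
    rw [hd, h1, h2, hvv] at hv
    simp only [map_sub, map_mul, extract_dq1, extract_dq2, extract_dc1, extract_dc2] at hv
    exact hv

end Pool.Agent.Helper190.NJ
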