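import Pool.Agent.Helper190.NJ.Defs

set_option autoImplicit false

/-!
Admissible collections of polynomials (linear Nijenhuis operators), `n = 3`.
-/

namespace Pool.Agent.Helper190.NJ
open MvPolynomial Matrix


theorem fb1_jac : jac ![X 0 + X 1 + X 2, X 0 * X 1 + X 1 * X 2 + X 2 * X 0, X 0 * X 1 * X 2] =
    !![1, 1, 1; X 1 + X 2, X 0 + X 2, X 0 + X 1; X 1 * X 2, X 0 * X 2, X 0 * X 1] := by
  ext1 i j
  fin_cases i <;> fin_cases j <;>
    simp [jac, pderiv_X, Pi.single_apply, Derivation.leibniz] <;> ring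

theorem fb1 : Adm' ![X 0 + X 1 + X 2, X 0 * X 1 + X 1 * X 2 + X 2 * X 0, X 0 * X 1 * X 2] := by
  refine ⟨?_, ?_, ?_⟩
  · rw [fb1_jac]
    intro h
    have h2 := congrArg (MvPolynomial.eval ![(0 : ℝ), 1, 2]) h
    rw [Matrix.det_fin_three] at h2
    simp at h2
    norm_num at h2
  · intro k
    fin_cases k
    · exact ((isHomogeneous_X ℝ 0).add (isHomogeneous_X ℝ 1)).add (isHomogeneous_X ℝ 2)
    · exact (((isHomogeneous_X ℝ 0).mul (isHomogeneous_X ℝ 1)).add
        ((isHomogeneous_X ℝ 1).mul (isHomogeneous_X ℝ 2))).add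
        ((isHomogeneous_X ℝ 2).mul (isHomogeneous_X ℝ 0))
    · exact ((isHomogeneous_X ℝ 0).mul (isHomogeneous_X ℝ 1)).mul (isHomogeneous_X ℝ 2)
  · refine ⟨Matrix.diagonal ![- X 0, - X 1, - X 2], ?_, ?_⟩
    · intro i j
      by_cases hij : i = j
      · subst hij
        rw [Matrix.diagonal_apply_eq]
        fin_cases i
        · exact (isHomogeneous_X ℝ 0).neg
        · exact (isHomogeneous_X ℝ 1).neg
        · exact (isHomogeneous_X ℝ 2).neg
      · rw [Matrix.diagonal_apply_ne _ hij]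
        exact isHomogeneous_zero _ _ _
    · rw [fb1_jac]
      ext1 i j
      fin_cases i <;> fin_cases j <;>
        simp [cmat, Matrix.mul_apply, Fin.sum_univ_three] <;> ring

end Pool.Agent.Helper190.NJ
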