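import Pool.Agent.Helper190.NJ.Defs

set_option autoImplicit false

/-!
Admissible collections of polynomials (linear Nijenhuis operators), `n = 3`.
-/

namespace Pool.Agent.Helper190.NJ
open MvPolynomial Matrix


theorem fb2_jac : jac (n := 3) ![X 0 + 2 * X 1, 2 * X 0 * X 1 + X 1 ^ 2 + X 2 ^ 2,
    X 0 * (X 1 ^ 2 + X 2 ^ 2)] =
    !![1, 2, 0; 2 * X 1, 2 * X 0 + 2 * X 1, 2 * X 2; X 1 ^ 2 + X 2 ^ 2, 2 * X 0 * X 1,
      2 * X 0 * X 2] := by
  have h2 : (2 : MvPolynomial (Fin 3) ℝ) = C 2 := (map_ofNat C 2).symm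
  ext1 i j
  rw [jac, Matrix.of_apply]
  fin_cases i <;> fin_cases j <;>
    simp [h2, pderiv_X, pderiv_mul, pderiv_C, Derivation.leibniz_pow, Pi.single_apply] <;>
    (try ring)

theorem fb2_cmat : cmat (n := 3) ![X 0 + 2 * X 1, 2 * X 0 * X 1 + X 1 ^ 2 + X 2 ^ 2,
    X 0 * (X 1 ^ 2 + X 2 ^ 2)] =
    !![-(X 0 + 2 * X 1), 1, 0; -(2 * X 0 * X 1 + X 1 ^ 2 + X 2 ^ 2), 0, 1;
      -(X 0 * (X 1 ^ 2 + X 2 ^ 2)), 0, 0] := by
  ext1 i j
  rw [cmat, Matrix.of_apply]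
  fin_cases i <;> fin_cases j <;> simp

theorem fb2 : Adm' ![X 0 + 2 * X 1, 2 * X 0 * X 1 + X 1 ^ 2 + X 2 ^ 2,
    X 0 * (X 1 ^ 2 + X 2 ^ 2)] := by
  have hX : ∀ i : Fin 3, (X i : MvPolynomial (Fin 3) ℝ).IsHomogeneous 1 := fun i =>
    isHomogeneous_X ℝ i
  have hX2 : ∀ i : Fin 3, (X i ^ 2 : MvPolynomial (Fin 3) ℝ).IsHomogeneous 2 := fun i => by
    simpa using (hX i).pow 2
  have hC2 : (2 : MvPolynomial (Fin 3) ℝ).IsHomogeneous 0 := by
    rw [← map_ofNat (C : ℝ →+* MvPolynomial (Fin 3) ℝ) 2]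
    exact isHomogeneous_C _ _
  refine ⟨?_, ?_, ?_⟩
  · rw [fb2_jac, Matrix.det_fin_three]
    intro h
    have h1 := congrArg (MvPolynomial.eval ![(0:ℝ), 0, 1]) h
    simp at h1
  · intro k
    fin_cases k
    · have := (hX 0).add ((hC2.mul (hX 1)))
      simpa using this
    · have h1 : (2 * X 0 * X 1 : MvPolynomial (Fin 3) ℝ).IsHomogeneous 2 := by
        simpa using (hC2.mul (hX 0)).mul (hX 1)
      have := (h1.add (hX2 1)).add (hX2 2)
      simpa using this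
    · have := (hX 0).mul ((hX2 1).add (hX2 2))
      simpa using this
  · refine ⟨!![-X 0, 0, 0; 0, -X 1, X 2; 0, -X 2, -X 1], ?_, ?_⟩
    · intro i j
      fin_cases i <;> fin_cases j
      · exact (hX 0).neg
      · exact isHomogeneous_zero _ _ _
      · exact isHomogeneous_zero _ _ _
      · exact isHomogeneous_zero _ _ _
      · exact (hX 1).neg
      · exact hX 2
      · exact isHomogeneous_zero _ _ _
      · exact (hX 2).neg
      · exact (hX 1).neg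
    · rw [fb2_jac, fb2_cmat]
      ext1 i j
      fin_cases i <;> fin_cases j <;> simp [Matrix.mul_apply, Fin.sum_univ_three] <;> ring

end Pool.Agent.Helper190.NJ
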