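import Pool.Agent.Helper190.NJ.Defs

set_option autoImplicit false

/-!
Admissible collections of polynomials (linear Nijenhuis operators), `n = 3`.
-/

namespace Pool.Agent.Helper190.NJ
open MvPolynomial Matrix


theorem fb3 : Adm' ![X 0 + X 1, X 0 * X 1 + X 2 ^ 2, X 0 * X 2 ^ 2] := by
  have hJ : jac ![X 0 + X 1, X 0 * X 1 + X 2 ^ 2, X 0 * X 2 ^ 2] =
      (!![1, 1, 0; X 1, X 0, 2 * X 2; X 2 ^ 2, 0, 2 * X 0 * X 2] :
        Matrix (Fin 3) (Fin 3) (MvPolynomial (Fin 3) ℝ)) := by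
    ext1 i j
    fin_cases i <;> fin_cases j <;>
      simp [jac, pderiv_X, Pi.single_apply, Derivation.leibniz, Derivation.leibniz_pow] <;> ring
  have hC : cmat ![X 0 + X 1, X 0 * X 1 + X 2 ^ 2, X 0 * X 2 ^ 2] =
      (!![-(X 0 + X 1), 1, 0; -(X 0 * X 1 + X 2 ^ 2), 0, 1; -(X 0 * X 2 ^ 2), 0, 0] :
        Matrix (Fin 3) (Fin 3) (MvPolynomial (Fin 3) ℝ)) := by
    ext1 i j
    fin_cases i <;> fin_cases j <;> simp [cmat]
  have h2 : (2 : MvPolynomial (Fin 3) ℝ) * C (1 / 2 : ℝ) = 1 := by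
    have : (2 : MvPolynomial (Fin 3) ℝ) = C (2 : ℝ) := (map_ofNat C 2).symm
    rw [this, ← C_mul]; norm_num
  refine ⟨?_, ?_, !![-X 0, 0, 0; 0, -X 1, 2 * X 2; 0, -(C (1 / 2 : ℝ) * X 2), 0], ?_, ?_⟩
  · rw [hJ, Matrix.det_fin_three]
    intro h
    have := congrArg (MvPolynomial.eval (![1, 0, 1] : Fin 3 → ℝ)) h
    simp at this
  · intro k
    fin_cases k
    · show (X 0 + X 1 : MvPolynomial (Fin 3) ℝ).IsHomogeneous 1
      exact (isHomogeneous_X _ _).add (isHomogeneous_X _ _)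
    · show (X 0 * X 1 + X 2 ^ 2 : MvPolynomial (Fin 3) ℝ).IsHomogeneous 2
      exact ((isHomogeneous_X _ _).mul (isHomogeneous_X _ _)).add ((isHomogeneous_X _ _).pow 2)
    · show (X 0 * X 2 ^ 2 : MvPolynomial (Fin 3) ℝ).IsHomogeneous 3
      exact (isHomogeneous_X _ _).mul ((isHomogeneous_X _ _).pow 2)
  · have hX : ∀ i : Fin 3, (X i : MvPolynomial (Fin 3) ℝ).IsHomogeneous 1 :=
      fun i => isHomogeneous_X _ _
    have hc : ∀ (r : ℝ) (i : Fin 3), (C r * X i : MvPolynomial (Fin 3) ℝ).IsHomogeneous 1 := by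
      intro r i
      simpa using (isHomogeneous_C (Fin 3) r).mul (hX i)
    have h2' : (2 * X 2 : MvPolynomial (Fin 3) ℝ).IsHomogeneous 1 := by
      have : (2 * X 2 : MvPolynomial (Fin 3) ℝ) = C (2 : ℝ) * X 2 := by
        rw [show (C (2 : ℝ) : MvPolynomial (Fin 3) ℝ) = 2 from map_ofNat C 2]
      rw [this]; exact hc _ _
    have h0 : (0 : MvPolynomial (Fin 3) ℝ).IsHomogeneous 1 := isHomogeneous_zero _ _ _
    intro i j
    fin_cases i <;> fin_cases j
    · exact (hX 0).neg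
    · exact h0
    · exact h0
    · exact h0
    · exact (hX 1).neg
    · exact h2'
    · exact h0
    · exact (hc _ 2).neg
    · exact h0
  · rw [hJ, hC]
    ext1 i j
    fin_cases i <;> fin_cases j <;>
      simp only [Matrix.mul_apply, Fin.sum_univ_three, Matrix.of_apply, Matrix.cons_val', Matrix.cons_val_zero,
        Matrix.cons_val_one, Matrix.cons_val, Fin.zero_eta, Fin.mk_one, Fin.reduceFinMk,
        Matrix.cons_val_fin_one]
    all_goals first
      | ring1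
      | linear_combination (-(X 2 ^ 2)) * h2
      | linear_combination (-(X 0 * X 2 ^ 2)) * h2
      | linear_combination ((X 2 ^ 2)) * h2
      | linear_combination ((X 0 * X 2 ^ 2)) * h2

end Pool.Agent.Helper190.NJ
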