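import Pool.Agent.Helper190.NJ.Defs

set_option autoImplicit false

/-!
Admissible collections of polynomials (linear Nijenhuis operators), `n = 3`.
-/

namespace Pool.Agent.Helper190.NJ
open MvPolynomial Matrix


theorem fb5 : Adm' ![2 * X 0 + X 1, X 0 ^ 2 + 2 * X 0 * X 1 + X 2 ^ 2,
    X 0 * (X 0 * X 1 + X 2 ^ 2)] := by
  have h2C : (2 : MvPolynomial (Fin 3) ℝ) = C 2 := (map_ofNat C 2).symm
  have hh : C (2⁻¹ : ℝ) * (2 : MvPolynomial (Fin 3) ℝ) = 1 := by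
    rw [h2C, ← C_mul]; norm_num
  have hh2 : C (1 / 2 : ℝ) * (2 : MvPolynomial (Fin 3) ℝ) = 1 := by
    rw [h2C, ← C_mul]; norm_num
  have hd2 : ∀ j : Fin 3, pderiv j (2 : MvPolynomial (Fin 3) ℝ) = 0 := fun j => by
    rw [h2C, pderiv_C]
  have hX : ∀ i : Fin 3, (X i : MvPolynomial (Fin 3) ℝ).IsHomogeneous 1 := fun i =>
    isHomogeneous_X ℝ i
  have h2X : ∀ i : Fin 3, (2 * X i : MvPolynomial (Fin 3) ℝ).IsHomogeneous 1 := fun i => by
    rw [h2C]; exact isHomogeneous_C_mul_X 2 i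
  have hJ : jac ![2 * X 0 + X 1, X 0 ^ 2 + 2 * X 0 * X 1 + X 2 ^ 2,
    X 0 * (X 0 * X 1 + X 2 ^ 2)] = (!![2, 1, 0; 2 * X 0 + 2 * X 1, 2 * X 0, 2 * X 2;
      2 * X 0 * X 1 + X 2 ^ 2, X 0 ^ 2, 2 * X 0 * X 2] :
      Matrix (Fin 3) (Fin 3) (MvPolynomial (Fin 3) ℝ)) := by
    ext1 i j
    fin_cases i <;> fin_cases j <;>
      simp [jac, pderiv_X, Derivation.leibniz, Derivation.leibniz_pow, hd2] <;>
      ring
  refine ⟨?_, ?_, !![-X 0, 0, 0; 0, -X 1, 2 * X 2;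
    -(C (1/2) * X 2), -(C (1/2) * X 2), -X 0], ?_, ?_⟩
  · intro h
    rw [hJ, Matrix.det_fin_three] at h
    have h1 := congrArg (MvPolynomial.eval ![(0:ℝ), 0, 1]) h
    simp at h1
  · intro k
    fin_cases k
    · exact (h2X 0).add (hX 1)
    · exact (((hX 0).pow 2).add ((h2X 0).mul (hX 1))).add ((hX 2).pow 2)
    · exact (hX 0).mul (((hX 0).mul (hX 1)).add ((hX 2).pow 2))
  · intro i j
    have hc : (-(C (1/2) * X 2) : MvPolynomial (Fin 3) ℝ).IsHomogeneous 1 :=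
      (isHomogeneous_C_mul_X (1/2) 2).neg
    fin_cases i <;> fin_cases j
    · exact (hX 0).neg
    · exact isHomogeneous_zero _ _ _
    · exact isHomogeneous_zero _ _ _
    · exact isHomogeneous_zero _ _ _
    · exact (hX 1).neg
    · exact h2X 2
    · exact hc
    · exact hc
    · exact (hX 0).neg
  · rw [hJ]
    ext1 i j
    fin_cases i <;> fin_cases j <;>
      simp [cmat, Matrix.mul_apply, Fin.sum_univ_three] <;>
      first
        | ring1
        | linear_combination (-(X 2 : MvPolynomial (Fin 3) ℝ) ^ 2) * hh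
        | linear_combination (-(X 0 * X 2 ^ 2 : MvPolynomial (Fin 3) ℝ)) * hh
        | linear_combination (-(X 2 : MvPolynomial (Fin 3) ℝ) ^ 2) * hh2
        | linear_combination (-(X 0 * X 2 ^ 2 : MvPolynomial (Fin 3) ℝ)) * hh2

end Pool.Agent.Helper190.NJ
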