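import Pool.Agent.Helper190.NJ.Defs

set_option autoImplicit false

/-!
Admissible collections of polynomials (linear Nijenhuis operators), `n = 3`.
-/

namespace Pool.Agent.Helper190.NJ
open MvPolynomial Matrix

theorem fb6_h1 (r : ℝ) (i : Fin 3) : (C r * X i : MvPolynomial (Fin 3) ℝ).IsHomogeneous 1 := by
  simpa using (isHomogeneous_C (Fin 3) r).mul (isHomogeneous_X ℝ i)

theorem fb6 : Adm' ![2 * X 0 + X 1, X 0 ^ 2 + 2 * X 0 * X 1 - X 2 ^ 2,
    X 0 * (X 0 * X 1 - X 2 ^ 2)] := by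
  have h2 : (2 : MvPolynomial (Fin 3) ℝ) = C 2 := (map_ofNat C 2).symm
  have hX : ∀ i : Fin 3, (X i : MvPolynomial (Fin 3) ℝ).IsHomogeneous 1 := fun i =>
    isHomogeneous_X ℝ i
  have hsub : ∀ (p q : MvPolynomial (Fin 3) ℝ) (m : ℕ), p.IsHomogeneous m → q.IsHomogeneous m →
      (p - q).IsHomogeneous m := fun p q m hp hq => hp.sub hq
  refine ⟨?_, ?_, !![-X 0, 0, 0; 0, -X 1, -(C 2 * X 2); -(C (1/2) * X 2), -(C (1/2) * X 2), -X 0],
    ?_, ?_⟩
  · intro h
    have h3 := congrArg (MvPolynomial.eval ![(1 : ℝ), 0, 1]) h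
    rw [Matrix.det_fin_three] at h3
    simp [jac, pderiv_X, Pi.single_apply, h2, Derivation.leibniz] at h3
    norm_num at h3
  · intro k
    fin_cases k
    · show (2 * X 0 + X 1 : MvPolynomial (Fin 3) ℝ).IsHomogeneous 1
      rw [h2]
      exact (fb6_h1 2 0).add (hX 1)
    · show (X 0 ^ 2 + 2 * X 0 * X 1 - X 2 ^ 2 : MvPolynomial (Fin 3) ℝ).IsHomogeneous 2
      rw [h2]
      apply hsub
      · apply IsHomogeneous.add
        · simpa using (hX 0).pow 2
        · simpa using (fb6_h1 2 0).mul (hX 1)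
      · simpa using (hX 2).pow 2
    · show (X 0 * (X 0 * X 1 - X 2 ^ 2) : MvPolynomial (Fin 3) ℝ).IsHomogeneous 3
      have h4 : (X 0 * X 1 - X 2 ^ 2 : MvPolynomial (Fin 3) ℝ).IsHomogeneous 2 := by
        apply hsub
        · simpa using (hX 0).mul (hX 1)
        · simpa using (hX 2).pow 2
      have h5 := (hX 0).mul h4
      exact h5
  · intro i j
    fin_cases i <;> fin_cases j <;> simp only [Matrix.of_apply, Matrix.cons_val', Matrix.cons_val_zero,
      Matrix.cons_val_one, Matrix.cons_val, Fin.zero_eta, Fin.mk_one, Fin.reduceFinMk,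
      Matrix.cons_val_fin_one]
    · exact (hX 0).neg
    · exact isHomogeneous_zero _ _ _
    · exact isHomogeneous_zero _ _ _
    · exact isHomogeneous_zero _ _ _
    · exact (hX 1).neg
    · exact (fb6_h1 2 2).neg
    · exact (fb6_h1 (1/2) 2).neg
    · exact (fb6_h1 (1/2) 2).neg
    · exact (hX 0).neg
  · have hC : (C 2⁻¹ : MvPolynomial (Fin 3) ℝ) * 2 = 1 := by
      rw [h2, ← C_mul]; norm_num
    have hp2 : ∀ j : Fin 3, pderiv j (2 : MvPolynomial (Fin 3) ℝ) = 0 := by
      intro j; rw [h2]; exact pderiv_C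
    ext1 i j
    fin_cases i <;> fin_cases j <;>
      simp [jac, cmat, Matrix.mul_apply, Fin.sum_univ_three, pderiv_X, Pi.single_apply,
        Derivation.leibniz, ← h2, hp2]
    all_goals first
      | ring1
      | linear_combination (X 2 * X 2) * hC
      | linear_combination (X 0 * X 2 * X 2) * hC

end Pool.Agent.Helper190.NJ
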