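import Pool.Agent.Helper190.NJ.Defs

set_option autoImplicit false

/-!
Admissible collections of polynomials (linear Nijenhuis operators), `n = 3`.
-/

namespace Pool.Agent.Helper190.NJ
open MvPolynomial Matrix


theorem fb7_jac : jac (![X 0, X 1 * X 2, X 1 ^ 3] : Fin 3 → MvPolynomial (Fin 3) ℝ) =
    !![1, 0, 0; 0, X 2, X 1; 0, 3 * X 1 ^ 2, 0] := by
  ext1 i j
  fin_cases i <;> fin_cases j <;>
    simp [jac, pderiv_X, Pi.single_apply, Derivation.leibniz, Derivation.leibniz_pow, smul_eq_mul]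

theorem fb7_cmat : cmat (![X 0, X 1 * X 2, X 1 ^ 3] : Fin 3 → MvPolynomial (Fin 3) ℝ) =
    !![-X 0, 1, 0; -(X 1 * X 2), 0, 1; -(X 1 ^ 3), 0, 0] := by
  ext1 i j
  fin_cases i <;> fin_cases j <;> simp [cmat]

theorem fb7 : Adm' ![X 0, X 1 * X 2, X 1 ^ 3] := by
  refine ⟨?_, ?_, !![-X 0, X 2, X 1; C (-(1/3)) * X 1, 0, 0; C (-(2/3)) * X 2, C 3 * X 1, 0],
    ?_, ?_⟩
  · rw [fb7_jac, Matrix.det_fin_three]
    intro h
    have h2 := congrArg (MvPolynomial.eval (fun _ : Fin 3 => (1 : ℝ))) h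
    simp at h2
  · intro k
    fin_cases k
    · simpa using isHomogeneous_X ℝ (0 : Fin 3)
    · simpa using (isHomogeneous_X ℝ (1 : Fin 3)).mul (isHomogeneous_X ℝ (2 : Fin 3))
    · simpa using (isHomogeneous_X ℝ (1 : Fin 3)).pow 3
  · intro i j
    have hC : ∀ (r : ℝ) (i : Fin 3), (C r * X i : MvPolynomial (Fin 3) ℝ).IsHomogeneous 1 := by
      intro r i
      simpa using (isHomogeneous_C (Fin 3) r).mul (isHomogeneous_X ℝ i)
    have h0 : (0 : MvPolynomial (Fin 3) ℝ).IsHomogeneous 1 := isHomogeneous_zero _ _ _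
    have hn : (-X 0 : MvPolynomial (Fin 3) ℝ).IsHomogeneous 1 := by
      have := hC (-1) 0
      simpa using this
    fin_cases i <;> fin_cases j
    · exact hn
    · exact isHomogeneous_X ℝ (2 : Fin 3)
    · exact isHomogeneous_X ℝ (1 : Fin 3)
    · exact hC _ 1
    · exact h0
    · exact h0
    · exact hC _ 2
    · exact hC _ 1
    · exact h0
  · rw [fb7_jac, fb7_cmat]
    have e1 : (C (-(1/3) : ℝ) : MvPolynomial (Fin 3) ℝ) + C (-(2/3) : ℝ) = -1 := by
      rw [← C_add, show (-(1/3) : ℝ) + (-(2/3)) = -1 by norm_num, C_neg, C_1]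
    have e2 : (3 : MvPolynomial (Fin 3) ℝ) * C (-(1/3) : ℝ) = -1 := by
      rw [show (3 : MvPolynomial (Fin 3) ℝ) = C 3 from (map_ofNat C 3).symm, ← C_mul,
        show (3 : ℝ) * (-(1/3)) = -1 by norm_num, C_neg, C_1]
    have e3 : (C 3 : MvPolynomial (Fin 3) ℝ) = 3 := map_ofNat C 3
    generalize (C (-(1/3) : ℝ) : MvPolynomial (Fin 3) ℝ) = a at *
    generalize (C (-(2/3) : ℝ) : MvPolynomial (Fin 3) ℝ) = b at *
    generalize (C (3 : ℝ) : MvPolynomial (Fin 3) ℝ) = c at *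
    subst e3
    ext1 i j
    fin_cases i <;> fin_cases j <;> simp [Matrix.mul_apply, Fin.sum_univ_three]
    all_goals first
      | linear_combination X 1 * X 2 * e1
      | linear_combination X 1 ^ 3 * e2
      | ring

end Pool.Agent.Helper190.NJ
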