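import Pool.Agent.Helper190.NJ.Defs

set_option autoImplicit false

/-!
Admissible collections of polynomials (linear Nijenhuis operators), `n = 3`.
-/

namespace Pool.Agent.Helper190.NJ
open MvPolynomial Matrix


theorem fb8_pd (i j : Fin 3) : pderiv i (X j : MvPolynomial (Fin 3) ℝ) = if i = j then 1 else 0 := by
  rw [pderiv_X]
  by_cases h : i = j
  · subst h; simp
  · rw [if_neg h, Pi.single_eq_of_ne (fun e => h e.symm)]

theorem fb8_jac : jac ![(X 0 + X 1 : MvPolynomial (Fin 3) ℝ), X 0 * X 1 + X 0 * X 2, X 0 ^ 2 * X 2] =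
    !![1, 1, 0; X 1 + X 2, X 0, X 0; 2 * X 0 * X 2, 0, X 0 ^ 2] := by
  ext1 i j
  fin_cases i <;> fin_cases j <;>
    simp [jac, fb8_pd, Derivation.leibniz, Derivation.leibniz_pow, smul_eq_mul] <;> ring

theorem fb8_c : cmat ![(X 0 + X 1 : MvPolynomial (Fin 3) ℝ), X 0 * X 1 + X 0 * X 2, X 0 ^ 2 * X 2] =
    !![-(X 0 + X 1), 1, 0; -(X 0 * X 1 + X 0 * X 2), 0, 1; -(X 0 ^ 2 * X 2), 0, 0] := by
  ext1 i j
  fin_cases i <;> fin_cases j <;> simp [cmat]

theorem fb8 : Adm' ![X 0 + X 1, X 0 * X 1 + X 0 * X 2, X 0 ^ 2 * X 2] := by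
  refine ⟨?_, ?_, !![-X 0, 0, 0; X 2, -X 1, X 0; X 2, -X 2, 0], ?_, ?_⟩
  · rw [fb8_jac, Matrix.det_fin_three]
    intro h
    have h2 := congrArg (MvPolynomial.eval (![1, 0, 0] : Fin 3 → ℝ)) h
    simp at h2
  · intro k
    match k with
    | 0 => exact (isHomogeneous_X ℝ 0).add (isHomogeneous_X ℝ 1)
    | 1 =>
      have h := ((isHomogeneous_X ℝ (0 : Fin 3)).mul (isHomogeneous_X ℝ (1 : Fin 3))).add
        ((isHomogeneous_X ℝ (0 : Fin 3)).mul (isHomogeneous_X ℝ (2 : Fin 3)))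
      exact h
    | 2 =>
      have h := ((isHomogeneous_X ℝ (0 : Fin 3)).pow 2).mul (isHomogeneous_X ℝ (2 : Fin 3))
      exact h
  · intro i j
    have hX : ∀ l : Fin 3, (X l : MvPolynomial (Fin 3) ℝ).IsHomogeneous 1 := fun l => isHomogeneous_X ℝ l
    have h0 : (0 : MvPolynomial (Fin 3) ℝ).IsHomogeneous 1 := isHomogeneous_zero _ _ _
    have hn : ∀ l : Fin 3, (-X l : MvPolynomial (Fin 3) ℝ).IsHomogeneous 1 := fun l => (hX l).neg
    match i, j with
    | 0, 0 => exact hn 0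
    | 0, 1 => exact h0
    | 0, 2 => exact h0
    | 1, 0 => exact hX 2
    | 1, 1 => exact hn 1
    | 1, 2 => exact hX 0
    | 2, 0 => exact hX 2
    | 2, 1 => exact hn 2
    | 2, 2 => exact h0
  · rw [fb8_jac, fb8_c]
    ext1 i j
    fin_cases i <;> fin_cases j <;>
      simp [Matrix.mul_apply, Fin.sum_univ_three] <;> ring

end Pool.Agent.Helper190.NJ
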