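import Pool.Agent.Helper190.NJ.Defs

set_option autoImplicit false

/-!
Admissible collections of polynomials (linear Nijenhuis operators), `n = 3`.
-/

namespace Pool.Agent.Helper190.NJ
open MvPolynomial Matrix


theorem sub_comp (P Q : Matrix (Fin 3) (Fin 3) ℝ) (f : MvPolynomial (Fin 3) ℝ) :
    sub3 P (sub3 Q f) = sub3 (Q * P) f := by
  have h : (sub3 P).comp (sub3 Q) = sub3 (Q * P) := by
    refine MvPolynomial.algHom_ext (fun i => ?_)
    have h1 : ∀ (A : Matrix (Fin 3) (Fin 3) ℝ) (j : Fin 3), sub3 A (X j) = lf A j := by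
      intro A j
      unfold sub3
      rw [MvPolynomial.aeval_X]
    have h2 : ∀ (A : Matrix (Fin 3) (Fin 3) ℝ) (r : ℝ), sub3 A (C r) = C r := by
      intro A r
      unfold sub3
      rw [MvPolynomial.aeval_C]
      rfl
    rw [AlgHom.comp_apply, h1, h1]
    unfold lf
    rw [Fin.sum_univ_three, map_add, map_add, map_mul, map_mul, map_mul, h1, h1, h1, h2, h2, h2]
    unfold lf
    simp only [Fin.sum_univ_three, Matrix.mul_apply, map_add, map_mul]
    ring
  rw [← h, AlgHom.comp_apply]

end Pool.Agent.Helper190.NJ
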