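import Pool.Agent.Helper190.NJ.Defs

set_option autoImplicit false

/-!
Admissible collections of polynomials (linear Nijenhuis operators), `n = 3`.
-/

namespace Pool.Agent.Helper190.NJ
open MvPolynomial Matrix


theorem sub_lf (P A : Matrix (Fin 3) (Fin 3) ℝ) (i : Fin 3) :
    sub3 P (lf A i) = lf (A * P) i := by
  simp only [sub3, lf, Matrix.mul_apply, Fin.sum_univ_three, map_add, map_mul, aeval_X,
    MvPolynomial.algHom_C, MvPolynomial.algebraMap_eq]
  ring

end Pool.Agent.Helper190.NJ
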