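import Pool.Agent.Helper190.NJ.Defs

set_option autoImplicit false

/-!
Admissible collections of polynomials (linear Nijenhuis operators), `n = 3`.
-/

namespace Pool.Agent.Helper190.NJ
open MvPolynomial Matrix


theorem sub_one (f : MvPolynomial (Fin 3) ℝ) : sub3 1 f = f := by
  have h : sub3 1 = AlgHom.id ℝ (MvPolynomial (Fin 3) ℝ) := by
    apply MvPolynomial.algHom_ext
    intro i
    simp only [sub3, aeval_X, lf, AlgHom.id_apply]
    rw [Finset.sum_eq_single i]
    · rw [Matrix.one_apply_eq, C_1, one_mul]
    · intro j _ hj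
      rw [Matrix.one_apply_ne hj.symm, C_0, zero_mul]
    · intro h
      exact absurd (Finset.mem_univ i) h
  rw [h]
  rfl

end Pool.Agent.Helper190.NJ
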