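import Pool.Agent.Helper190.NJ.Defs
import Pool.Agent.Helper190.NJ.P_sub_comp
import Pool.Agent.Helper190.NJ.P_sub_one
import Pool.Agent.Helper190.NJ.P_sub_lf
import Pool.Agent.Helper190.NJ.P_ext_lin

set_option autoImplicit false

/-!
Admissible collections of polynomials (linear Nijenhuis operators), `n = 3`.
-/

namespace Pool.Agent.Helper190.NJ
open MvPolynomial Matrix


theorem nf0_mat (l : Fin 3 → ℝ) (hl : l 0 ≠ 0 ∨ l 1 ≠ 0 ∨ l 2 ≠ 0) :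
    ∃ B : Matrix (Fin 3) (Fin 3) ℝ, B.det ≠ 0 ∧ B 0 0 = l 0 ∧ B 0 1 = l 1 ∧ B 0 2 = l 2 := by
  rcases hl with h | h | h
  · refine ⟨!![l 0, l 1, l 2; 0, 1, 0; 0, 0, 1], ?_, rfl, rfl, rfl⟩
    rw [Matrix.det_fin_three]
    simpa using h
  · refine ⟨!![l 0, l 1, l 2; 1, 0, 0; 0, 0, 1], ?_, rfl, rfl, rfl⟩
    rw [Matrix.det_fin_three]
    simpa using h
  · refine ⟨!![l 0, l 1, l 2; 0, 1, 0; 1, 0, 0], ?_, rfl, rfl, rfl⟩
    rw [Matrix.det_fin_three]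
    simpa using h

theorem nf0 (s : Fin 3 → MvPolynomial (Fin 3) ℝ) (h : Adm' s) :
    ∃ P : Matrix (Fin 3) (Fin 3) ℝ, P.det ≠ 0 ∧ sub3 P (s 0) = X 0 := by
  obtain ⟨hdet, hhom, _⟩ := h
  have h0 : (s 0).IsHomogeneous 1 := by simpa using hhom 0
  obtain ⟨l, hl⟩ := ext_lin (s 0) h0
  have hlne : l 0 ≠ 0 ∨ l 1 ≠ 0 ∨ l 2 ≠ 0 := by
    by_contra hc
    push Not at hc
    obtain ⟨h1, h2, h3⟩ := hc
    apply hdet
    apply Matrix.det_eq_zero_of_row_eq_zero 0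
    intro j
    have hs0 : s 0 = 0 := by rw [hl, h1, h2, h3]; simp
    simp [jac, hs0]
  obtain ⟨B, hB, b0, b1, b2⟩ := nf0_mat l hlne
  have hu : IsUnit B.det := isUnit_iff_ne_zero.2 hB
  refine ⟨B⁻¹, (Matrix.isUnit_nonsing_inv_det B hu).ne_zero, ?_⟩
  have hs : s 0 = lf B 0 := by
    rw [hl, lf, Fin.sum_univ_three, b0, b1, b2]
  rw [hs, sub_lf, Matrix.mul_nonsing_inv B hu, lf, Fin.sum_univ_three]
  simp [Matrix.one_apply]

end Pool.Agent.Helper190.NJ
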