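import Pool.Agent.Helper190.NJ.Defs

set_option autoImplicit false

/-!
Admissible collections of polynomials (linear Nijenhuis operators), `n = 3`.
-/

namespace Pool.Agent.Helper190.NJ
open MvPolynomial Matrix


theorem sub_quad (q : Fin 6 → ℝ) (e f p r s t : ℝ) :
    sub3 !![1, 0, 0; e, p, r; f, s, t] (quadP q) =
      quadP ![q 0 + q 1 * e + q 2 * f + q 3 * e ^ 2 + q 4 * (e * f) + q 5 * f ^ 2,
        q 1 * p + q 2 * s + 2 * q 3 * (e * p) + q 4 * (e * s + f * p) + 2 * q 5 * (f * s),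
        q 1 * r + q 2 * t + 2 * q 3 * (e * r) + q 4 * (e * t + f * r) + 2 * q 5 * (f * t),
        q 3 * p ^ 2 + q 4 * (p * s) + q 5 * s ^ 2,
        2 * q 3 * (p * r) + q 4 * (p * t + r * s) + 2 * q 5 * (s * t),
        q 3 * r ^ 2 + q 4 * (r * t) + q 5 * t ^ 2] := by
  simp only [quadP, sub3, lf, Fin.sum_univ_three, map_add, map_mul, map_pow, aeval_X, aeval_C,
    MvPolynomial.algebraMap_eq]
  simp [Matrix.cons_val_zero, Matrix.cons_val_one, C_add, C_mul, C_pow, map_ofNat]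
  ring

end Pool.Agent.Helper190.NJ
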