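import Pool.Agent.Helper190.NJ.Defs
import Pool.Agent.Helper190.NJ.P_sub_comp
import Pool.Agent.Helper190.NJ.P_bin
import Pool.Agent.Helper190.NJ.P_sub_quad

set_option autoImplicit false

/-!
Admissible collections of polynomials (linear Nijenhuis operators), `n = 3`.
-/

namespace Pool.Agent.Helper190.NJ
open MvPolynomial Matrix


theorem nf1_two (q : Fin 6 → ℝ) (e f p r s t : ℝ) :
    sub3 (!![1, 0, 0; 0, p, r; 0, s, t] * !![1, 0, 0; e, 1, 0; f, 0, 1]) (quadP q) =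
      quadP ![q 0 + (q 1 * p + q 2 * s) * e + (q 1 * r + q 2 * t) * f +
          (q 3 * p ^ 2 + q 4 * (p * s) + q 5 * s ^ 2) * e ^ 2 +
          (2 * q 3 * (p * r) + q 4 * (p * t + r * s) + 2 * q 5 * (s * t)) * (e * f) +
          (q 3 * r ^ 2 + q 4 * (r * t) + q 5 * t ^ 2) * f ^ 2,
        (q 1 * p + q 2 * s) + 2 * (q 3 * p ^ 2 + q 4 * (p * s) + q 5 * s ^ 2) * e +
          (2 * q 3 * (p * r) + q 4 * (p * t + r * s) + 2 * q 5 * (s * t)) * f,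
        (q 1 * r + q 2 * t) + (2 * q 3 * (p * r) + q 4 * (p * t + r * s) + 2 * q 5 * (s * t)) * e +
          2 * (q 3 * r ^ 2 + q 4 * (r * t) + q 5 * t ^ 2) * f,
        q 3 * p ^ 2 + q 4 * (p * s) + q 5 * s ^ 2,
        2 * q 3 * (p * r) + q 4 * (p * t + r * s) + 2 * q 5 * (s * t),
        q 3 * r ^ 2 + q 4 * (r * t) + q 5 * t ^ 2] := by
  rw [← sub_comp, sub_quad, sub_quad]
  congr 1
  ext i
  fin_cases i <;> simp <;> ring

theorem nf1_fix (P : Matrix (Fin 3) (Fin 3) ℝ) (h0 : P 0 0 = 1) (h1 : P 0 1 = 0) (h2 : P 0 2 = 0) :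
    sub3 P (X 0) = X 0 := by
  unfold sub3
  rw [aeval_X]
  unfold lf
  rw [Fin.sum_univ_three, h0, h1, h2]
  simp

theorem nf1_P (e f p r s t : ℝ) (hd : p * t - r * s ≠ 0) :
    ((!![1, 0, 0; 0, p, r; 0, s, t] * !![1, 0, 0; e, 1, 0; f, 0, 1] : Matrix (Fin 3) (Fin 3) ℝ)).det ≠ 0 ∧
    sub3 (!![1, 0, 0; 0, p, r; 0, s, t] * !![1, 0, 0; e, 1, 0; f, 0, 1]) (X 0) = X 0 := by
  constructor
  · rw [det_mul, det_fin_three, det_fin_three]
    simp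
    intro h
    exact hd (by linarith)
  · rw [← sub_comp, nf1_fix !![1, 0, 0; 0, p, r; 0, s, t] (by simp) (by simp) (by simp),
      nf1_fix !![1, 0, 0; e, 1, 0; f, 0, 1] (by simp) (by simp) (by simp)]

theorem nf1 (q : Fin 6 → ℝ) (hq : ¬ (q 1 = 0 ∧ q 2 = 0 ∧ q 3 = 0 ∧ q 4 = 0 ∧ q 5 = 0)) :
    ∃ P : Matrix (Fin 3) (Fin 3) ℝ, P.det ≠ 0 ∧ sub3 P (X 0) = X 0 ∧
      ((∃ a c : ℝ, (c = 1 ∨ c = -1) ∧ sub3 P (quadP q) = quadP ![a, 0, 0, c / 2, 0, c / 2]) ∨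
        (∃ a : ℝ, sub3 P (quadP q) = quadP ![a, 0, 0, 0, 1, 0]) ∨
        (∃ a b c : ℝ, c ≠ 0 ∧ sub3 P (quadP q) = quadP ![a, 0, b, c, 0, 0]) ∨
        (∃ a b : ℝ, b ≠ 0 ∧ sub3 P (quadP q) = quadP ![a, b, 0, 0, 0, 0])) := by
  obtain ⟨p, r, s, t, hd, h⟩ := bin (q 3) (q 4) (q 5)
  rcases h with ⟨c, hc, h1, h2, h3⟩ | ⟨h1, h2, h3⟩ | ⟨c, hc, h1, h2, h3⟩ | ⟨h3, h4, h5⟩
  · have hY : q 3 * p ^ 2 + q 4 * (p * s) + q 5 * s ^ 2 = c / 2 := by rw [← h1]; ring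
    have hM : 2 * q 3 * (p * r) + q 4 * (p * t + r * s) + 2 * q 5 * (s * t) = 0 := by
      rw [← h2]; ring
    have hZ : q 3 * r ^ 2 + q 4 * (r * t) + q 5 * t ^ 2 = c / 2 := by rw [← h3]; ring
    have hcc : c * c = 1 := by rcases hc with rfl | rfl <;> norm_num
    have key := nf1_two q (-c * (q 1 * p + q 2 * s)) (-c * (q 1 * r + q 2 * t)) p r s t
    rw [hY, hM, hZ] at key
    have e1 : (q 1 * p + q 2 * s) + 2 * (c / 2) * (-c * (q 1 * p + q 2 * s)) +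
        0 * (-c * (q 1 * r + q 2 * t)) = 0 := by
      linear_combination (-(q 1 * p + q 2 * s)) * hcc
    have e2 : (q 1 * r + q 2 * t) + 0 * (-c * (q 1 * p + q 2 * s)) +
        2 * (c / 2) * (-c * (q 1 * r + q 2 * t)) = 0 := by
      linear_combination (-(q 1 * r + q 2 * t)) * hcc
    rw [e1, e2] at key
    exact ⟨_, (nf1_P _ _ p r s t hd).1, (nf1_P _ _ p r s t hd).2, Or.inl ⟨_, c, hc, key⟩⟩
  · have hY : q 3 * p ^ 2 + q 4 * (p * s) + q 5 * s ^ 2 = 0 := by rw [← h1]; ring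
    have hM : 2 * q 3 * (p * r) + q 4 * (p * t + r * s) + 2 * q 5 * (s * t) = 1 := by
      rw [← h2]; ring
    have hZ : q 3 * r ^ 2 + q 4 * (r * t) + q 5 * t ^ 2 = 0 := by rw [← h3]; ring
    have key := nf1_two q (-(q 1 * r + q 2 * t)) (-(q 1 * p + q 2 * s)) p r s t
    rw [hY, hM, hZ] at key
    have e1 : (q 1 * p + q 2 * s) + 2 * 0 * (-(q 1 * r + q 2 * t)) +
        1 * (-(q 1 * p + q 2 * s)) = 0 := by ring
    have e2 : (q 1 * r + q 2 * t) + 1 * (-(q 1 * r + q 2 * t)) +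
        2 * 0 * (-(q 1 * p + q 2 * s)) = 0 := by ring
    rw [e1, e2] at key
    exact ⟨_, (nf1_P _ _ p r s t hd).1, (nf1_P _ _ p r s t hd).2, Or.inr (Or.inl ⟨_, key⟩)⟩
  · have hY : q 3 * p ^ 2 + q 4 * (p * s) + q 5 * s ^ 2 = c := by rw [← h1]; ring
    have hM : 2 * q 3 * (p * r) + q 4 * (p * t + r * s) + 2 * q 5 * (s * t) = 0 := by
      rw [← h2]; ring
    have hZ : q 3 * r ^ 2 + q 4 * (r * t) + q 5 * t ^ 2 = 0 := by rw [← h3]; ring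
    have key := nf1_two q (-(q 1 * p + q 2 * s) / (2 * c)) 0 p r s t
    rw [hY, hM, hZ] at key
    have e1 : (q 1 * p + q 2 * s) + 2 * c * (-(q 1 * p + q 2 * s) / (2 * c)) + 0 * 0 = 0 := by
      field_simp
      ring
    rw [e1] at key
    exact ⟨_, (nf1_P _ _ p r s t hd).1, (nf1_P _ _ p r s t hd).2,
      Or.inr (Or.inr (Or.inl ⟨_, _, c, hc, key⟩))⟩
  · by_cases hq1 : q 1 = 0
    · have hq2 : q 2 ≠ 0 := by
        intro hq2
        exact hq ⟨hq1, hq2, h3, h4, h5⟩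
      have key := nf1_two q 0 0 0 1 1 0
      rw [h3, h4, h5, hq1] at key
      refine ⟨_, (nf1_P 0 0 0 1 1 0 (by norm_num)).1, (nf1_P 0 0 0 1 1 0 (by norm_num)).2,
        Or.inr (Or.inr (Or.inr ⟨q 0, q 2, hq2, ?_⟩))⟩
      rw [key]
      congr 1
      ext i
      fin_cases i <;> simp
    · have key := nf1_two q 0 0 1 (-(q 2) / q 1) 0 1
      rw [h3, h4, h5] at key
      refine ⟨_, (nf1_P 0 0 1 (-(q 2) / q 1) 0 1 (by norm_num)).1,
        (nf1_P 0 0 1 (-(q 2) / q 1) 0 1 (by norm_num)).2,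
        Or.inr (Or.inr (Or.inr ⟨q 0, q 1, hq1, ?_⟩))⟩
      rw [key]
      congr 1
      ext i
      fin_cases i <;> simp <;> field_simp <;> ring

end Pool.Agent.Helper190.NJ
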