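import Pool.Agent.Helper190.NJ.Defs

set_option autoImplicit false

/-!
Admissible collections of polynomials (linear Nijenhuis operators), `n = 3`.
-/

namespace Pool.Agent.Helper190.NJ
open MvPolynomial Matrix


theorem rotz (k6 k7 k8 k9 : ℝ) : ∃ co si : ℝ, co ^ 2 + si ^ 2 = 1 ∧
    k6 * co ^ 3 + k7 * (co ^ 2 * si) + k8 * (co * si ^ 2) + k9 * si ^ 3 = 0 := by
  obtain ⟨f, hf⟩ : ∃ f : ℝ → ℝ, f = fun θ => k6 * Real.cos θ ^ 3 +
      k7 * (Real.cos θ ^ 2 * Real.sin θ) + k8 * (Real.cos θ * Real.sin θ ^ 2) +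
      k9 * Real.sin θ ^ 3 := ⟨_, rfl⟩
  have hcont : Continuous f := by
    rw [hf]
    fun_prop
  have h0 : f 0 = k6 := by rw [hf]; simp
  have hpi : f Real.pi = -k6 := by rw [hf]; simp; ring
  have hmem : (0 : ℝ) ∈ Set.uIcc (f 0) (f Real.pi) := by
    rw [h0, hpi, Set.mem_uIcc]
    rcases le_total 0 k6 with h | h
    · right; constructor <;> linarith
    · left; constructor <;> linarith
  obtain ⟨θ, -, hθ⟩ := intermediate_value_uIcc (hcont.continuousOn) hmem
  refine ⟨Real.cos θ, Real.sin θ, Real.cos_sq_add_sin_sq θ, ?_⟩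
  rw [hf] at hθ
  exact hθ

end Pool.Agent.Helper190.NJ
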