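import Pool.Agent.Helper190.NJ.Defs
import Pool.Agent.Helper190.NJ.P_rotz

set_option autoImplicit false

/-!
Admissible collections of polynomials (linear Nijenhuis operators), `n = 3`.
-/

namespace Pool.Agent.Helper190.NJ
open MvPolynomial Matrix


theorem nfrot_C (P : Matrix (Fin 3) (Fin 3) ℝ) (r : ℝ) : sub3 P (C r) = C r :=
  (sub3 P).commutes r

theorem nfrot_X (P : Matrix (Fin 3) (Fin 3) ℝ) (i : Fin 3) :
    sub3 P (X i) = C (P i 0) * X 0 + C (P i 1) * X 1 + C (P i 2) * X 2 := by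
  unfold sub3 lf
  rw [aeval_X, Fin.sum_univ_three]

theorem nfrot (a c : ℝ) (k : Fin 10 → ℝ) :
    ∃ P : Matrix (Fin 3) (Fin 3) ℝ, P.det ≠ 0 ∧ sub3 P (X 0) = X 0 ∧
      sub3 P (quadP ![a, 0, 0, c / 2, 0, c / 2]) = quadP ![a, 0, 0, c / 2, 0, c / 2] ∧
      ∃ k' : Fin 10 → ℝ, sub3 P (cubP k) = cubP k' ∧ k' 6 = 0 := by
  obtain ⟨co, si, h1, h2⟩ := rotz (k 6) (k 7) (k 8) (k 9)
  have hC : (C co : MvPolynomial (Fin 3) ℝ) ^ 2 + C si ^ 2 = 1 := by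
    rw [← C_pow, ← C_pow, ← C_add, h1, C_1]
  have hX0 : sub3 !![1, 0, 0; 0, co, -si; 0, si, co] (X 0) = X 0 := by
    rw [nfrot_X]
    simp
  have hX1 : sub3 !![1, 0, 0; 0, co, -si; 0, si, co] (X 1) = C co * X 1 - C si * X 2 := by
    rw [nfrot_X]
    simp
    ring
  have hX2 : sub3 !![1, 0, 0; 0, co, -si; 0, si, co] (X 2) = C si * X 1 + C co * X 2 := by
    rw [nfrot_X]
    simp
  refine ⟨!![1, 0, 0; 0, co, -si; 0, si, co], ?_, hX0, ?_,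
    ![k 0, k 1 * co + k 2 * si, -(k 1 * si) + k 2 * co,
      k 3 * co ^ 2 + k 4 * (co * si) + k 5 * si ^ 2,
      -(2 * k 3 * (co * si)) + k 4 * (co ^ 2 - si ^ 2) + 2 * k 5 * (co * si),
      k 3 * si ^ 2 - k 4 * (co * si) + k 5 * co ^ 2,
      k 6 * co ^ 3 + k 7 * (co ^ 2 * si) + k 8 * (co * si ^ 2) + k 9 * si ^ 3,
      -(3 * k 6 * (co ^ 2 * si)) + k 7 * (co ^ 3 - 2 * (co * si ^ 2)) +
        k 8 * (2 * (co ^ 2 * si) - si ^ 3) + 3 * k 9 * (si ^ 2 * co),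
      3 * k 6 * (co * si ^ 2) + k 7 * (si ^ 3 - 2 * (co ^ 2 * si)) +
        k 8 * (co ^ 3 - 2 * (co * si ^ 2)) + 3 * k 9 * (si * co ^ 2),
      -(k 6 * si ^ 3) + k 7 * (co * si ^ 2) - k 8 * (co ^ 2 * si) + k 9 * co ^ 3], ?_, h2⟩
  · rw [Matrix.det_fin_three]
    simp
    have h3 : co * co + si * si = 1 := by linarith [h1]
    rw [h3]
    exact one_ne_zero
  · unfold quadP
    simp only [map_add, map_mul, map_pow, nfrot_C, hX0, hX1, hX2]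
    have e0 : (![a, 0, 0, c / 2, 0, c / 2] : Fin 6 → ℝ) 0 = a := rfl
    have e1 : (![a, 0, 0, c / 2, 0, c / 2] : Fin 6 → ℝ) 1 = 0 := rfl
    have e2 : (![a, 0, 0, c / 2, 0, c / 2] : Fin 6 → ℝ) 2 = 0 := rfl
    have e3 : (![a, 0, 0, c / 2, 0, c / 2] : Fin 6 → ℝ) 3 = c / 2 := rfl
    have e4 : (![a, 0, 0, c / 2, 0, c / 2] : Fin 6 → ℝ) 4 = 0 := rfl
    have e5 : (![a, 0, 0, c / 2, 0, c / 2] : Fin 6 → ℝ) 5 = c / 2 := rfl
    simp only [e0, e1, e2, e3, e4, e5, C_0]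
    linear_combination (C (c / 2) * (X 1 ^ 2 + X 2 ^ 2)) * hC
  · unfold cubP
    simp only [map_add, map_mul, map_pow, nfrot_C, hX0, hX1, hX2]
    show _ = C (k 0) * X 0 ^ 3 + C (k 1 * co + k 2 * si) * (X 0 ^ 2 * X 1) +
      C (-(k 1 * si) + k 2 * co) * (X 0 ^ 2 * X 2) +
      C (k 3 * co ^ 2 + k 4 * (co * si) + k 5 * si ^ 2) * (X 0 * X 1 ^ 2) +
      C (-(2 * k 3 * (co * si)) + k 4 * (co ^ 2 - si ^ 2) + 2 * k 5 * (co * si)) *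
        (X 0 * X 1 * X 2) +
      C (k 3 * si ^ 2 - k 4 * (co * si) + k 5 * co ^ 2) * (X 0 * X 2 ^ 2) +
      C (k 6 * co ^ 3 + k 7 * (co ^ 2 * si) + k 8 * (co * si ^ 2) + k 9 * si ^ 3) * X 1 ^ 3 +
      C (-(3 * k 6 * (co ^ 2 * si)) + k 7 * (co ^ 3 - 2 * (co * si ^ 2)) +
        k 8 * (2 * (co ^ 2 * si) - si ^ 3) + 3 * k 9 * (si ^ 2 * co)) * (X 1 ^ 2 * X 2) +
      C (3 * k 6 * (co * si ^ 2) + k 7 * (si ^ 3 - 2 * (co ^ 2 * si)) +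
        k 8 * (co ^ 3 - 2 * (co * si ^ 2)) + 3 * k 9 * (si * co ^ 2)) * (X 1 * X 2 ^ 2) +
      C (-(k 6 * si ^ 3) + k 7 * (co * si ^ 2) - k 8 * (co ^ 2 * si) + k 9 * co ^ 3) * X 2 ^ 3
    have t2 : (C (2 : ℝ) : MvPolynomial (Fin 3) ℝ) = 2 := map_ofNat C 2
    have t3 : (C (3 : ℝ) : MvPolynomial (Fin 3) ℝ) = 3 := map_ofNat C 3
    simp only [C_add, C_mul, C_pow, C_neg, C_sub, t2, t3]
    ring

end Pool.Agent.Helper190.NJ
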