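import Pool.Agent.Helper190.NJ.Defs

set_option autoImplicit false

/-!
Admissible collections of polynomials (linear Nijenhuis operators), `n = 3`.
-/

namespace Pool.Agent.Helper190.NJ
open MvPolynomial Matrix


theorem noC4_aux (a b : ℝ) (hb : b ≠ 0) (q : Fin 6 → ℝ) (k : Fin 10 → ℝ)
    (m : Fin 2 → Fin 3 → Fin 3 → ℝ) (h0 : q 0 = a) (h1 : q 1 = b) (h2 : q 2 = 0) (h3 : q 3 = 0)
    (h4 : q 4 = 0) (h5 : q 5 = 0) (h : Eqs q k m) : False := by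
  obtain ⟨e1, e2, e3, -, -, -⟩ := h 0 1 0
  obtain ⟨f1, -, -, -, -, -⟩ := h 0 1 1
  obtain ⟨g1, -, -, -, -, -⟩ := h 0 1 (-1)
  obtain ⟨-, p2, -, -, p5, -⟩ := h 1 1 0
  obtain ⟨-, r2, -, -, r5, -⟩ := h 1 (-1) 0
  obtain ⟨-, s2, -, -, s5, -⟩ := h 1 0 0
  simp only [qx, qy, qz, qv, cx, cy, cz, ln, h0, h1, h2, h3, h4, h5] at e1 e2 e3 f1 g1 p2 r2 s2 p5 r5 s5
  have k3 : k 3 = b ^ 2 := by linear_combination -e1
  have k6 : k 6 = 0 := by linear_combination -(1/3) * e2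
  have k7 : k 7 = 0 := by linear_combination -e3
  have k4 : k 4 = 0 := by linear_combination -(1/2) * f1 + (1/2) * g1
  rw [k3, k6, k7, k4] at p5 r5 s5
  rw [k3, k6, k7, k4] at p2 r2 s2
  have m1 : b * (m 0 1 1 - b) = 0 := by
    linear_combination (1/2) * p2 - (1/2) * r2
  have m2 : m 0 1 1 = b := by
    rcases mul_eq_zero.1 m1 with h | h
    · exact absurd h hb
    · linarith
  rw [m2] at p5 r5
  have fin : b ^ 3 = 0 := by
    linear_combination (1/6) * p5 + (1/6) * r5 - (1/3) * s5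
  exact hb (pow_eq_zero_iff (by norm_num)|>.1 fin)

theorem noC4 (a b : ℝ) (hb : b ≠ 0) (k : Fin 10 → ℝ) (m : Fin 2 → Fin 3 → Fin 3 → ℝ)
    (h : Eqs ![a, b, 0, 0, 0, 0] k m) (hn : Nz ![a, b, 0, 0, 0, 0] k) : False :=
  noC4_aux a b hb _ k m rfl rfl rfl rfl rfl rfl h

end Pool.Agent.Helper190.NJ
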