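import Pool.Agent.Helper190.NJ.Defs

set_option autoImplicit false

/-!
Admissible collections of polynomials (linear Nijenhuis operators), `n = 3`.
-/

namespace Pool.Agent.Helper190.NJ
open MvPolynomial Matrix


theorem nondeg (s : Fin 3 → MvPolynomial (Fin 3) ℝ) (h : Adm' s) (q : Fin 6 → ℝ)
    (h0 : s 0 = X 0) (h1 : s 1 = quadP q) :
    ¬ (q 1 = 0 ∧ q 2 = 0 ∧ q 3 = 0 ∧ q 4 = 0 ∧ q 5 = 0) := by
  rintro ⟨q1, q2, q3, q4, q5⟩
  apply h.1
  have hs1 : s 1 = C (q 0) * X 0 ^ 2 := by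
    rw [h1]
    unfold quadP
    rw [q1, q2, q3, q4, q5]
    simp
  have a01 : pderiv (1 : Fin 3) (s 0) = 0 := by
    rw [h0, pderiv_X_of_ne (by decide)]
  have a02 : pderiv (2 : Fin 3) (s 0) = 0 := by
    rw [h0, pderiv_X_of_ne (by decide)]
  have a11 : pderiv (1 : Fin 3) (s 1) = 0 := by
    rw [hs1, pderiv_C_mul, pderiv_pow, pderiv_X_of_ne (by decide)]
    simp
  have a12 : pderiv (2 : Fin 3) (s 1) = 0 := by
    rw [hs1, pderiv_C_mul, pderiv_pow, pderiv_X_of_ne (by decide)]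
    simp
  rw [Matrix.det_fin_three]
  simp only [jac, Matrix.of_apply]
  rw [a01, a02, a11, a12]
  ring

end Pool.Agent.Helper190.NJ
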