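import Pool.Agent.Helper190.NJ.Defs

set_option autoImplicit false

/-!
Admissible collections of polynomials (linear Nijenhuis operators), `n = 3`.
-/

namespace Pool.Agent.Helper190.NJ
open MvPolynomial Matrix


theorem nz1 (a c : ℝ) (k : Fin 10 → ℝ) (h1 : k 1 = 0) (h2 : k 2 = 0) (h : Nz ![a, 0, 0, c / 2, 0, c / 2] k) :
    ¬ (k 4 = 0 ∧ k 3 = k 5 ∧ k 6 = 0 ∧ k 7 = 0 ∧ k 8 = 0 ∧ k 9 = 0) := by
  rintro ⟨h4, h3, h6, h7, h8, h9⟩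
  obtain ⟨x, y, z, hne⟩ := h
  apply hne
  have e0 : (![a, 0, 0, c / 2, 0, c / 2] : Fin 6 → ℝ) 1 = 0 := rfl
  have e1 : (![a, 0, 0, c / 2, 0, c / 2] : Fin 6 → ℝ) 2 = 0 := rfl
  have e2 : (![a, 0, 0, c / 2, 0, c / 2] : Fin 6 → ℝ) 3 = c / 2 := rfl
  have e3 : (![a, 0, 0, c / 2, 0, c / 2] : Fin 6 → ℝ) 4 = 0 := rfl
  have e4 : (![a, 0, 0, c / 2, 0, c / 2] : Fin 6 → ℝ) 5 = c / 2 := rfl
  unfold qy qz cy cz
  rw [e0, e1, e2, e3, e4, h1, h2, h4, h3, h6, h7, h8, h9]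
  ring

end Pool.Agent.Helper190.NJ
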