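import Pool.Agent.Helper190.NJ.Defs

set_option autoImplicit false

/-!
Admissible collections of polynomials (linear Nijenhuis operators), `n = 3`.
-/

namespace Pool.Agent.Helper190.NJ
open MvPolynomial Matrix


theorem nz2 (a : ℝ) (k : Fin 10 → ℝ) (h1 : k 1 = 0) (h2 : k 2 = 0) (h : Nz ![a, 0, 0, 0, 1, 0] k) :
    ¬ (k 3 = 0 ∧ k 5 = 0 ∧ k 6 = 0 ∧ k 7 = 0 ∧ k 8 = 0 ∧ k 9 = 0) := by
  rintro ⟨h3, h5, h6, h7, h8, h9⟩
  obtain ⟨x, y, z, hne⟩ := h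
  apply hne
  unfold qy qz cz cy
  rw [h1, h2, h3, h5, h6, h7, h8, h9]
  simp
  ring

end Pool.Agent.Helper190.NJ
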