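import Pool.Agent.Helper190.NJ.Defs

set_option autoImplicit false

/-!
Admissible collections of polynomials (linear Nijenhuis operators), `n = 3`.
-/

namespace Pool.Agent.Helper190.NJ
open MvPolynomial Matrix


set_option maxHeartbeats 1000000 in
theorem s1q (c : ℝ) (hc : c = 1 ∨ c = -1) (k : Fin 10 → ℝ) (h : EqN1 (1 / 4) c k) (h6 : k 6 = 0)
    (hn : ¬ (k 4 = 0 ∧ k 3 = k 5 ∧ k 6 = 0 ∧ k 7 = 0 ∧ k 8 = 0 ∧ k 9 = 0)) :
    c = -1 ∧ ∃ t : ℝ, t ^ 2 = 1 / 8 ∧ (k = ![0, 0, 0, - 1 / 4, 0, 0, 0, t, 0, 0] ∨
      k = ![0, 0, 0, 0, 0, - 1 / 4, 0, 0, t, 0]) := by
  obtain ⟨h1, h2, u, v, w, e1, e2, e3, e4, e5, e6, e7, e8, e9, e10, e11, e12, e13, e14, e15, e16,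
    e17, e18, e19, e20, e21, e22, e23, e24, e25, e26⟩ := h
  have h0 : k 0 = 0 := by linarith
  have hext : ∀ g : Fin 10 → ℝ, k 0 = g 0 → k 1 = g 1 → k 2 = g 2 → k 3 = g 3 → k 4 = g 4 →
      k 5 = g 5 → k 6 = g 6 → k 7 = g 7 → k 8 = g 8 → k 9 = g 9 → k = g := by
    intro g a0 a1 a2 a3 a4 a5 a6 a7 a8 a9
    funext i
    fin_cases i <;> assumption
  have hcc : c * c = 1 := by rcases hc with h | h <;> rw [h] <;> norm_num
  have hc0 : c ≠ 0 := by rcases hc with h | h <;> rw [h] <;> norm_num
  generalize k 3 = p at *
  generalize k 4 = q at *
  generalize k 5 = r at *
  generalize k 7 = s at *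
  generalize k 8 = t at *
  generalize k 9 = n at *
  rw [h6] at *
  rw [h0] at *
  have hqu : q * u = 0 := by
    linear_combination (-c) * (e3 - e10 / 2) - (q * u) * (hcc)
  have hupr : u * (p - r) = 0 := by
    linear_combination (c / 2) * (e4 - e11) - (u * (p - r)) * hcc
  by_cases hu : u = 0
  · subst hu
    have hqs : q * s = 0 := by
      linear_combination (2 * c) * e6 - (q * s) * hcc
    by_cases hs : s = 0
    · subst hs
      have hp : p = 0 := by
        have : p * c = 0 := by linear_combination e15
        rcases mul_eq_zero.mp this with h | h
        · exact h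
        · exact absurd h hc0
      subst hp
      have hq : q = 0 := by
        have : c * (q * q) = 0 := by linear_combination e10
        rcases mul_eq_zero.mp this with h | h
        · exact absurd h hc0
        · exact mul_self_eq_zero.mp h
      subst hq
      have hr : r * (4 * r * c - 1) = 0 := by linear_combination e19
      rcases mul_eq_zero.mp hr with hr0 | hr1
      · exfalso
        subst hr0
        have hn0 : n = 0 := by linear_combination (-2) * e9
        have ht0 : t = 0 := by linear_combination (-2) * e8
        exact hn ⟨rfl, rfl, rfl, rfl, ht0, hn0⟩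
      · have hn0 : n = 0 := by linear_combination 4 * e9 - 3 * n * hr1
        subst hn0
        have ht : t * w = t * t := by
          linear_combination (-c / 2) * e24 + (t * t - t * w) * hcc
        have hrt : r = - 2 * t ^ 2 := by
          linear_combination c * e26 - (r + t ^ 2 + t * w) * hcc - ht
        have hrc : r * c = 1 / 4 := by linear_combination hr1 / 4
        have hcneg : c = -1 := by
          rcases hc with h | h
          · exfalso
            rw [h] at hrc
            linarith [sq_nonneg t]
          · exact h
        subst hcneg
        refine ⟨rfl, t, by linarith, Or.inr ?_⟩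
        apply hext <;> simp <;> first | assumption | linarith
    · have hq : q = 0 := by
        rcases mul_eq_zero.mp hqs with h | h
        · exact h
        · exact absurd h hs
      subst hq
      have hw : w = t := by
        have : s * c * (t - w) = 0 := by linear_combination e23
        rcases mul_eq_zero.mp this with h | h
        · rcases mul_eq_zero.mp h with h | h
          · exact absurd h hs
          · exact absurd h hc0
        · linarith
      subst hw
      have h20 : p * c + r * c = 1 / 4 := by
        have : s * (2 * (p * c) + 2 * (r * c) - 1 / 2) = 0 := by linear_combination e20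
        rcases mul_eq_zero.mp this with h | h
        · exact absurd h hs
        · linarith
      have h7 : 2 * (p * c) + r * c = 1 / 2 := by
        have : s * (2 * (p * c) + (r * c) - 1 / 2) = 0 := by linear_combination e7
        rcases mul_eq_zero.mp this with h | h
        · exact absurd h hs
        · linarith
      have hrc : r * c = 0 := by linarith
      have hr : r = 0 := by
        rcases mul_eq_zero.mp hrc with h | h
        · exact h
        · exact absurd h hc0
      subst hr
      have hpc : p * c = 1 / 4 := by linarith
      have h26 : 2 * w ^ 2 + 9 * n ^ 2 = 0 := by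
        linear_combination c * e26 - (2 * w ^ 2 + 9 * n ^ 2) * hcc
      have hw0 : w = 0 := by
        have : w ^ 2 = 0 := le_antisymm (by linarith [sq_nonneg n]) (sq_nonneg w)
        exact pow_eq_zero_iff (two_ne_zero) |>.mp this
      have hn0 : n = 0 := by
        have : n ^ 2 = 0 := le_antisymm (by linarith [sq_nonneg w]) (sq_nonneg n)
        exact pow_eq_zero_iff (two_ne_zero) |>.mp this
      subst hw0
      subst hn0
      have hv : s * v = - s ^ 2 := by
        linear_combination (c / 2) * e17 - (s ^ 2 + s * v) * hcc
      have hps : p = - 2 * s ^ 2 := by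
        linear_combination c * e15 - (p + s ^ 2 - s * v) * hcc + hv
      have hcneg : c = -1 := by
        rcases hc with h | h
        · exfalso
          rw [h] at hpc
          linarith [sq_nonneg s]
        · exact h
      subst hcneg
      refine ⟨rfl, s, by linarith, Or.inl ?_⟩
      apply hext <;> simp <;> first | assumption | linarith
  · exfalso
    have hq : q = 0 := by
      rcases mul_eq_zero.mp hqu with h | h
      · exact h
      · exact absurd h hu
    have hpr : p = r := by
      rcases mul_eq_zero.mp hupr with h | h
      · exact absurd h hu
      · linarith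
    subst hq
    have hs : s = 0 := by
      have : s * u * c = 0 := by linear_combination -e6
      rcases mul_eq_zero.mp this with h | h
      · rcases mul_eq_zero.mp h with h | h
        · exact h
        · exact absurd h hu
      · exact absurd h hc0
    subst hs
    have ht : t = 0 := by
      have : t * u * c = 0 := by linear_combination (-1 / 2) * e7
      rcases mul_eq_zero.mp this with h | h
      · rcases mul_eq_zero.mp h with h | h
        · exact h
        · exact absurd h hu
      · exact absurd h hc0
    subst ht
    have hn0 : n = 0 := by
      have : n * u * c = 0 := by linear_combination (-1 / 3) * e8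
      rcases mul_eq_zero.mp this with h | h
      · rcases mul_eq_zero.mp h with h | h
        · exact h
        · exact absurd h hu
      · exact absurd h hc0
    exact hn ⟨rfl, hpr, rfl, rfl, rfl, hn0⟩

end Pool.Agent.Helper190.NJ
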