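import Pool.Agent.Helper190.NJ.Defs

set_option autoImplicit false

/-!
Admissible collections of polynomials (linear Nijenhuis operators), `n = 3`.
-/

namespace Pool.Agent.Helper190.NJ
open MvPolynomial Matrix


theorem s1t_aux (c K0 K3 K4 K5 K7 K8 K9 u v w : ℝ) (hc : c = 1 ∨ c = -1)
    (hn : ¬ (K4 = 0 ∧ K3 = K5 ∧ K7 = 0 ∧ K8 = 0 ∧ K9 = 0))
    (e1 : 4 * (1 / 3) ^ 2 - 1 / 3 - 3 * K0 = 0)
    (e6 : 1 / 2 * K4 * K7 * c - K7 * u * c = 0)
    (e7 : 2 * K3 * K7 * c + K4 * K8 * c + K5 * K7 * c - 1 / 2 * K7 - 2 * K8 * u * c = 0)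
    (e8 : K3 * K8 * c + K4 * K7 * c + 3 / 2 * K4 * K9 * c + 2 * K5 * K8 * c + 2 * K7 * u * c
      - 1 / 2 * K8 - 3 * K9 * u * c = 0)
    (e10 : -4 * (1 / 3) * K3 + 3 * K0 * c + 4 * K3 ^ 2 * c + K4 ^ 2 * c = 0)
    (e15 : K3 * c + K7 ^ 2 * c - K7 * v * c = 0)
    (e16 : K4 * c + 3 * K7 * K8 * c - 2 * K8 * v * c = 0)
    (e17 : K5 * c + 2 * K7 ^ 2 * c + 3 * K7 * K9 * c + 2 * K7 * v * c + 2 * K8 ^ 2 * c
      - 3 * K9 * v * c = 0)
    (e19 : -4 * (1 / 3) * K5 + 3 * K0 * c + K4 ^ 2 * c + 4 * K5 ^ 2 * c = 0)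
    (e23 : K7 * K8 * c - K7 * w * c = 0)
    (e24 : K3 * c + 2 * K7 ^ 2 * c + 3 * K7 * K9 * c + 2 * K8 ^ 2 * c - 2 * K8 * w * c = 0)
    (e25 : K4 * c + 3 * K7 * K8 * c + 2 * K7 * w * c + 9 * K8 * K9 * c - 3 * K9 * w * c = 0)
    (e26 : K5 * c + K8 ^ 2 * c + K8 * w * c + 9 * K9 ^ 2 * c = 0) :
    c = -1 ∧ K0 = 1 / 27 ∧ K3 = -1 / 6 ∧ K4 = 0 ∧ K5 = -1 / 6 ∧ K8 = 0 ∧
      K9 ^ 2 = 1 / 54 ∧ (K7 = - 3 * K9 ∨ K9 = 2 * K7 / 3) := by
  have hcc : c ^ 2 = 1 := by rcases hc with h | h <;> rw [h] <;> norm_num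
  have hc0 : c ≠ 0 := by rcases hc with h | h <;> rw [h] <;> norm_num
  have k0 : K0 = 1 / 27 := by linarith
  subst k0
  have s10 : (2 * K3 - c / 3) ^ 2 + K4 ^ 2 = 0 := by
    linear_combination c * e10 + (- 4 * K3 ^ 2 - K4 ^ 2) * hcc
  have k4 : K4 = 0 := by nlinarith [sq_nonneg (2 * K3 - c / 3), sq_nonneg K4]
  subst k4
  have k3 : K3 = c / 6 := by
    have h1 : (2 * K3 - c / 3) ^ 2 = 0 := by linarith
    have h2 := pow_eq_zero_iff (two_ne_zero) |>.1 h1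
    linarith
  have k5 : K5 = c / 6 := by
    have s19 : (2 * K5 - c / 3) ^ 2 = 0 := by
      linear_combination c * e19 + (- 4 * K5 ^ 2) * hcc
    have h2 := pow_eq_zero_iff (two_ne_zero) |>.1 s19
    linarith
  subst k3
  subst k5
  have hu7 : K7 * u = 0 := by
    have : K7 * u * c = 0 := by linarith
    exact (mul_eq_zero.1 this).resolve_right hc0
  have hu8 : K8 * u = 0 := by
    have : K8 * u * c = 0 := by linear_combination - e7 / 2 + K7 / 4 * hcc
    exact (mul_eq_zero.1 this).resolve_right hc0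
  have hu9 : K9 * u = 0 := by
    have : K9 * u * c = 0 := by
      linear_combination - e8 / 3 + K8 / 6 * hcc + 2 / 3 * c * hu7
    exact (mul_eq_zero.1 this).resolve_right hc0
  have d15 : c / 6 + K7 ^ 2 - K7 * v = 0 := by
    have : (c / 6 + K7 ^ 2 - K7 * v) * c = 0 := by linear_combination e15
    exact (mul_eq_zero.1 this).resolve_right hc0
  have hK7 : K7 ≠ 0 := by
    intro h
    rw [h] at d15
    apply hc0
    linarith
  have hw : w = K8 := by
    have h1 : (K7 * c) * (K8 - w) = 0 := by linear_combination e23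
    have h2 := (mul_eq_zero.1 h1).resolve_left (mul_ne_zero hK7 hc0)
    linarith
  subst hw
  have d26 : c / 6 + 2 * w ^ 2 + 9 * K9 ^ 2 = 0 := by
    have : (c / 6 + 2 * w ^ 2 + 9 * K9 ^ 2) * c = 0 := by linear_combination e26
    exact (mul_eq_zero.1 this).resolve_right hc0
  have hcm : c = -1 := by
    rcases hc with h | h
    · exfalso
      rw [h] at d26
      nlinarith [sq_nonneg w, sq_nonneg K9]
    · exact h
  subst hcm
  have hK8 : w = 0 := by
    by_contra hne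
    have h1 : w * (3 * K7 - 2 * v) = 0 := by linear_combination - e16
    have h2 := (mul_eq_zero.1 h1).resolve_left hne
    have hv : v = 3 * K7 / 2 := by linarith
    rw [hv] at d15
    nlinarith [sq_nonneg K7]
  subst hK8
  have h9 : K9 ^ 2 = 1 / 54 := by linarith
  have d24 : 2 * K7 ^ 2 + 3 * K7 * K9 = 1 / 6 := by linear_combination - e24
  have h3 : (2 * K7 - 3 * K9) * (K7 + 3 * K9) = 0 := by
    linear_combination d24 - 9 * h9
  refine ⟨rfl, rfl, by norm_num, rfl, by norm_num, rfl, h9, ?_⟩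
  rcases mul_eq_zero.1 h3 with h | h
  · right; linarith
  · left; linarith

theorem s1t (c : ℝ) (hc : c = 1 ∨ c = -1) (k : Fin 10 → ℝ) (h : EqN1 (1 / 3) c k) (h6 : k 6 = 0)
    (hn : ¬ (k 4 = 0 ∧ k 3 = k 5 ∧ k 6 = 0 ∧ k 7 = 0 ∧ k 8 = 0 ∧ k 9 = 0)) :
    c = -1 ∧ ∃ t : ℝ,
      (t ^ 2 = 1 / 54 ∧ k = ![1 / 27, 0, 0, - 1 / 6, 0, - 1 / 6, 0, 3 * t, 0, - t]) ∨
      (t ^ 2 = 1 / 24 ∧ k = ![1 / 27, 0, 0, - 1 / 6, 0, - 1 / 6, 0, t, 0, 2 * t / 3]) := by
  obtain ⟨h1, h2, u, v, w, e1, e2, e3, e4, e5, e6, e7, e8, e9, e10, e11, e12, e13, e14, e15, e16,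
    e17, e18, e19, e20, e21, e22, e23, e24, e25, e26⟩ := h
  have hn' : ¬ (k 4 = 0 ∧ k 3 = k 5 ∧ k 7 = 0 ∧ k 8 = 0 ∧ k 9 = 0) := by
    rintro ⟨a1, a2, a3, a4, a5⟩
    exact hn ⟨a1, a2, h6, a3, a4, a5⟩
  obtain ⟨r1, r0, r3, r4, r5, r8, r9, r7⟩ := s1t_aux c (k 0) (k 3) (k 4) (k 5) (k 7) (k 8) (k 9)
    u v w hc hn' e1
    (by linear_combination e6 + (- 3 * k 3 * c + 1 / 2) * h6)
    (by linear_combination e7 + (- 3 / 2 * k 4 * c - 3 * u * c) * h6)
    (by linear_combination e8)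
    (by linear_combination e10)
    (by linear_combination e15 + (- 9 * k 6 * c) * h6)
    (by linear_combination e16 + (- 9 * k 7 * c - 3 * v * c) * h6)
    (by linear_combination e17 + (- 3 * k 8 * c) * h6)
    (by linear_combination e19)
    (by linear_combination e23 + (- 3 * k 7 * c) * h6)
    (by linear_combination e24 + (- 3 * k 8 * c - 3 * w * c) * h6)
    (by linear_combination e25)
    (by linear_combination e26)
  refine ⟨r1, ?_⟩
  rcases r7 with r7 | r7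
  · refine ⟨- k 9, Or.inl ⟨by rw [neg_sq, r9], ?_⟩⟩
    funext i
    fin_cases i
    · simpa using r0
    · simpa using h1
    · simpa using h2
    · simpa using r3
    · simpa using r4
    · simpa using r5
    · simpa using h6
    · simp; linarith
    · simpa using r8
    · simp
  · refine ⟨k 7, Or.inr ⟨by rw [r7] at r9; linear_combination (9 / 4) * r9, ?_⟩⟩
    funext i
    fin_cases i
    · simpa using r0
    · simpa using h1
    · simpa using h2
    · simpa using r3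
    · simpa using r4
    · simpa using r5
    · simpa using h6
    · simp
    · simpa using r8
    · simpa using r7

end Pool.Agent.Helper190.NJ
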