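import Pool.Agent.Helper190.NJ.Defs

set_option autoImplicit false

/-!
Admissible collections of polynomials (linear Nijenhuis operators), `n = 3`.
-/

namespace Pool.Agent.Helper190.NJ
open MvPolynomial Matrix


theorem s1z (c : ℝ) (hc : c = 1 ∨ c = -1) (k : Fin 10 → ℝ) (h : EqN1 0 c k) (h6 : k 6 = 0)
    (hn : ¬ (k 4 = 0 ∧ k 3 = k 5 ∧ k 6 = 0 ∧ k 7 = 0 ∧ k 8 = 0 ∧ k 9 = 0)) : False := by
  obtain ⟨h1, h2, u, v, w, e1, e2, e3, e4, e5, e6, e7, e8, e9, e10, e11, e12, e13, e14, e15, e16,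
    e17, e18, e19, -⟩ := h
  have hcc : c * c = 1 := by rcases hc with rfl | rfl <;> norm_num
  have h0 : k 0 = 0 := by linarith
  have hsq : 4 * (k 3) ^ 2 + (k 4) ^ 2 = 0 := by
    have : c * (-4 * 0 * k 3 + 3 * k 0 * c + 4 * (k 3) ^ 2 * c + (k 4) ^ 2 * c) = 0 := by
      rw [e10, mul_zero]
    rw [h0] at this
    linear_combination this - (4 * (k 3) ^ 2 + (k 4) ^ 2) * hcc
  have h3 : k 3 = 0 := by
    have : (k 3) ^ 2 = 0 := by nlinarith [sq_nonneg (k 3), sq_nonneg (k 4)]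
    exact pow_eq_zero_iff (two_ne_zero) |>.mp this
  have h4 : k 4 = 0 := by
    have : (k 4) ^ 2 = 0 := by nlinarith [sq_nonneg (k 3), sq_nonneg (k 4)]
    exact pow_eq_zero_iff (two_ne_zero) |>.mp this
  have h5 : k 5 = 0 := by
    have : c * (-4 * 0 * k 5 + 3 * k 0 * c + (k 4) ^ 2 * c + 4 * (k 5) ^ 2 * c) = 0 := by
      rw [e19, mul_zero]
    rw [h0, h4] at this
    have h5' : (k 5) ^ 2 = 0 := by
      linear_combination (1/4) * this - (k 5) ^ 2 * hcc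
    exact pow_eq_zero_iff (two_ne_zero) |>.mp h5'
  rw [h3, h4, h6] at e6
  rw [h3, h4, h5, h6] at e7
  rw [h3, h4, h5] at e8
  rw [h4, h5] at e9
  have h7u : k 7 * u * c = 0 := by linarith
  have h7 : k 7 = -4 * (k 8 * u * c) := by linarith
  have h9 : k 9 = 2 * (k 8 * u * c) := by linarith
  have h8 : k 8 * (1 + 12 * u ^ 2) = 0 := by
    have e : 2 * (k 7 * u * c) - (1/2) * k 8 - 3 * k 9 * u * c = 0 := by linarith
    rw [h7u, h9] at e
    linear_combination (-2) * e - 12 * k 8 * u ^ 2 * hcc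
  have h8' : k 8 = 0 := by
    rcases mul_eq_zero.mp h8 with h | h
    · exact h
    · nlinarith [sq_nonneg u]
  apply hn
  refine ⟨h4, by rw [h3, h5], h6, ?_, h8', ?_⟩
  · rw [h7, h8']; ring
  · rw [h9, h8']; ring

end Pool.Agent.Helper190.NJ
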