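import Pool.Agent.Helper190.NJ.Defs

set_option autoImplicit false

/-!
Admissible collections of polynomials (linear Nijenhuis operators), `n = 3`.
-/

namespace Pool.Agent.Helper190.NJ
open MvPolynomial Matrix


theorem s2q_alg (k3 k5 k6 k7 k8 k9 : ℝ) (h35 : k3 * k5 = 1 / 64) (hk6 : k6 = 8 * k3 * k7)
    (hk9 : k9 = 8 * k5 * k8) (h38 : k3 * k8 = - k7 / 8) (h16 : k3 + 9 * k6 * k8 + 3 * k7 ^ 2 + k7 * (-2 * k7) = 0) :
    k7 ≠ 0 ∧ k3 = (4 * k7) ^ 2 / 2 ∧ k5 = 1 / (32 * (4 * k7) ^ 2) ∧ k6 = (4 * k7) ^ 3 ∧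
      k8 = - 1 / (16 * (4 * k7)) ∧ k9 = - 1 / (64 * (4 * k7) ^ 3) := by
  have h1 : k6 * k8 = - k7 ^ 2 := by
    rw [hk6]
    calc 8 * k3 * k7 * k8 = 8 * k7 * (k3 * k8) := by ring
      _ = - k7 ^ 2 := by rw [h38]; ring
  have hk3 : k3 = 8 * k7 ^ 2 := by linarith
  have k7ne : k7 ≠ 0 := by
    intro h0
    rw [hk3, h0] at h35
    norm_num at h35
  have hk5 : k5 = 1 / (512 * k7 ^ 2) := by
    rw [eq_div_iff (by positivity)]
    rw [hk3] at h35
    linarith
  have hk8 : k8 = - 1 / (64 * k7) := by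
    have h0 : k7 * (64 * k7 * k8 + 1) = 0 := by
      rw [hk3] at h38
      linarith
    have h1 : 64 * k7 * k8 + 1 = 0 := by
      rcases mul_eq_zero.mp h0 with h | h
      · exact absurd h k7ne
      · exact h
    rw [eq_div_iff (mul_ne_zero (by norm_num) k7ne)]
    linarith
  refine ⟨k7ne, by rw [hk3]; ring, by rw [hk5]; congr 1; ring, by rw [hk6, hk3]; ring,
    by rw [hk8]; congr 1; ring, ?_⟩
  rw [hk9, hk5, hk8]
  field_simp
  try ring

theorem s2q (k : Fin 10 → ℝ) (h : EqN2 (1 / 4) k)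
    (hn : ¬ (k 3 = 0 ∧ k 5 = 0 ∧ k 6 = 0 ∧ k 7 = 0 ∧ k 8 = 0 ∧ k 9 = 0)) :
    ∃ t : ℝ, t ≠ 0 ∧ k = ![0, 0, 0, t ^ 2 / 2, 1 / 4, 1 / (32 * t ^ 2), t ^ 3, t / 4,
      - 1 / (16 * t), - 1 / (64 * t ^ 3)] := by
  obtain ⟨e1, e2, u, v, w, h1, h2, h3, h4, h5, h6, h7, h8, h9, h10, h11, h12, h13, h14, h15, h16,
    h17, h18, h19, h20, h21, h22, h23, h24, h25, h26⟩ := h
  clear h2 h4 h5 h7 h8 h14 h15 h17 h18 h20 h23 h24 h25 h26
  have hk0 : k 0 = 0 := by linarith
  have hk4 : k 4 = 1 / 4 := by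
    by_contra hne
    have hne' : 4 * k 4 - 1 ≠ 0 := fun h0 => hne (by linarith)
    have z : ∀ y : ℝ, y * (4 * k 4 - 1) = 0 → y = 0 := fun y hy => by
      rcases mul_eq_zero.mp hy with h0 | h0
      · exact h0
      · exact absurd h0 hne'
    have k3 : k 3 = 0 := z _ (by linarith only [h10])
    have k5 : k 5 = 0 := z _ (by linarith only [h19])
    have k7 : k 7 = 0 := z _ (by rw [k3, k5] at h13; linarith only [h13])
    have k8 : k 8 = 0 := z _ (by rw [k3, k5] at h21; linarith only [h21])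
    have k6 : k 6 = 0 := z _ (by rw [k3] at h12; linarith only [h12])
    have k9 : k 9 = 0 := z _ (by rw [k5] at h22; linarith only [h22])
    exact hn ⟨k3, k5, k6, k7, k8, k9⟩
  rw [hk4, hk0] at h11
  have h35 : k 3 * k 5 = 1 / 64 := by linarith only [h11]
  have k3ne : k 3 ≠ 0 := by
    intro h0
    rw [h0] at h35
    norm_num at h35
  have hu : u = 0 := by
    rw [hk4] at h3
    have : k 3 * u = 0 := by linarith only [h3]
    rcases mul_eq_zero.mp this with h0 | h0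
    · exact absurd h0 k3ne
    · exact h0
  have hk6 : k 6 = 8 * k 3 * k 7 := by
    rw [hk4, hu] at h6
    linarith only [h6]
  have hk9 : k 9 = 8 * k 5 * k 8 := by
    rw [hk4, hu] at h9
    linarith only [h9]
  have hv : v = -2 * k 7 := by
    rw [hk4] at h12
    have : k 3 * (v + 2 * k 7) = 0 := by linarith only [h12]
    rcases mul_eq_zero.mp this with h0 | h0
    · exact absurd h0 k3ne
    · linarith only [h0]
  have h38 : k 3 * k 8 = - k 7 / 8 := by
    rw [hk4, hk6] at h13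
    have : k 5 * (8 * k 3 * k 7) = k 7 / 8 := by
      calc k 5 * (8 * k 3 * k 7) = 8 * k 7 * (k 3 * k 5) := by ring
        _ = k 7 / 8 := by rw [h35]; ring
    linarith only [h13, this]
  rw [hv] at h16
  obtain ⟨k7ne, a3, a5, a6, a8, a9⟩ := s2q_alg _ _ _ _ _ _ h35 hk6 hk9 h38 h16
  refine ⟨4 * k 7, mul_ne_zero (by norm_num) k7ne, ?_⟩
  funext i
  fin_cases i
  · exact hk0
  · exact e1
  · exact e2
  · exact a3
  · exact hk4
  · exact a5
  · exact a6
  · show k 7 = 4 * k 7 / 4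
    ring
  · exact a8
  · exact a9

end Pool.Agent.Helper190.NJ
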