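import Pool.Agent.Helper190.NJ.Defs

set_option autoImplicit false

/-!
Admissible collections of polynomials (linear Nijenhuis operators), `n = 3`.
-/

namespace Pool.Agent.Helper190.NJ
open MvPolynomial Matrix


theorem s2t_core (x3 x5 x6 x7 x8 x9 u v w : ℝ) (h35 : x3 * x5 = 0)
    (e3 : x3 * (2 * u + 1 / 3) = 0) (e5 : x5 * (1 / 3 - 2 * u) = 0)
    (e6 : x3 * x7 + 3 * x6 * u = 0) (e7 : 2 * x3 * x8 + 3 * x5 * x6 + x7 * u = 0)
    (e8 : 3 * x3 * x9 + 2 * x5 * x7 - x8 * u = 0) (e9 : x5 * x8 - 3 * x9 * u = 0)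
    (e15 : x6 * (2 * x7 + v) = 0) (e16 : x3 + 9 * x6 * x8 + 3 * x7 ^ 2 + x7 * v = 0)
    (e17 : 1 / 3 + 9 * x6 * x9 + 5 * x7 * x8 - x8 * v = 0)
    (e18 : x5 + 3 * x7 * x9 + x8 ^ 2 - 3 * x9 * v = 0)
    (e23 : x3 + 3 * x6 * x8 + 3 * x6 * w + x7 ^ 2 = 0)
    (e24 : 1 / 3 + 9 * x6 * x9 + 5 * x7 * x8 + x7 * w = 0)
    (e25 : x5 + 9 * x7 * x9 + 3 * x8 ^ 2 - x8 * w = 0)
    (e26 : x9 * (2 * x8 - w) = 0) :
    x3 = 0 ∧ x5 = 0 ∧ x6 ≠ 0 ∧ ((x7 = 0 ∧ x8 = 0 ∧ x9 = -1 / (27 * x6)) ∨
      (x7 ≠ 0 ∧ x6 = 64 / 27 * x7 ^ 3 ∧ x8 = -3 / (64 * x7) ∧ x9 = -1 / (4096 * x7 ^ 3))) := by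
  by_cases h3 : x3 = 0
  · subst h3
    by_cases h5 : x5 = 0
    · subst h5
      have h6 : x6 ≠ 0 := by
        intro h6
        subst h6
        have h7' : x7 ^ 2 = 0 := by linear_combination e23
        have h7 : x7 = 0 := by simpa using h7'
        subst h7
        norm_num at e24
      have h9 : x9 ≠ 0 := by
        intro h9
        subst h9
        have h8' : x8 ^ 2 = 0 := by linear_combination e18
        have h8 : x8 = 0 := by simpa using h8'
        subst h8
        norm_num at e17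
      have hv : v = -2 * x7 := by
        rcases mul_eq_zero.mp e15 with hh | hh
        · exact absurd hh h6
        · linear_combination hh
      have hw : w = 2 * x8 := by
        rcases mul_eq_zero.mp e26 with hh | hh
        · exact absurd hh h9
        · linear_combination -hh
      subst hv
      subst hw
      have f1 : x7 ^ 2 = -9 * x6 * x8 := by linear_combination e16
      have f2 : x8 ^ 2 = -9 * x7 * x9 := by linear_combination e25
      have f3 : 1 / 3 + 9 * x6 * x9 + 7 * x7 * x8 = 0 := by linear_combination e24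
      refine ⟨rfl, rfl, h6, ?_⟩
      by_cases h7 : x7 = 0
      · left
        have h8' : x8 ^ 2 = 0 := by rw [f2, h7]; ring
        have h8 : x8 = 0 := by simpa using h8'
        refine ⟨h7, h8, ?_⟩
        rw [h7, h8] at f3
        have h27 : 27 * x6 ≠ 0 := mul_ne_zero (by norm_num) h6
        rw [eq_div_iff h27]
        linear_combination 3 * f3
      · right
        have h8 : x8 ≠ 0 := by
          intro h8
          apply h7
          have : x7 ^ 2 = 0 := by rw [f1, h8]; ring
          simpa using this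
        have f4 : (x7 * x8) * (x7 * x8 - 81 * (x6 * x9)) = 0 := by
          linear_combination x8 ^ 2 * f1 + (-9 * x6 * x8) * f2
        have f5 : x7 * x8 - 81 * (x6 * x9) = 0 := by
          rcases mul_eq_zero.mp f4 with hh | hh
          · exact absurd hh (mul_ne_zero h7 h8)
          · exact hh
        have f6 : x7 * x8 = -3 / 64 := by
          linear_combination (9 / 64) * f3 + (1 / 64) * f5
        have f7 : x6 = 64 / 27 * x7 ^ 3 := by
          linear_combination (-64 / 27 * x7) * f1 + (64 / 3 * x6) * f6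
        have f9 : x6 * x9 = -1 / 1728 := by
          linear_combination (1 / 81) * f6 - (1 / 81) * f5
        refine ⟨h7, f7, ?_, ?_⟩
        · have h64 : 64 * x7 ≠ 0 := mul_ne_zero (by norm_num) h7
          rw [eq_div_iff h64]
          linear_combination 64 * f6
        · have h40 : 4096 * x7 ^ 3 ≠ 0 := mul_ne_zero (by norm_num) (pow_ne_zero 3 h7)
          rw [eq_div_iff h40]
          linear_combination 1728 * f9 - 1728 * x9 * f7
    · exfalso
      have hu : u = 1 / 6 := by
        rcases mul_eq_zero.mp e5 with hh | hh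
        · exact absurd hh h5
        · linear_combination (-1 / 2) * hh
      subst hu
      have h6 : x6 = 0 := by linear_combination 2 * e6
      subst h6
      have h7 : x7 = 0 := by linear_combination 6 * e7
      subst h7
      have h8 : x8 = 0 := by linear_combination -6 * e8
      subst h8
      have h9 : x9 = 0 := by linear_combination -2 * e9
      subst h9
      exact h5 (by linear_combination e18)
  · exfalso
    have h5 : x5 = 0 := by
      rcases mul_eq_zero.mp h35 with hh | hh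
      · exact absurd hh h3
      · exact hh
    subst h5
    have hu : u = -1 / 6 := by
      rcases mul_eq_zero.mp e3 with hh | hh
      · exact absurd hh h3
      · linear_combination (1 / 2) * hh
    subst hu
    have h9 : x9 = 0 := by linear_combination 2 * e9
    subst h9
    have h8 : x8 = 0 := by linear_combination 6 * e8
    subst h8
    have h7 : x7 = 0 := by linear_combination -6 * e7
    subst h7
    have h6 : x6 = 0 := by linear_combination -2 * e6
    subst h6
    exact h3 (by linear_combination e16)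

theorem s2t_vec (k : Fin 10 → ℝ) (a6 a7 a8 a9 : ℝ) (b0 : k 0 = 1 / 27) (b1 : k 1 = 0)
    (b2 : k 2 = 0) (b3 : k 3 = 0) (b4 : k 4 = 1 / 3) (b5 : k 5 = 0) (b6 : k 6 = a6)
    (b7 : k 7 = a7) (b8 : k 8 = a8) (b9 : k 9 = a9) :
    k = ![1 / 27, 0, 0, 0, 1 / 3, 0, a6, a7, a8, a9] := by
  funext i
  fin_cases i
  · exact b0
  · exact b1
  · exact b2
  · exact b3
  · exact b4
  · exact b5
  · exact b6
  · exact b7
  · exact b8
  · exact b9

theorem s2t (k : Fin 10 → ℝ) (h : EqN2 (1 / 3) k)
    (hn : ¬ (k 3 = 0 ∧ k 5 = 0 ∧ k 6 = 0 ∧ k 7 = 0 ∧ k 8 = 0 ∧ k 9 = 0)) :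
    ∃ t : ℝ, t ≠ 0 ∧ (k = ![1 / 27, 0, 0, 0, 1 / 3, 0, t, 0, 0, - 1 / (27 * t)] ∨
      k = ![1 / 27, 0, 0, 0, 1 / 3, 0, 8 / 27 * t ^ 3, t / 2, - 3 / (32 * t),
        - 1 / (512 * t ^ 3)]) := by
  obtain ⟨hk1, hk2, u, v, w, e1, _, e3, e4, e5, e6, e7, e8, e9, _, e11, _, _, _, e15,
    e16, e17, e18, _, _, _, _, e23, e24, e25, e26⟩ := h
  have hk0 : k 0 = 1 / 27 := by linear_combination (-1 / 3) * e1
  have hk4 : k 4 = 1 / 3 := by linear_combination 3 * e4 - 3 * e11 + 9 * hk0
  have hc := s2t_core (k 3) (k 5) (k 6) (k 7) (k 8) (k 9) u v w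
    (by rw [hk4] at e4; linear_combination (1 / 4) * e4)
    (by rw [hk4] at e3; linear_combination e3)
    (by rw [hk4] at e5; linear_combination e5)
    (by rw [hk4] at e6; linear_combination e6)
    (by rw [hk4] at e7; linear_combination e7)
    (by rw [hk4] at e8; linear_combination e8)
    (by rw [hk4] at e9; linear_combination e9)
    (by linear_combination (1 / 3) * e15)
    e16
    (by rw [hk4] at e17; linear_combination e17)
    e18 e23
    (by rw [hk4] at e24; linear_combination e24)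
    e25
    (by linear_combination (1 / 3) * e26)
  obtain ⟨h3, h5, h6, hc⟩ := hc
  rcases hc with ⟨h7, h8, h9⟩ | ⟨h7, g6, g8, g9⟩
  · exact ⟨k 6, h6, Or.inl (s2t_vec k _ _ _ _ hk0 hk1 hk2 h3 hk4 h5 rfl h7 h8 h9)⟩
  · refine ⟨2 * k 7, mul_ne_zero two_ne_zero h7,
      Or.inr (s2t_vec k _ _ _ _ hk0 hk1 hk2 h3 hk4 h5 ?_ ?_ ?_ ?_)⟩
    · rw [g6]; ring
    · ring
    · rw [g8]
      congr 1
      ring
    · rw [g9]
      congr 1
      ring

end Pool.Agent.Helper190.NJ
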