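import Pool.Agent.Helper190.NJ.Defs

set_option autoImplicit false

/-!
Admissible collections of polynomials (linear Nijenhuis operators), `n = 3`.
-/

namespace Pool.Agent.Helper190.NJ
open MvPolynomial Matrix


theorem hx_vec (k : Fin 10 → ℝ) (a0 a1 a2 a3 a4 a5 a6 a7 a8 a9 : ℝ)
    (h0 : k 0 = a0) (h1 : k 1 = a1) (h2 : k 2 = a2) (h3 : k 3 = a3) (h4 : k 4 = a4)
    (h5 : k 5 = a5) (h6 : k 6 = a6) (h7 : k 7 = a7) (h8 : k 8 = a8) (h9 : k 9 = a9) :
    k = ![a0, a1, a2, a3, a4, a5, a6, a7, a8, a9] := by
  funext i
  fin_cases i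
  · exact h0
  · exact h1
  · exact h2
  · exact h3
  · exact h4
  · exact h5
  · exact h6
  · exact h7
  · exact h8
  · exact h9

theorem s2z (k : Fin 10 → ℝ) (h : EqN2 0 k)
    (hn : ¬ (k 3 = 0 ∧ k 5 = 0 ∧ k 6 = 0 ∧ k 7 = 0 ∧ k 8 = 0 ∧ k 9 = 0)) :
    ∃ t : ℝ, t ≠ 0 ∧ (k = ![0, 0, 0, 0, 0, 0, t, 0, 0, 0] ∨ k = ![0, 0, 0, 0, 0, 0, 0, 0, 0, t] ∨
      k = ![0, 0, 0, - t ^ 2, 0, 0, t ^ 3, t, 0, 0] ∨
      k = ![0, 0, 0, 0, 0, - t ^ 2, 0, 0, t, t ^ 3]) := by
  obtain ⟨h1, h2, u, v, w, e1, e2, e3, e4, e5, e6, e7, e8, e9, e10, e11, e12, e13, e14, e15, e16,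
    e17, e18, e19, e20, e21, e22, e23, e24, e25, e26⟩ := h
  have k0 : k 0 = 0 := by linarith
  have k4 : k 4 = 0 := by
    rw [k0] at e11
    linarith
  rw [k4] at e3 e4 e5 e6 e7 e8 e9 e11 e12 e13 e14 e21
  rw [k0] at e11
  have hpq : k 3 * k 5 = 0 := by nlinarith
  by_cases hp : k 3 = 0
  · rw [hp] at e3 e6 e7 e8 e12 e13 e14 e16 e20 e21 e23
    by_cases hq : k 5 = 0
    · rw [hq] at e7 e8 e9 e13 e14 e18 e20 e21 e22 e25
      by_cases hB : k 7 = 0
      · by_cases hC : k 8 = 0
        · by_cases hA : k 6 = 0
          · have hD : k 9 ≠ 0 := fun hD => hn ⟨hp, hq, hA, hB, hC, hD⟩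
            exact ⟨k 9, hD, Or.inr (Or.inl (hx_vec k _ _ _ _ _ _ _ _ _ _ k0 h1 h2 hp k4 hq hA hB
              hC rfl))⟩
          · have hu : u = 1 / 6 := by
              have : k 6 * (3 * u - 1 / 2) = 0 := by linarith
              rcases mul_eq_zero.mp this with h | h
              · exact absurd h hA
              · linarith
            have hD : k 9 = 0 := by
              rw [hu] at e9
              linarith
            exact ⟨k 6, hA, Or.inl (hx_vec k _ _ _ _ _ _ _ _ _ _ k0 h1 h2 hp k4 hq rfl hB
              hC hD)⟩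
        · exfalso
          have hu : u = - (1 / 2) := by
            have : k 8 * (- u - 1 / 2) = 0 := by linarith
            rcases mul_eq_zero.mp this with h | h
            · exact absurd h hC
            · linarith
          have hD : k 9 = 0 := by
            rw [hu] at e9
            linarith
          rw [hD, hB] at e18
          have : k 8 ^ 2 = 0 := by linarith
          exact hC (pow_eq_zero_iff (by norm_num) |>.mp this)
      · exfalso
        have hu : u = 1 / 2 := by
          have : k 7 * (u - 1 / 2) = 0 := by linarith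
          rcases mul_eq_zero.mp this with h | h
          · exact absurd h hB
          · linarith
        have hA : k 6 = 0 := by
          rw [hu] at e6
          linarith
        rw [hA] at e23
        have : k 7 ^ 2 = 0 := by linarith
        exact hB (pow_eq_zero_iff (by norm_num) |>.mp this)
    · have hu : u = - (1 / 2) := by
        have : k 5 * (- 2 * u - 1) = 0 := by linarith
        rcases mul_eq_zero.mp this with h | h
        · exact absurd h hq
        · linarith
      have hA : k 6 = 0 := by
        have : k 5 * k 6 = 0 := by linarith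
        rcases mul_eq_zero.mp this with h | h
        · exact absurd h hq
        · exact h
      have hB : k 7 = 0 := by
        have : k 5 * k 7 = 0 := by linarith
        rcases mul_eq_zero.mp this with h | h
        · exact absurd h hq
        · exact h
      have hv : v = 0 := by
        rw [hB] at e14
        have : k 5 * v = 0 := by linarith
        rcases mul_eq_zero.mp this with h | h
        · exact absurd h hq
        · exact h
      have hD : k 9 = - (k 5 * k 8) := by
        rw [hu] at e9
        linarith
      have hq2 : k 5 = - k 8 ^ 2 := by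
        rw [hB, hv] at e18
        linarith
      have hC : k 8 ≠ 0 := by
        intro hC
        rw [hC] at hq2
        apply hq
        rw [hq2]
        ring
      refine ⟨k 8, hC, Or.inr (Or.inr (Or.inr (hx_vec k _ _ _ _ _ _ _ _ _ _ k0 h1 h2 hp k4 hq2
        hA hB rfl ?_)))⟩
      rw [hD, hq2]
      ring
  · have hq : k 5 = 0 := by
      rcases mul_eq_zero.mp hpq with h | h
      · exact absurd h hp
      · exact h
    rw [hq] at e7 e8 e9 e13 e14 e18 e20 e21 e22 e25
    have hu : u = 1 / 2 := by
      have : k 3 * (2 * u - 1) = 0 := by linarith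
      rcases mul_eq_zero.mp this with h | h
      · exact absurd h hp
      · linarith
    have hD : k 9 = 0 := by
      have : k 3 * k 9 = 0 := by linarith
      rcases mul_eq_zero.mp this with h | h
      · exact absurd h hp
      · exact h
    have hC : k 8 = 0 := by
      have : k 3 * k 8 = 0 := by linarith
      rcases mul_eq_zero.mp this with h | h
      · exact absurd h hp
      · exact h
    have hA : k 6 = - (k 3 * k 7) := by
      rw [hu] at e6
      linarith
    have hv : v = - 2 * k 7 := by
      have : k 3 * (2 * k 7 + v) = 0 := by linarith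
      rcases mul_eq_zero.mp this with h | h
      · exact absurd h hp
      · linarith
    have hp2 : k 3 = - k 7 ^ 2 := by
      rw [hC, hv] at e16
      nlinarith
    have hB : k 7 ≠ 0 := by
      intro hB
      rw [hB] at hp2
      apply hp
      rw [hp2]
      ring
    refine ⟨k 7, hB, Or.inr (Or.inr (Or.inl (hx_vec k _ _ _ _ _ _ _ _ _ _ k0 h1 h2 hp2 k4 hq
      ?_ rfl hC hD)))⟩
    rw [hA, hp2]
    ring

end Pool.Agent.Helper190.NJ
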