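import Pool.Agent.Helper190.NJ.Defs

set_option autoImplicit false

/-!
Admissible collections of polynomials (linear Nijenhuis operators), `n = 3`.
-/

namespace Pool.Agent.Helper190.NJ
open MvPolynomial Matrix


theorem sub_hom (P : Matrix (Fin 3) (Fin 3) ℝ) (f : MvPolynomial (Fin 3) ℝ) (d : ℕ)
    (h : f.IsHomogeneous d) : (sub3 P f).IsHomogeneous d := by
  have hl : ∀ i, (lf P i).IsHomogeneous 1 := by
    intro i
    unfold lf
    refine MvPolynomial.IsHomogeneous.sum _ _ _ fun j _ => ?_
    have := (MvPolynomial.isHomogeneous_C (Fin 3) (P i j)).mul (MvPolynomial.isHomogeneous_X ℝ j)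
    simpa using this
  unfold sub3
  have h2 := h.aeval (fun i => lf P i) hl
  simpa using h2

end Pool.Agent.Helper190.NJ
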