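import Pool.Agent.Helper190.NJ.Defs

set_option autoImplicit false

/-!
Admissible collections of polynomials (linear Nijenhuis operators), `n = 3`.
-/

namespace Pool.Agent.Helper190.NJ
open MvPolynomial Matrix


theorem sub_pderiv (P : Matrix (Fin 3) (Fin 3) ℝ) (j : Fin 3) (f : MvPolynomial (Fin 3) ℝ) :
    pderiv j (sub3 P f) = ∑ i, sub3 P (pderiv i f) * C (P i j) := by
  classical
  have hX : ∀ n : Fin 3, sub3 P (X n) = lf P n := by
    intro n
    unfold sub3
    rw [aeval_X]
  have hlf : ∀ n : Fin 3, pderiv j (lf P n) = C (P n j) := by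
    intro n
    unfold lf
    rw [map_sum]
    rw [Finset.sum_eq_single j]
    · rw [pderiv_mul, pderiv_C, pderiv_X_self]
      simp
    · intro b _ hb
      rw [pderiv_mul, pderiv_C, pderiv_X_of_ne hb]
      simp
    · intro h
      exact absurd (Finset.mem_univ j) h
  induction f using MvPolynomial.induction_on with
  | C r =>
    have h1 : sub3 P (C r) = C r := by
      unfold sub3
      rw [aeval_C]
      rfl
    rw [h1, pderiv_C]
    simp
  | add p q hp hq =>
    rw [map_add, map_add, hp, hq, ← Finset.sum_add_distrib]
    refine Finset.sum_congr rfl (fun i _ => ?_)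
    rw [map_add, map_add]
    ring
  | mul_X p n hp =>
    rw [map_mul, pderiv_mul, hp, hX, hlf]
    have h2 : ∀ i : Fin 3, sub3 P (pderiv i (p * X n)) * C (P i j)
        = sub3 P (pderiv i p) * C (P i j) * lf P n
          + (if i = n then sub3 P p * C (P n j) else 0) := by
      intro i
      rw [pderiv_mul, map_add, map_mul, map_mul, hX]
      by_cases hin : i = n
      · subst hin
        rw [pderiv_X_self, map_one, if_pos rfl]
        ring
      · rw [pderiv_X_of_ne (Ne.symm hin), map_zero, if_neg hin]
        ring
    rw [Finset.sum_congr rfl (fun i _ => h2 i), Finset.sum_add_distrib, ← Finset.sum_mul,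
      Finset.sum_ite_eq' Finset.univ n, if_pos (Finset.mem_univ n)]

end Pool.Agent.Helper190.NJ
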