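import Pool.Agent.Helper190.NJ.Defs

set_option autoImplicit false

/-!
Admissible collections of polynomials (linear Nijenhuis operators), `n = 3`.
-/

namespace Pool.Agent.Helper190.NJ
open MvPolynomial Matrix


theorem ta1_cube (t : ℝ) : ∃ r : ℝ, r ^ 3 = t := by
  rcases le_total 0 t with h | h
  · refine ⟨t ^ ((1 : ℝ) / 3), ?_⟩
    rw [← Real.rpow_natCast, ← Real.rpow_mul h]
    norm_num
  · refine ⟨-((-t) ^ ((1 : ℝ) / 3)), ?_⟩
    have h1 : ((-t) ^ ((1 : ℝ) / 3)) ^ 3 = -t := by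
      rw [← Real.rpow_natCast, ← Real.rpow_mul (by linarith)]
      norm_num
    have h2 : (-((-t) ^ ((1 : ℝ) / 3))) ^ 3 = -(((-t) ^ ((1 : ℝ) / 3)) ^ 3) := by ring
    rw [h2, h1]
    ring

theorem ta1 (t : ℝ) (ht : t ≠ 0) : ∃ A : Matrix (Fin 3) (Fin 3) ℝ, A.det ≠ 0 ∧
    Fam (lf A 0) (lf A 1) (lf A 2)
      ![X 0, quadP ![0, 0, 0, 0, 1, 0], cubP ![0, 0, 0, 0, 0, 0, t, 0, 0, 0]] := by
  obtain ⟨r, hr⟩ := ta1_cube t
  have hr0 : r ≠ 0 := by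
    intro h
    rw [h] at hr
    apply ht
    rw [← hr]
    norm_num
  refine ⟨!![1, 0, 0; 0, r, 0; 0, 0, r⁻¹], ?_, ?_⟩
  · rw [Matrix.det_fin_three]
    simp [hr0]
  · have h0 : lf !![1, 0, 0; 0, r, 0; 0, 0, r⁻¹] 0 = X 0 := by
      simp [lf, Fin.sum_univ_three]
    have h1 : lf !![1, 0, 0; 0, r, 0; 0, 0, r⁻¹] 1 = C r * X 1 := by
      simp [lf, Fin.sum_univ_three]
    have h2 : lf !![1, 0, 0; 0, r, 0; 0, 0, r⁻¹] 2 = C r⁻¹ * X 2 := by
      simp [lf, Fin.sum_univ_three]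
    have hrr : (C r : MvPolynomial (Fin 3) ℝ) * C r⁻¹ = 1 := by
      rw [← C_mul, mul_inv_cancel₀ hr0, C_1]
    have e1 : quadP ![0, 0, 0, 0, 1, 0] = (C r * X 1) * (C r⁻¹ * X 2) := by
      have : (C r * X 1 : MvPolynomial (Fin 3) ℝ) * (C r⁻¹ * X 2) = (C r * C r⁻¹) * (X 1 * X 2) := by
        ring
      rw [this, hrr]
      simp [quadP]
    have e2 : cubP ![0, 0, 0, 0, 0, 0, t, 0, 0, 0] = (C r * X 1) ^ 3 := by
      rw [mul_pow, ← C_pow, hr]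
      simp [cubP]
    unfold Fam
    rw [h0, h1, h2, e1, e2]
    right; right; right; right; right; right; left
    rfl

end Pool.Agent.Helper190.NJ
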