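import Pool.Agent.Helper190.NJ.Defs

set_option autoImplicit false

/-!
Admissible collections of polynomials (linear Nijenhuis operators), `n = 3`.
-/

namespace Pool.Agent.Helper190.NJ
open MvPolynomial Matrix


theorem ta1b_root (t : ℝ) : ∃ r : ℝ, r ^ 3 = t := by
  rcases le_total 0 t with h | h
  · exact ⟨t ^ (((3 : ℕ) : ℝ)⁻¹), Real.rpow_inv_natCast_pow h (by norm_num)⟩
  · refine ⟨-((-t) ^ (((3 : ℕ) : ℝ)⁻¹)), ?_⟩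
    have h1 : ((-t) ^ (((3 : ℕ) : ℝ)⁻¹)) ^ 3 = -t :=
      Real.rpow_inv_natCast_pow (by linarith) (by norm_num)
    rw [Odd.neg_pow (by decide), h1, neg_neg]

theorem ta1b_lf (r : ℝ) :
    lf (!![1, 0, 0; 0, 0, r; 0, r⁻¹, 0] : Matrix (Fin 3) (Fin 3) ℝ) 0 = X 0 ∧
    lf (!![1, 0, 0; 0, 0, r; 0, r⁻¹, 0] : Matrix (Fin 3) (Fin 3) ℝ) 1 = C r * X 2 ∧
    lf (!![1, 0, 0; 0, 0, r; 0, r⁻¹, 0] : Matrix (Fin 3) (Fin 3) ℝ) 2 = C r⁻¹ * X 1 := by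
  refine ⟨?_, ?_, ?_⟩
  · simp [lf, Fin.sum_univ_three]
  · simp [lf, Fin.sum_univ_three]
  · simp [lf, Fin.sum_univ_three]

theorem ta1b_quad : quadP ![0, 0, 0, 0, 1, 0] = X 1 * X 2 := by
  have e0 : (![0, 0, 0, 0, 1, 0] : Fin 6 → ℝ) 0 = 0 := rfl
  have e1 : (![0, 0, 0, 0, 1, 0] : Fin 6 → ℝ) 1 = 0 := rfl
  have e2 : (![0, 0, 0, 0, 1, 0] : Fin 6 → ℝ) 2 = 0 := rfl
  have e3 : (![0, 0, 0, 0, 1, 0] : Fin 6 → ℝ) 3 = 0 := rfl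
  have e4 : (![0, 0, 0, 0, 1, 0] : Fin 6 → ℝ) 4 = 1 := rfl
  have e5 : (![0, 0, 0, 0, 1, 0] : Fin 6 → ℝ) 5 = 0 := rfl
  unfold quadP
  rw [e0, e1, e2, e3, e4, e5, C_0, C_1]
  ring

theorem ta1b_cub (t : ℝ) : cubP ![0, 0, 0, 0, 0, 0, 0, 0, 0, t] = C t * X 2 ^ 3 := by
  have e0 : (![0, 0, 0, 0, 0, 0, 0, 0, 0, t] : Fin 10 → ℝ) 0 = 0 := rfl
  have e1 : (![0, 0, 0, 0, 0, 0, 0, 0, 0, t] : Fin 10 → ℝ) 1 = 0 := rfl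
  have e2 : (![0, 0, 0, 0, 0, 0, 0, 0, 0, t] : Fin 10 → ℝ) 2 = 0 := rfl
  have e3 : (![0, 0, 0, 0, 0, 0, 0, 0, 0, t] : Fin 10 → ℝ) 3 = 0 := rfl
  have e4 : (![0, 0, 0, 0, 0, 0, 0, 0, 0, t] : Fin 10 → ℝ) 4 = 0 := rfl
  have e5 : (![0, 0, 0, 0, 0, 0, 0, 0, 0, t] : Fin 10 → ℝ) 5 = 0 := rfl
  have e6 : (![0, 0, 0, 0, 0, 0, 0, 0, 0, t] : Fin 10 → ℝ) 6 = 0 := rfl
  have e7 : (![0, 0, 0, 0, 0, 0, 0, 0, 0, t] : Fin 10 → ℝ) 7 = 0 := rfl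
  have e8 : (![0, 0, 0, 0, 0, 0, 0, 0, 0, t] : Fin 10 → ℝ) 8 = 0 := rfl
  have e9 : (![0, 0, 0, 0, 0, 0, 0, 0, 0, t] : Fin 10 → ℝ) 9 = t := rfl
  unfold cubP
  rw [e0, e1, e2, e3, e4, e5, e6, e7, e8, e9, C_0]
  ring

theorem ta1b (t : ℝ) (ht : t ≠ 0) : ∃ A : Matrix (Fin 3) (Fin 3) ℝ, A.det ≠ 0 ∧
    Fam (lf A 0) (lf A 1) (lf A 2)
      ![X 0, quadP ![0, 0, 0, 0, 1, 0], cubP ![0, 0, 0, 0, 0, 0, 0, 0, 0, t]] := by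
  obtain ⟨r, hr⟩ := ta1b_root t
  have hr0 : r ≠ 0 := by
    intro h
    apply ht
    rw [← hr, h]
    norm_num
  refine ⟨!![1, 0, 0; 0, 0, r; 0, r⁻¹, 0], ?_, ?_⟩
  · rw [Matrix.det_fin_three]
    simp [hr0]
  · obtain ⟨l0, l1, l2⟩ := ta1b_lf r
    rw [l0, l1, l2, ta1b_quad, ta1b_cub]
    right; right; right; right; right; right; left
    have e1 : (C r * X 2 * (C r⁻¹ * X 1) : MvPolynomial (Fin 3) ℝ) = X 1 * X 2 := by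
      have h1 : (C r * X 2 * (C r⁻¹ * X 1) : MvPolynomial (Fin 3) ℝ) =
          C r * C r⁻¹ * (X 1 * X 2) := by ring
      rw [h1, ← C_mul, mul_inv_cancel₀ hr0, C_1, one_mul]
    have e2 : ((C r * X 2) ^ 3 : MvPolynomial (Fin 3) ℝ) = C t * X 2 ^ 3 := by
      rw [mul_pow, ← C_pow, hr]
    rw [e1, e2]

end Pool.Agent.Helper190.NJ
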