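import Pool.Agent.Helper190.NJ.Defs

set_option autoImplicit false

/-!
Admissible collections of polynomials (linear Nijenhuis operators), `n = 3`.
-/

namespace Pool.Agent.Helper190.NJ
open MvPolynomial Matrix


theorem ta2 (t : ℝ) (ht : t ≠ 0) : ∃ A : Matrix (Fin 3) (Fin 3) ℝ, A.det ≠ 0 ∧
    Fam (lf A 0) (lf A 1) (lf A 2)
      ![X 0, quadP ![0, 0, 0, 0, 1, 0], cubP ![0, 0, 0, - t ^ 2, 0, 0, t ^ 3, t, 0, 0]] := by
  have hC : (C t : MvPolynomial (Fin 3) ℝ) * C (1 / t) = 1 := by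
    rw [← C_mul, mul_one_div_cancel ht, C_1]
  have h0 : lf !![0, t, 0; 1, -t, 0; -1, t, 1 / t] 0 = C t * X 1 := by
    simp [lf, Fin.sum_univ_three]
  have h1 : lf !![0, t, 0; 1, -t, 0; -1, t, 1 / t] 1 = X 0 - C t * X 1 := by
    simp [lf, Fin.sum_univ_three]
    ring
  have h2 : lf !![0, t, 0; 1, -t, 0; -1, t, 1 / t] 2 = - X 0 + C t * X 1 + C (1 / t) * X 2 := by
    simp [lf, Fin.sum_univ_three]
  have hq : quadP ![0, 0, 0, 0, 1, 0] = X 1 * X 2 := by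
    simp [quadP]
  have hc : cubP ![0, 0, 0, - t ^ 2, 0, 0, t ^ 3, t, 0, 0] =
      - (C t) ^ 2 * (X 0 * X 1 ^ 2) + (C t) ^ 3 * X 1 ^ 3 + C t * (X 1 ^ 2 * X 2) := by
    simp [cubP]
  refine ⟨!![0, t, 0; 1, -t, 0; -1, t, 1 / t], ?_, ?_⟩
  · rw [Matrix.det_fin_three]
    simp
    exact ht
  · rw [h0, h1, h2, hq, hc]
    unfold Fam
    iterate 7 right
    funext i
    fin_cases i
    · simp
    · show X 1 * X 2 = C t * X 1 * (X 0 - C t * X 1) + C t * X 1 * (- X 0 + C t * X 1 + C (1 / t) * X 2)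
      linear_combination (- (X 1 * X 2 : MvPolynomial (Fin 3) ℝ)) * hC
    · show - (C t) ^ 2 * (X 0 * X 1 ^ 2) + (C t) ^ 3 * X 1 ^ 3 + C t * (X 1 ^ 2 * X 2) =
        (C t * X 1) ^ 2 * (- X 0 + C t * X 1 + C (1 / t) * X 2)
      linear_combination (- (C t * X 1 ^ 2 * X 2 : MvPolynomial (Fin 3) ℝ)) * hC

end Pool.Agent.Helper190.NJ
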