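import Pool.Agent.Helper190.NJ.Defs

set_option autoImplicit false

/-!
Admissible collections of polynomials (linear Nijenhuis operators), `n = 3`.
-/

namespace Pool.Agent.Helper190.NJ
open MvPolynomial Matrix


theorem ta2b (t : ℝ) (ht : t ≠ 0) : ∃ A : Matrix (Fin 3) (Fin 3) ℝ, A.det ≠ 0 ∧
    Fam (lf A 0) (lf A 1) (lf A 2)
      ![X 0, quadP ![0, 0, 0, 0, 1, 0], cubP ![0, 0, 0, 0, 0, - t ^ 2, 0, 0, t, t ^ 3]] := by
  refine ⟨!![0, 0, t; 1, 0, -t; -1, 1 / t, t], ?_, ?_⟩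
  · rw [Matrix.det_fin_three]
    simp [ht]
  · have h0 : lf !![0, 0, t; 1, 0, -t; -1, 1 / t, t] 0 = C t * X 2 := by
      simp [lf, Fin.sum_univ_three]
    have h1 : lf !![0, 0, t; 1, 0, -t; -1, 1 / t, t] 1 = X 0 - C t * X 2 := by
      simp [lf, Fin.sum_univ_three]
      ring
    have h2 : lf !![0, 0, t; 1, 0, -t; -1, 1 / t, t] 2 = - X 0 + C (1 / t) * X 1 + C t * X 2 := by
      simp [lf, Fin.sum_univ_three]
    have hc : (C t * C (1 / t) : MvPolynomial (Fin 3) ℝ) = 1 := by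
      rw [← C_mul, mul_one_div_cancel ht, C_1]
    rw [h0, h1, h2]
    refine Or.inr (Or.inr (Or.inr (Or.inr (Or.inr (Or.inr (Or.inr ?_))))))
    funext i
    fin_cases i
    · simp
    · have e : quadP ![0, 0, 0, 0, 1, 0] = X 1 * X 2 := by
        simp [quadP]
      show quadP ![0, 0, 0, 0, 1, 0] = C t * X 2 * (X 0 - C t * X 2) +
        C t * X 2 * (- X 0 + C (1 / t) * X 1 + C t * X 2)
      rw [e]
      linear_combination (-(X 1 * X 2)) * hc
    · have e : cubP ![0, 0, 0, 0, 0, - t ^ 2, 0, 0, t, t ^ 3] =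
          - (C t) ^ 2 * (X 0 * X 2 ^ 2) + C t * (X 1 * X 2 ^ 2) + (C t) ^ 3 * X 2 ^ 3 := by
        simp [cubP]
      show cubP ![0, 0, 0, 0, 0, - t ^ 2, 0, 0, t, t ^ 3] = (C t * X 2) ^ 2 *
        (- X 0 + C (1 / t) * X 1 + C t * X 2)
      rw [e]
      linear_combination (-(C t * (X 1 * X 2 ^ 2))) * hc

end Pool.Agent.Helper190.NJ
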