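import Pool.Agent.Helper190.NJ.Defs

set_option autoImplicit false

/-!
Admissible collections of polynomials (linear Nijenhuis operators), `n = 3`.
-/

namespace Pool.Agent.Helper190.NJ
open MvPolynomial Matrix


theorem ta3 (t : ℝ) (ht : t ≠ 0) : ∃ A : Matrix (Fin 3) (Fin 3) ℝ, A.det ≠ 0 ∧
    Fam (lf A 0) (lf A 1) (lf A 2)
      ![X 0, quadP ![1 / 4, 0, 0, 0, 1, 0], cubP ![0, 0, 0, t ^ 2 / 2, 1 / 4, 1 / (32 * t ^ 2),
        t ^ 3, t / 4, - 1 / (16 * t), - 1 / (64 * t ^ 3)]] := by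
  refine ⟨!![1/2, t, -1/(4*t); 1/2, -t, 1/(4*t); 0, t, 1/(4*t)], ?_, ?_⟩
  · rw [Matrix.det_fin_three]
    have : !![1/2, t, -1/(4*t); 1/2, -t, 1/(4*t); 0, t, 1/(4*t)] 0 0 *
      !![1/2, t, -1/(4*t); 1/2, -t, 1/(4*t); 0, t, 1/(4*t)] 1 1 *
      !![1/2, t, -1/(4*t); 1/2, -t, 1/(4*t); 0, t, 1/(4*t)] 2 2 = (-1/8 : ℝ) := by
      simp
      field_simp
      norm_num
    simp
    field_simp
    norm_num
  · right; right; left
    funext i
    apply MvPolynomial.funext
    intro v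
    fin_cases i
    · simp [lf, Fin.sum_univ_three]
      field_simp
      ring
    · simp [lf, quadP, Fin.sum_univ_three]
      field_simp
      ring
    · simp [lf, cubP, Fin.sum_univ_three]
      field_simp
      ring

end Pool.Agent.Helper190.NJ
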