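import Pool.Agent.Helper190.NJ.Defs

set_option autoImplicit false

/-!
Admissible collections of polynomials (linear Nijenhuis operators), `n = 3`.
-/

namespace Pool.Agent.Helper190.NJ
open MvPolynomial Matrix


theorem ta5 (t : ℝ) (ht : t ≠ 0) : ∃ A : Matrix (Fin 3) (Fin 3) ℝ, A.det ≠ 0 ∧
    Fam (lf A 0) (lf A 1) (lf A 2)
      ![X 0, quadP ![1 / 3, 0, 0, 0, 1, 0], cubP ![1 / 27, 0, 0, 0, 1 / 3, 0,
        8 / 27 * t ^ 3, t / 2, - 3 / (32 * t), - 1 / (512 * t ^ 3)]] := by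
  obtain ⟨s, hs, hs0⟩ : ∃ s : ℝ, s ^ 2 = 3 ∧ s ≠ 0 :=
    ⟨Real.sqrt 3, Real.sq_sqrt (by norm_num), by positivity⟩
  refine ⟨!![1/3, 2*t/3, -(1/(8*t)); 1/3, -(4*t/3), 1/(4*t); 0, 2*t*s/3, s/(8*t)], ?_, ?_⟩
  · rw [Matrix.det_fin_three]
    have : (!![1/3, 2*t/3, -(1/(8*t)); 1/3, -(4*t/3), 1/(4*t); 0, 2*t*s/3, s/(8*t)] : Matrix (Fin 3) (Fin 3) ℝ) 0 0 = 1/3 := rfl
    have hd : (1/3 : ℝ) * (-(4*t/3)) * (s/(8*t)) - 1/3 * (1/(4*t)) * (2*t*s/3) - 2*t/3 * (1/3) * (s/(8*t))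
        + 2*t/3 * (1/(4*t)) * 0 + (-(1/(8*t))) * (1/3) * (2*t*s/3) - (-(1/(8*t))) * (-(4*t/3)) * 0 = -(s/6) := by
      field_simp
      ring
    have : (-(s/6)) ≠ 0 := by
      intro h
      apply hs0
      linarith
    rw [← hd] at this
    exact this
  · right; right; right; right; left
    funext i
    fin_cases i
    · apply MvPolynomial.funext
      intro v
      simp [lf, Fin.sum_univ_three]
      field_simp
      ring
    · apply MvPolynomial.funext
      intro v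
      simp [lf, quadP, Fin.sum_univ_three]
      have e : (2 * t * s / 3 * v 1 + s / (8 * t) * v 2)^2 = 3 * (2 * t / 3 * v 1 + 1 / (8 * t) * v 2)^2 := by
        rw [← hs]; ring
      rw [e]
      field_simp
      ring
    · apply MvPolynomial.funext
      intro v
      simp [lf, cubP, Fin.sum_univ_three]
      have e : (2 * t * s / 3 * v 1 + s / (8 * t) * v 2)^2 = 3 * (2 * t / 3 * v 1 + 1 / (8 * t) * v 2)^2 := by
        rw [← hs]; ring
      rw [e]
      field_simp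
      ring

end Pool.Agent.Helper190.NJ
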