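import Pool.Agent.Helper190.NJ.Defs

set_option autoImplicit false

/-!
Admissible collections of polynomials (linear Nijenhuis operators), `n = 3`.
-/

namespace Pool.Agent.Helper190.NJ
open MvPolynomial Matrix


theorem tb1 (t : ℝ) (ht : t ^ 2 = 1 / 8) : ∃ A : Matrix (Fin 3) (Fin 3) ℝ, A.det ≠ 0 ∧
    Fam (lf A 0) (lf A 1) (lf A 2)
      ![X 0, quadP ![1 / 4, 0, 0, -1 / 2, 0, -1 / 2],
        cubP ![0, 0, 0, - 1 / 4, 0, 0, 0, t, 0, 0]] := by
  obtain ⟨r, hr⟩ : ∃ r : ℝ, r ^ 2 = 1 / 2 := ⟨√(1 / 2), Real.sq_sqrt (by norm_num)⟩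
  have hr0 : r ≠ 0 := by
    intro h; rw [h] at hr; norm_num at hr
  have ht0 : t ≠ 0 := by
    intro h; rw [h] at ht; norm_num at ht
  obtain ⟨A, hA⟩ : ∃ A : Matrix (Fin 3) (Fin 3) ℝ,
    A = !![1 / 2, 0, -2 * t; 1 / 2, 0, 2 * t; 0, r, 0] := ⟨_, rfl⟩
  have a00 : A 0 0 = 1 / 2 := by rw [hA]; rfl
  have a01 : A 0 1 = 0 := by rw [hA]; rfl
  have a02 : A 0 2 = -2 * t := by rw [hA]; rfl
  have a10 : A 1 0 = 1 / 2 := by rw [hA]; rfl
  have a11 : A 1 1 = 0 := by rw [hA]; rfl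
  have a12 : A 1 2 = 2 * t := by rw [hA]; rfl
  have a20 : A 2 0 = 0 := by rw [hA]; rfl
  have a21 : A 2 1 = r := by rw [hA]; rfl
  have a22 : A 2 2 = 0 := by rw [hA]; rfl
  refine ⟨A, ?_, ?_⟩
  · rw [Matrix.det_fin_three, a00, a01, a02, a10, a11, a12, a20, a21, a22]
    intro h
    have h1 : r * t = 0 := by linarith
    rcases mul_eq_zero.1 h1 with h2 | h2
    · exact hr0 h2
    · exact ht0 h2
  · right; right; right; left
    have l0 : ∀ x : Fin 3 → ℝ, eval x (lf A 0) = 1 / 2 * x 0 - 2 * t * x 2 := by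
      intro x
      simp only [lf, Fin.sum_univ_three, map_add, map_mul, eval_C, eval_X, a00, a01, a02]
      ring
    have l1 : ∀ x : Fin 3 → ℝ, eval x (lf A 1) = 1 / 2 * x 0 + 2 * t * x 2 := by
      intro x
      simp only [lf, Fin.sum_univ_three, map_add, map_mul, eval_C, eval_X, a10, a11, a12]
      ring
    have l2 : ∀ x : Fin 3 → ℝ, eval x (lf A 2) = r * x 1 := by
      intro x
      simp only [lf, Fin.sum_univ_three, map_add, map_mul, eval_C, eval_X, a20, a21, a22]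
      ring
    have q0 : quadP ![1 / 4, 0, 0, -1 / 2, 0, -1 / 2] =
        C (1 / 4) * X 0 ^ 2 + C 0 * (X 0 * X 1) + C 0 * (X 0 * X 2) + C (-1 / 2) * X 1 ^ 2 +
        C 0 * (X 1 * X 2) + C (-1 / 2) * X 2 ^ 2 := rfl
    have c0 : cubP ![0, 0, 0, - 1 / 4, 0, 0, 0, t, 0, 0] =
        C 0 * X 0 ^ 3 + C 0 * (X 0 ^ 2 * X 1) + C 0 * (X 0 ^ 2 * X 2) +
        C (-1 / 4) * (X 0 * X 1 ^ 2) + C 0 * (X 0 * X 1 * X 2) + C 0 * (X 0 * X 2 ^ 2) +
        C 0 * X 1 ^ 3 + C t * (X 1 ^ 2 * X 2) + C 0 * (X 1 * X 2 ^ 2) + C 0 * X 2 ^ 3 := rfl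
    have e0 : (X 0 : MvPolynomial (Fin 3) ℝ) = lf A 0 + lf A 1 := by
      apply MvPolynomial.funext
      intro x
      simp only [map_add, eval_X, l0, l1]
      ring
    have e1 : quadP ![1 / 4, 0, 0, -1 / 2, 0, -1 / 2] = lf A 0 * lf A 1 - lf A 2 ^ 2 := by
      rw [q0]
      apply MvPolynomial.funext
      intro x
      simp only [map_add, map_sub, map_mul, map_pow, eval_X, eval_C, l0, l1, l2]
      linear_combination (-4 * x 2 ^ 2 * ht) * (-1) + (x 1 ^ 2 * hr) 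
    have e2 : cubP ![0, 0, 0, - 1 / 4, 0, 0, 0, t, 0, 0] = -(lf A 0 * lf A 2 ^ 2) := by
      rw [c0]
      apply MvPolynomial.funext
      intro x
      simp only [map_add, map_neg, map_mul, map_pow, eval_X, eval_C, l0, l2]
      linear_combination ((1 / 2 * x 0 - 2 * t * x 2) * x 1 ^ 2 * hr)
    rw [← e0, ← e1, ← e2]

end Pool.Agent.Helper190.NJ
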