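import Pool.Agent.Helper190.NJ.Defs

set_option autoImplicit false

/-!
Admissible collections of polynomials (linear Nijenhuis operators), `n = 3`.
-/

namespace Pool.Agent.Helper190.NJ
open MvPolynomial Matrix


theorem tb2 (t : ℝ) (ht : t ^ 2 = 1 / 8) : ∃ A : Matrix (Fin 3) (Fin 3) ℝ, A.det ≠ 0 ∧
    Fam (lf A 0) (lf A 1) (lf A 2)
      ![X 0, quadP ![1 / 4, 0, 0, -1 / 2, 0, -1 / 2],
        cubP ![0, 0, 0, 0, 0, - 1 / 4, 0, 0, t, 0]] := by
  have hr : (Real.sqrt 2)⁻¹ ^ 2 = 1 / 2 := by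
    rw [inv_pow, Real.sq_sqrt (by norm_num)]
    norm_num
  have hr0 : (Real.sqrt 2)⁻¹ ≠ 0 := by positivity
  have ht0 : t ≠ 0 := by
    rintro rfl
    norm_num at ht
  generalize (Real.sqrt 2)⁻¹ = r at hr hr0
  have e0 : ∀ x : Fin 3 → ℝ, eval x (lf !![1/2, -2*t, 0; 1/2, 2*t, 0; 0, 0, r] 0) =
      (1/2) * x 0 - 2 * t * x 1 := by
    intro x
    simp [lf, Fin.sum_univ_three]
    ring
  have e1 : ∀ x : Fin 3 → ℝ, eval x (lf !![1/2, -2*t, 0; 1/2, 2*t, 0; 0, 0, r] 1) =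
      (1/2) * x 0 + 2 * t * x 1 := by
    intro x
    simp [lf, Fin.sum_univ_three]
  have e2 : ∀ x : Fin 3 → ℝ, eval x (lf !![1/2, -2*t, 0; 1/2, 2*t, 0; 0, 0, r] 2) =
      r * x 2 := by
    intro x
    simp [lf, Fin.sum_univ_three]
  refine ⟨!![1/2, -2*t, 0; 1/2, 2*t, 0; 0, 0, r], ?_, ?_⟩
  · rw [Matrix.det_fin_three]
    simp
    intro h
    have h2 : (2 * t) * r = 0 := by linarith
    exact mul_ne_zero (mul_ne_zero two_ne_zero ht0) hr0 h2
  · right; right; right; left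
    funext i
    fin_cases i
    · apply MvPolynomial.funext
      intro x
      simp only [Fin.zero_eta, Matrix.cons_val_zero, map_add, eval_X, e0, e1]
      ring
    · apply MvPolynomial.funext
      intro x
      change eval x (quadP ![1 / 4, 0, 0, -1 / 2, 0, -1 / 2]) = eval x (_ * _ - _ ^ 2)
      rw [map_sub, map_mul, map_pow, e0, e1, e2]
      simp [quadP]
      linear_combination (4 * (x 1) ^ 2) * ht + (x 2) ^ 2 * hr
    · apply MvPolynomial.funext
      intro x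
      change eval x (cubP ![0, 0, 0, 0, 0, - 1 / 4, 0, 0, t, 0]) = eval x (-(_ * _ ^ 2))
      rw [map_neg, map_mul, map_pow, e0, e2]
      simp [cubP]
      linear_combination (((1/2) * x 0 - 2 * t * x 1) * (x 2) ^ 2) * hr

end Pool.Agent.Helper190.NJ
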