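import Pool.Agent.Helper190.NJ.Defs

set_option autoImplicit false

/-!
Admissible collections of polynomials (linear Nijenhuis operators), `n = 3`.
-/

namespace Pool.Agent.Helper190.NJ
open MvPolynomial Matrix


theorem tb3 (t : ℝ) (ht : t ^ 2 = 1 / 54) : ∃ A : Matrix (Fin 3) (Fin 3) ℝ, A.det ≠ 0 ∧
    Fam (lf A 0) (lf A 1) (lf A 2)
      ![X 0, quadP ![1 / 3, 0, 0, -1 / 2, 0, -1 / 2],
        cubP ![1 / 27, 0, 0, - 1 / 6, 0, - 1 / 6, 0, 3 * t, 0, - t]] := by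

  set r : ℝ := 1 / Real.sqrt 2 with hr
  have hs : r ^ 2 = 1 / 2 := by
    rw [hr, div_pow, one_pow, Real.sq_sqrt (by norm_num : (0 : ℝ) ≤ 2)]
  have hr0 : r ≠ 0 := by
    intro h; rw [h] at hs; norm_num at hs
  have ht0 : t ≠ 0 := by
    intro h; rw [h] at ht; norm_num at ht
  refine ⟨!![1/3, 0, -6 * t; 1/3, -r, 3 * t; 1/3, r, 3 * t], ?_, Or.inl ?_⟩
  · rw [Matrix.det_fin_three]
    simp only [Matrix.of_apply, Matrix.cons_val', Matrix.cons_val_zero, Matrix.cons_val_one,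
      Matrix.cons_val, Matrix.cons_val_fin_one]
    have : (1 / 3 : ℝ) * -r * (3 * t) - 1 / 3 * (3 * t) * r - 0 * (1 / 3) * (3 * t) +
        0 * (3 * t) * (1 / 3) + -6 * t * (1 / 3) * r - -6 * t * -r * (1 / 3) = -6 * (r * t) := by
      ring
    rw [this]
    exact mul_ne_zero (by norm_num) (mul_ne_zero hr0 ht0)
  · have h0 : lf !![1/3, 0, -6 * t; 1/3, -r, 3 * t; 1/3, r, 3 * t] 0 =
        C (1/3) * X 0 + C 0 * X 1 + C (-6 * t) * X 2 := by
      simp [lf, Fin.sum_univ_three]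
    have h1 : lf !![1/3, 0, -6 * t; 1/3, -r, 3 * t; 1/3, r, 3 * t] 1 =
        C (1/3) * X 0 + C (-r) * X 1 + C (3 * t) * X 2 := by
      simp [lf, Fin.sum_univ_three]
    have h2 : lf !![1/3, 0, -6 * t; 1/3, -r, 3 * t; 1/3, r, 3 * t] 2 =
        C (1/3) * X 0 + C r * X 1 + C (3 * t) * X 2 := by
      simp [lf, Fin.sum_univ_three]
    rw [h0, h1, h2]
    funext i
    apply MvPolynomial.funext
    intro v
    fin_cases i
    · simp
      ring
    · simp [quadP]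
      linear_combination (v 1) ^ 2 * hs + 27 * (v 2) ^ 2 * ht
    · simp [cubP]
      linear_combination (v 1) ^ 2 * (v 0 / 3 - 6 * t * v 2) * hs +
        (9 * v 0 * (v 2) ^ 2 + 54 * t * (v 2) ^ 3) * ht

end Pool.Agent.Helper190.NJ
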