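import Pool.Agent.Helper190.NJ.Defs

set_option autoImplicit false

/-!
Admissible collections of polynomials (linear Nijenhuis operators), `n = 3`.
-/

namespace Pool.Agent.Helper190.NJ
open MvPolynomial Matrix


theorem tb4 (t : ℝ) (ht : t ^ 2 = 1 / 24) : ∃ A : Matrix (Fin 3) (Fin 3) ℝ, A.det ≠ 0 ∧
    Fam (lf A 0) (lf A 1) (lf A 2)
      ![X 0, quadP ![1 / 3, 0, 0, -1 / 2, 0, -1 / 2],
        cubP ![1 / 27, 0, 0, - 1 / 6, 0, - 1 / 6, 0, t, 0, 2 * t / 3]] := by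
  obtain ⟨r, hr, hr0⟩ : ∃ r : ℝ, r ^ 2 = 1 / 2 ∧ r ≠ 0 := by
    refine ⟨(Real.sqrt 2)⁻¹, ?_, by positivity⟩
    rw [inv_pow, Real.sq_sqrt (by norm_num)]
    norm_num
  have ht0 : t ≠ 0 := by
    rintro rfl
    norm_num at ht
  refine ⟨!![1/3, 0, -2*t; 1/3, 0, 4*t; 0, r, 0], ?_, ?_⟩
  · have : (!![1/3, 0, -2*t; 1/3, 0, 4*t; 0, r, 0] : Matrix (Fin 3) (Fin 3) ℝ).det
        = -2 * (t * r) := by
      rw [Matrix.det_fin_three]
      simp
      ring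
    rw [this]
    exact mul_ne_zero (by norm_num) (mul_ne_zero ht0 hr0)
  · right; right; right; right; right; left
    have l0 : ∀ v : Fin 3 → ℝ, eval v (lf !![1/3, 0, -2*t; 1/3, 0, 4*t; 0, r, 0] 0) =
        1/3 * v 0 - 2 * t * v 2 := by
      intro v
      simp [lf, Fin.sum_univ_three]
      ring
    have l1 : ∀ v : Fin 3 → ℝ, eval v (lf !![1/3, 0, -2*t; 1/3, 0, 4*t; 0, r, 0] 1) =
        1/3 * v 0 + 4 * t * v 2 := by
      intro v
      simp [lf, Fin.sum_univ_three]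
    have l2 : ∀ v : Fin 3 → ℝ, eval v (lf !![1/3, 0, -2*t; 1/3, 0, 4*t; 0, r, 0] 2) =
        r * v 1 := by
      intro v
      simp [lf, Fin.sum_univ_three]
    generalize lf !![1/3, 0, -2*t; 1/3, 0, 4*t; 0, r, 0] 0 = p0 at l0 ⊢
    generalize lf !![1/3, 0, -2*t; 1/3, 0, 4*t; 0, r, 0] 1 = p1 at l1 ⊢
    generalize lf !![1/3, 0, -2*t; 1/3, 0, 4*t; 0, r, 0] 2 = p2 at l2 ⊢
    have e0 : (X 0 : MvPolynomial (Fin 3) ℝ) = 2 * p0 + p1 := by
      apply MvPolynomial.funext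
      intro v
      simp only [map_add, map_mul, map_ofNat, eval_X, l0, l1]
      ring
    have e1 : quadP ![1 / 3, 0, 0, -1 / 2, 0, -1 / 2] = p0 ^ 2 + 2 * p0 * p1 - p2 ^ 2 := by
      apply MvPolynomial.funext
      intro v
      have : eval v (quadP ![1 / 3, 0, 0, -1 / 2, 0, -1 / 2]) =
          1/3 * v 0 ^ 2 - 1/2 * v 1 ^ 2 - 1/2 * v 2 ^ 2 := by
        simp [quadP]
        ring
      rw [this]
      simp only [map_add, map_sub, map_mul, map_pow, map_ofNat, l0, l1, l2]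
      linear_combination v 1 ^ 2 * hr + 12 * v 2 ^ 2 * ht
    have e2 : cubP ![1 / 27, 0, 0, - 1 / 6, 0, - 1 / 6, 0, t, 0, 2 * t / 3] =
        p0 * (p0 * p1 - p2 ^ 2) := by
      apply MvPolynomial.funext
      intro v
      have : eval v (cubP ![1 / 27, 0, 0, - 1 / 6, 0, - 1 / 6, 0, t, 0, 2 * t / 3]) =
          1/27 * v 0 ^ 3 - 1/6 * (v 0 * v 1 ^ 2) - 1/6 * (v 0 * v 2 ^ 2) + t * (v 1 ^ 2 * v 2)
            + 2 * t / 3 * v 2 ^ 3 := by
        simp [cubP]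
        ring
      rw [this]
      simp only [map_sub, map_mul, map_pow, l0, l1, l2]
      linear_combination (v 0 * v 1 ^ 2 / 3 - 2 * t * v 1 ^ 2 * v 2) * hr +
        (4 * v 0 * v 2 ^ 2 - 16 * t * v 2 ^ 3) * ht
    rw [e1, e2, ← e0]

end Pool.Agent.Helper190.NJ
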