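import Pool.Agent.Helper190.NJ.P_adm_from
import Pool.Agent.Helper190.NJ.P_adm_to
import Pool.Agent.Helper190.NJ.P_alg_of_det
import Pool.Agent.Helper190.NJ.P_bin
import Pool.Agent.Helper190.NJ.P_det_of_alg
import Pool.Agent.Helper190.NJ.P_eqN1
import Pool.Agent.Helper190.NJ.P_eqN2
import Pool.Agent.Helper190.NJ.P_ext_cub
import Pool.Agent.Helper190.NJ.P_ext_lin
import Pool.Agent.Helper190.NJ.P_ext_quad
import Pool.Agent.Helper190.NJ.P_extract
import Pool.Agent.Helper190.NJ.P_fam_sub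
import Pool.Agent.Helper190.NJ.P_fb1
import Pool.Agent.Helper190.NJ.P_fb2
import Pool.Agent.Helper190.NJ.P_fb3
import Pool.Agent.Helper190.NJ.P_fb4
import Pool.Agent.Helper190.NJ.P_fb5
import Pool.Agent.Helper190.NJ.P_fb6
import Pool.Agent.Helper190.NJ.P_fb7
import Pool.Agent.Helper190.NJ.P_fb8
import Pool.Agent.Helper190.NJ.P_hcomp_mul
import Pool.Agent.Helper190.NJ.P_nf0
import Pool.Agent.Helper190.NJ.P_nf1
import Pool.Agent.Helper190.NJ.P_nfrot
import Pool.Agent.Helper190.NJ.P_noC3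
import Pool.Agent.Helper190.NJ.P_noC4
import Pool.Agent.Helper190.NJ.P_nondeg
import Pool.Agent.Helper190.NJ.P_nz1
import Pool.Agent.Helper190.NJ.P_nz2
import Pool.Agent.Helper190.NJ.P_rotz
import Pool.Agent.Helper190.NJ.P_s1q
import Pool.Agent.Helper190.NJ.P_s1t
import Pool.Agent.Helper190.NJ.P_s1z
import Pool.Agent.Helper190.NJ.P_s2q
import Pool.Agent.Helper190.NJ.P_s2t
import Pool.Agent.Helper190.NJ.P_s2z
import Pool.Agent.Helper190.NJ.P_sub_adm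
import Pool.Agent.Helper190.NJ.P_sub_comp
import Pool.Agent.Helper190.NJ.P_sub_hom
import Pool.Agent.Helper190.NJ.P_sub_lf
import Pool.Agent.Helper190.NJ.P_sub_one
import Pool.Agent.Helper190.NJ.P_sub_pderiv
import Pool.Agent.Helper190.NJ.P_sub_quad
import Pool.Agent.Helper190.NJ.P_ta1
import Pool.Agent.Helper190.NJ.P_ta1b
import Pool.Agent.Helper190.NJ.P_ta2
import Pool.Agent.Helper190.NJ.P_ta2b
import Pool.Agent.Helper190.NJ.P_ta3
import Pool.Agent.Helper190.NJ.P_ta4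
import Pool.Agent.Helper190.NJ.P_ta5
import Pool.Agent.Helper190.NJ.P_tb1
import Pool.Agent.Helper190.NJ.P_tb2
import Pool.Agent.Helper190.NJ.P_tb3
import Pool.Agent.Helper190.NJ.P_tb4

set_option autoImplicit false

namespace Pool.Agent.Helper190.NJ

open MvPolynomial Matrix

theorem back (P : Matrix (Fin 3) (Fin 3) ℝ) (hP : P.det ≠ 0)
    (s : Fin 3 → MvPolynomial (Fin 3) ℝ)
    (h : ∃ A : Matrix (Fin 3) (Fin 3) ℝ, A.det ≠ 0 ∧
      Fam (lf A 0) (lf A 1) (lf A 2) (fun i => sub3 P (s i))) :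
    ∃ A : Matrix (Fin 3) (Fin 3) ℝ, A.det ≠ 0 ∧ Fam (lf A 0) (lf A 1) (lf A 2) s := by
  obtain ⟨A, hA, hF⟩ := h
  have hu : IsUnit P.det := isUnit_iff_ne_zero.2 hP
  refine ⟨A * P⁻¹, ?_, ?_⟩
  · rw [Matrix.det_mul, Matrix.det_nonsing_inv]
    refine mul_ne_zero hA ?_
    rw [Ring.inverse_eq_inv']
    exact inv_ne_zero hP
  · have h2 := fam_sub P⁻¹ _ _ _ _ hF
    rw [sub_lf, sub_lf, sub_lf] at h2
    have h3 : (fun i => sub3 P⁻¹ ((fun i => sub3 P (s i)) i)) = s := by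
      funext i
      show sub3 P⁻¹ (sub3 P (s i)) = s i
      rw [sub_comp, Matrix.mul_nonsing_inv _ hu, sub_one]
    rw [h3] at h2
    exact h2

theorem vec3 (s : Fin 3 → MvPolynomial (Fin 3) ℝ) (a b c : MvPolynomial (Fin 3) ℝ)
    (h0 : s 0 = a) (h1 : s 1 = b) (h2 : s 2 = c) : s = ![a, b, c] := by
  funext i
  fin_cases i
  · exact h0
  · exact h1
  · exact h2

theorem asplit (a k0 : ℝ) (h1 : 4 * a ^ 2 - a - 3 * k0 = 0) (h2 : 6 * a * k0 - 2 * k0 = 0) :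
    a = 0 ∨ a = 1 / 4 ∨ a = 1 / 3 := by
  have h3 : k0 * (6 * a - 2) = 0 := by linarith
  rcases mul_eq_zero.1 h3 with h | h
  · subst h
    have h4 : a * (4 * a - 1) = 0 := by linarith
    rcases mul_eq_zero.1 h4 with h | h
    · exact Or.inl h
    · exact Or.inr (Or.inl (by linarith))
  · exact Or.inr (Or.inr (by linarith))

theorem core2 (a : ℝ) (s : Fin 3 → MvPolynomial (Fin 3) ℝ) (h : Adm' s) (h0 : s 0 = X 0)
    (h1 : s 1 = quadP ![a, 0, 0, 0, 1, 0]) :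
    ∃ A : Matrix (Fin 3) (Fin 3) ℝ, A.det ≠ 0 ∧ Fam (lf A 0) (lf A 1) (lf A 2) s := by
  obtain ⟨k, h2⟩ := ext_cub (s 2) (h.2.1 2)
  obtain ⟨⟨m, hm⟩, hnz⟩ := extract s h _ k h0 h1 h2
  have he := eqN2 a k m hm
  have hn := nz2 a k he.1 he.2.1 hnz
  have hs := vec3 s _ _ _ h0 h1 h2
  obtain ⟨_, _, u, v, w, e1, e2, _⟩ := id he
  rcases asplit a (k 0) e1 e2 with ha | ha | ha
  · subst ha
    obtain ⟨t, ht, hk | hk | hk | hk⟩ := s2z k he hn
    · rw [hs, hk]; exact ta1 t ht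
    · rw [hs, hk]; exact ta1b t ht
    · rw [hs, hk]; exact ta2 t ht
    · rw [hs, hk]; exact ta2b t ht
  · subst ha
    obtain ⟨t, ht, hk⟩ := s2q k he hn
    rw [hs, hk]; exact ta3 t ht
  · subst ha
    obtain ⟨t, ht, hk | hk⟩ := s2t k he hn
    · rw [hs, hk]; exact ta4 t ht
    · rw [hs, hk]; exact ta5 t ht

theorem core1 (a c : ℝ) (hc : c = 1 ∨ c = -1) (s : Fin 3 → MvPolynomial (Fin 3) ℝ) (h : Adm' s)
    (h0 : s 0 = X 0) (h1 : s 1 = quadP ![a, 0, 0, c / 2, 0, c / 2]) :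
    ∃ A : Matrix (Fin 3) (Fin 3) ℝ, A.det ≠ 0 ∧ Fam (lf A 0) (lf A 1) (lf A 2) s := by
  obtain ⟨k0, h2'⟩ := ext_cub (s 2) (h.2.1 2)
  obtain ⟨P, hP, p0, p1, k, p2, h6⟩ := nfrot a c k0
  refine back P hP s ?_
  have h' := sub_adm P hP s h
  set s' : Fin 3 → MvPolynomial (Fin 3) ℝ := fun i => sub3 P (s i) with hs'
  have g0 : s' 0 = X 0 := by rw [hs']; simp only [h0, p0]
  have g1 : s' 1 = quadP ![a, 0, 0, c / 2, 0, c / 2] := by rw [hs']; simp only [h1, p1]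
  have g2 : s' 2 = cubP k := by rw [hs']; simp only [h2', p2]
  obtain ⟨⟨m, hm⟩, hnz⟩ := extract s' h' _ k g0 g1 g2
  have he := eqN1 a c hc k m hm
  have hn := nz1 a c k he.1 he.2.1 hnz
  have hs := vec3 s' _ _ _ g0 g1 g2
  obtain ⟨_, _, u, v, w, e1, e2, _⟩ := id he
  rcases asplit a (k 0) e1 e2 with ha | ha | ha
  · subst ha
    exact absurd (s1z c hc k he h6 hn) id
  · subst ha
    obtain ⟨hc1, t, ht, hk | hk⟩ := s1q c hc k he h6 hn
    · rw [hs, hk, hc1]; exact tb1 t ht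
    · rw [hs, hk, hc1]; exact tb2 t ht
  · subst ha
    obtain ⟨hc1, t, ⟨ht, hk⟩ | ⟨ht, hk⟩⟩ := s1t c hc k he h6 hn
    · rw [hs, hk, hc1]; exact tb3 t ht
    · rw [hs, hk, hc1]; exact tb4 t ht

theorem only_if (s : Fin 3 → MvPolynomial (Fin 3) ℝ) (h : Adm' s) :
    ∃ A : Matrix (Fin 3) (Fin 3) ℝ, A.det ≠ 0 ∧ Fam (lf A 0) (lf A 1) (lf A 2) s := by
  obtain ⟨P, hP, hP0⟩ := nf0 s h
  refine back P hP s ?_
  have h' := sub_adm P hP s h
  have g0 : (fun i => sub3 P (s i)) 0 = X 0 := hP0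
  obtain ⟨q, g1⟩ := ext_quad ((fun i => sub3 P (s i)) 1) (h'.2.1 1)
  have hq := nondeg _ h' q g0 g1
  obtain ⟨Q, hQ, hQ0, hcase⟩ := nf1 q hq
  refine back Q hQ _ ?_
  have h'' := sub_adm Q hQ _ h'
  set s2 : Fin 3 → MvPolynomial (Fin 3) ℝ :=
    fun i => sub3 Q ((fun i => sub3 P (s i)) i) with hs2
  have f0 : s2 0 = X 0 := by rw [hs2]; simp only [hP0, hQ0]
  have f1 : s2 1 = sub3 Q (quadP q) := by
    show sub3 Q (sub3 P (s 1)) = _
    rw [show sub3 P (s 1) = quadP q from g1]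
  rcases hcase with ⟨a, c, hc, hh⟩ | ⟨a, hh⟩ | ⟨a, b, c, hc, hh⟩ | ⟨a, b, hb, hh⟩
  · exact core1 a c hc s2 h'' f0 (f1.trans hh)
  · exact core2 a s2 h'' f0 (f1.trans hh)
  · obtain ⟨k, h2⟩ := ext_cub (s2 2) (h''.2.1 2)
    obtain ⟨⟨m, hm⟩, hnz⟩ := extract s2 h'' _ k f0 (f1.trans hh) h2
    exact absurd (noC3 a b c hc k m hm hnz) id
  · obtain ⟨k, h2⟩ := ext_cub (s2 2) (h''.2.1 2)
    obtain ⟨⟨m, hm⟩, hnz⟩ := extract s2 h'' _ k f0 (f1.trans hh) h2
    exact absurd (noC4 a b hb k m hm hnz) id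

theorem sub_X (A : Matrix (Fin 3) (Fin 3) ℝ) (i : Fin 3) : sub3 A (X i) = lf A i := by
  simp [sub3]

theorem if_dir (A : Matrix (Fin 3) (Fin 3) ℝ) (hA : A.det ≠ 0)
    (s : Fin 3 → MvPolynomial (Fin 3) ℝ) (h : Fam (lf A 0) (lf A 1) (lf A 2) s) : Adm' s := by
  have key : ∀ f0 f1 f2 : MvPolynomial (Fin 3) ℝ, Adm' ![f0, f1, f2] →
      Adm' ![sub3 A f0, sub3 A f1, sub3 A f2] := by
    intro f0 f1 f2 hf
    have h1 := sub_adm A hA _ hf
    have h2 : (fun i => sub3 A (![f0, f1, f2] i)) = ![sub3 A f0, sub3 A f1, sub3 A f2] := by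
      funext i; fin_cases i <;> rfl
    rw [h2] at h1
    exact h1
  rcases h with h | h | h | h | h | h | h | h <;> subst h
  · have := key _ _ _ fb1
    simpa only [map_add, map_mul, sub_X] using this
  · have := key _ _ _ fb2
    simpa only [map_add, map_mul, map_pow, map_ofNat, sub_X] using this
  · have := key _ _ _ fb3
    simpa only [map_add, map_mul, map_pow, map_ofNat, sub_X] using this
  · have := key _ _ _ fb4
    simpa only [map_add, map_mul, map_pow, map_sub, map_neg, map_ofNat, sub_X] using this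
  · have := key _ _ _ fb5
    simpa only [map_add, map_mul, map_pow, map_ofNat, sub_X] using this
  · have := key _ _ _ fb6
    simpa only [map_add, map_mul, map_pow, map_sub, map_ofNat, sub_X] using this
  · have := key _ _ _ fb7
    simpa only [map_add, map_mul, map_pow, map_ofNat, sub_X] using this
  · have := key _ _ _ fb8
    simpa only [map_add, map_mul, map_pow, map_ofNat, sub_X] using this

theorem class3 (s : Fin 3 → MvPolynomial (Fin 3) ℝ) :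
    Admissible s ↔ ∃ A : Matrix (Fin 3) (Fin 3) ℝ, A.det ≠ 0 ∧
      Fam (lf A 0) (lf A 1) (lf A 2) s :=
  ⟨fun h => only_if s (adm_to s h), fun ⟨A, hA, h⟩ => adm_from s (if_dir A hA s h)⟩

end Pool.Agent.Helper190.NJ
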