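import Pool.Agent.Helper190.NJ.Defs
import Pool.Agent.Helper190.NJ.P_alg_of_det

set_option autoImplicit false

/-!
Admissible collections of polynomials (linear Nijenhuis operators), `n = 3`.
-/

namespace Pool.Agent.Helper190.NJ
open MvPolynomial Matrix


theorem adm_from (s : Fin 3 → MvPolynomial (Fin 3) ℝ) (h : Adm' s) : Admissible s := by
  obtain ⟨h1, h2, L, _, hL⟩ := h
  refine ⟨alg_of_det s h1, h2, fun i j => ?_⟩
  have e : (jac s).adjugate * cmat s * jac s = (jac s).det • L := by
    rw [Matrix.mul_assoc, ← hL, ← Matrix.mul_assoc, Matrix.adjugate_mul, Matrix.smul_mul,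
      Matrix.one_mul]
  rw [e, Matrix.smul_apply, smul_eq_mul]
  exact Dvd.intro _ rfl

end Pool.Agent.Helper190.NJ
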