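import Pool.Agent.Helper190.NJ.Defs

set_option autoImplicit false

/-!
Admissible collections of polynomials (linear Nijenhuis operators), `n = 3`.
-/

namespace Pool.Agent.Helper190.NJ
open MvPolynomial Matrix


theorem fam_sub (P : Matrix (Fin 3) (Fin 3) ℝ) (a b c : MvPolynomial (Fin 3) ℝ)
    (s : Fin 3 → MvPolynomial (Fin 3) ℝ) (h : Fam a b c s) :
    Fam (sub3 P a) (sub3 P b) (sub3 P c) (fun i => sub3 P (s i)) := by
  have e : ∀ (x y z : MvPolynomial (Fin 3) ℝ),
      (fun i => sub3 P (![x, y, z] i)) = ![sub3 P x, sub3 P y, sub3 P z] := by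
    intro x y z
    funext i
    fin_cases i <;> rfl
  have h2 : sub3 P (2 : MvPolynomial (Fin 3) ℝ) = 2 := map_ofNat _ 2
  rcases h with h | h | h | h | h | h | h | h
  · exact Or.inl (by rw [h, e]; simp only [map_add, map_mul])
  · exact Or.inr (Or.inl (by rw [h, e]; simp only [map_add, map_mul, map_pow, h2]))
  · exact Or.inr (Or.inr (Or.inl (by rw [h, e]; simp only [map_add, map_mul, map_pow])))
  · exact Or.inr (Or.inr (Or.inr (Or.inl
      (by rw [h, e]; simp only [map_add, map_mul, map_pow, map_sub, map_neg]))))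
  · exact Or.inr (Or.inr (Or.inr (Or.inr (Or.inl
      (by rw [h, e]; simp only [map_add, map_mul, map_pow, map_sub, map_neg, h2])))))
  · exact Or.inr (Or.inr (Or.inr (Or.inr (Or.inr (Or.inl
      (by rw [h, e]; simp only [map_add, map_mul, map_pow, map_sub, map_neg, h2]))))))
  · exact Or.inr (Or.inr (Or.inr (Or.inr (Or.inr (Or.inr (Or.inl
      (by rw [h, e]; simp only [map_mul, map_pow])))))))
  · exact Or.inr (Or.inr (Or.inr (Or.inr (Or.inr (Or.inr (Or.inr
      (by rw [h, e]; simp only [map_add, map_mul, map_pow])))))))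

end Pool.Agent.Helper190.NJ
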