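import Pool.Agent.Helper190.NJ.Defs

set_option autoImplicit false

/-!
Admissible collections of polynomials (linear Nijenhuis operators), `n = 3`.
-/

namespace Pool.Agent.Helper190.NJ
open MvPolynomial Matrix


theorem noC3 (a b c : ℝ) (hc : c ≠ 0) (k : Fin 10 → ℝ) (m : Fin 2 → Fin 3 → Fin 3 → ℝ)
    (h : Eqs ![a, 0, b, c, 0, 0] k m) (hn : Nz ![a, 0, b, c, 0, 0] k) : False := by
  have q0 : (![a, 0, b, c, 0, 0] : Fin 6 → ℝ) 0 = a := rfl
  have q1 : (![a, 0, b, c, 0, 0] : Fin 6 → ℝ) 1 = 0 := rfl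
  have q2 : (![a, 0, b, c, 0, 0] : Fin 6 → ℝ) 2 = b := rfl
  have q3 : (![a, 0, b, c, 0, 0] : Fin 6 → ℝ) 3 = c := rfl
  have q4 : (![a, 0, b, c, 0, 0] : Fin 6 → ℝ) 4 = 0 := rfl
  have q5 : (![a, 0, b, c, 0, 0] : Fin 6 → ℝ) 5 = 0 := rfl
  have E1 : ∀ x y z : ℝ, (2 * a * x + b * z) * (2 * a * x + b * z - x)
      + (2 * c * y) * (m 0 0 0 * x + m 0 0 1 * y + m 0 0 2 * z)
      + (b * x) * (m 1 0 0 * x + m 1 0 1 * y + m 1 0 2 * z)
      = 3 * k 0 * x ^ 2 + 2 * k 1 * (x * y) + 2 * k 2 * (x * z) + k 3 * y ^ 2 + k 4 * (y * z)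
        + k 5 * z ^ 2 - (a * x ^ 2 + b * (x * z) + c * y ^ 2) := by
    intro x y z
    have e := (h x y z).1
    simp only [qx, qy, qz, qv, cx, ln, q0, q1, q2, q3, q4, q5] at e
    linear_combination e
  have E2 : ∀ x y z : ℝ, (2 * a * x + b * z) * (2 * c * y)
      + (2 * c * y) * (m 0 1 0 * x + m 0 1 1 * y + m 0 1 2 * z)
      + (b * x) * (m 1 1 0 * x + m 1 1 1 * y + m 1 1 2 * z)
      = k 1 * x ^ 2 + 2 * k 3 * (x * y) + k 4 * (x * z) + 3 * k 6 * y ^ 2 + 2 * k 7 * (y * z)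
        + k 8 * z ^ 2 := by
    intro x y z
    have e := (h x y z).2.1
    simp only [qx, qy, qz, cy, ln, q0, q1, q2, q3, q4, q5] at e
    linear_combination e
  have E3 : ∀ x y z : ℝ, (2 * a * x + b * z) * (b * x)
      + (2 * c * y) * (m 0 2 0 * x + m 0 2 1 * y + m 0 2 2 * z)
      + (b * x) * (m 1 2 0 * x + m 1 2 1 * y + m 1 2 2 * z)
      = k 2 * x ^ 2 + k 4 * (x * y) + 2 * k 5 * (x * z) + k 7 * y ^ 2 + 2 * k 8 * (y * z)
        + 3 * k 9 * z ^ 2 := by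
    intro x y z
    have e := (h x y z).2.2.1
    simp only [qx, qy, qz, cz, ln, q0, q1, q2, q3, q4, q5] at e
    linear_combination e
  have E5 : ∀ x y z : ℝ, (3 * k 0 * x ^ 2 + 2 * k 1 * (x * y) + 2 * k 2 * (x * z) + k 3 * y ^ 2
        + k 4 * (y * z) + k 5 * z ^ 2) * (2 * c * y)
      + (k 1 * x ^ 2 + 2 * k 3 * (x * y) + k 4 * (x * z) + 3 * k 6 * y ^ 2 + 2 * k 7 * (y * z)
        + k 8 * z ^ 2) * (m 0 1 0 * x + m 0 1 1 * y + m 0 1 2 * z)
      + (k 2 * x ^ 2 + k 4 * (x * y) + 2 * k 5 * (x * z) + k 7 * y ^ 2 + 2 * k 8 * (y * z)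
        + 3 * k 9 * z ^ 2) * (m 1 1 0 * x + m 1 1 1 * y + m 1 1 2 * z) = 0 := by
    intro x y z
    have e := (h x y z).2.2.2.2.1
    simp only [qy, cx, cy, cz, ln, q0, q1, q2, q3, q4, q5] at e
    linear_combination e
  -- consequences at `x = 0`
  have k8 : k 8 = 0 := by
    have := E2 0 0 1
    linarith
  have k9 : k 9 = 0 := by
    have := E3 0 0 1
    linarith
  have k5 : k 5 = b ^ 2 := by
    have := E1 0 0 1
    linear_combination -this
  have hm : 2 * b * c + 2 * c * m 0 1 2 = 2 * k 7 := by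
    have h1 := E2 0 1 1
    have h2 := E2 0 1 0
    linear_combination h1 - h2 + k8
  have hy : 2 * c * k 5 + 2 * k 7 * m 0 1 2 = 0 := by
    have h1 := E5 0 1 1
    have h2 := E5 0 1 (-1)
    have h3 := E5 0 1 0
    rw [k8, k9] at h1 h2 h3
    linear_combination (1/2) * h1 + (1/2) * h2 - h3
  have hkey : b ^ 2 * c ^ 2 + k 7 ^ 2 - b * c * k 7 = 0 := by
    rw [k5] at hy
    linear_combination (c / 2) * hy - (k 7 / 2) * hm
  have hbc : b * c = 0 := by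
    nlinarith [sq_nonneg (k 7 - b * c / 2), sq_nonneg (b * c)]
  have k7 : k 7 = 0 := by
    have : k 7 ^ 2 = 0 := by
      linear_combination hkey - (b * c - k 7) * hbc
    exact pow_eq_zero_iff (two_ne_zero) |>.mp this
  have hb : b = 0 := by
    rcases mul_eq_zero.mp hbc with h1 | h1
    · exact h1
    · exact absurd h1 hc
  subst hb
  have k2 : k 2 = 0 := by
    have := E3 1 0 0
    linarith
  have k5' : k 5 = 0 := by
    rw [k5]; ring
  have k4 : k 4 = 0 := by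
    have h1 := E2 1 0 1
    have h2 := E2 1 0 0
    linarith
  obtain ⟨x, y, z, hxyz⟩ := hn
  apply hxyz
  simp only [qy, qz, cy, cz, q0, q1, q2, q3, q4, q5]
  rw [k2, k4, k5', k7, k8, k9]
  ring

end Pool.Agent.Helper190.NJ
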