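import Pool.Agent.Helper190.NJ.Defs
import Pool.Agent.Helper190.NJ.P_sub_pderiv
import Pool.Agent.Helper190.NJ.P_sub_comp
import Pool.Agent.Helper190.NJ.P_sub_one
import Pool.Agent.Helper190.NJ.P_sub_hom

set_option autoImplicit false

/-!
Admissible collections of polynomials (linear Nijenhuis operators), `n = 3`.
-/

namespace Pool.Agent.Helper190.NJ
open MvPolynomial Matrix


theorem sub_adm_aux_jac (P : Matrix (Fin 3) (Fin 3) ℝ)
    (s : Fin 3 → MvPolynomial (Fin 3) ℝ) :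
    jac (fun i => sub3 P (s i)) =
      (jac s).map (sub3 P).toRingHom * P.map (C : ℝ →+* MvPolynomial (Fin 3) ℝ) := by
  ext1 i j
  rw [Matrix.mul_apply]
  simp only [jac, Matrix.of_apply, Matrix.map_apply]
  rw [sub_pderiv]
  rfl

theorem sub_adm_aux_cmat (P : Matrix (Fin 3) (Fin 3) ℝ)
    (s : Fin 3 → MvPolynomial (Fin 3) ℝ) :
    cmat (fun i => sub3 P (s i)) = (cmat s).map (sub3 P).toRingHom := by
  ext1 i j
  simp only [cmat, Matrix.of_apply, Matrix.map_apply]
  split_ifs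
  · rw [map_neg]
    rfl
  · rw [map_one]
  · rw [map_zero]

theorem sub_adm_aux_inj (P : Matrix (Fin 3) (Fin 3) ℝ) (hP : P.det ≠ 0)
    (f : MvPolynomial (Fin 3) ℝ) (hf : f ≠ 0) : sub3 P f ≠ 0 := by
  intro h
  apply hf
  have h1 : sub3 P⁻¹ (sub3 P f) = f := by
    rw [sub_comp, Matrix.mul_nonsing_inv P (isUnit_iff_ne_zero.mpr hP), sub_one]
  rw [← h1, h, map_zero]

theorem sub_adm (P : Matrix (Fin 3) (Fin 3) ℝ) (hP : P.det ≠ 0)
    (s : Fin 3 → MvPolynomial (Fin 3) ℝ) (h : Adm' s) : Adm' (fun i => sub3 P (s i)) := by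
  obtain ⟨hdet, hhom, L, hL, heq⟩ := h
  have hPC : (P.map (C : ℝ →+* MvPolynomial (Fin 3) ℝ)) *
      (P⁻¹.map (C : ℝ →+* MvPolynomial (Fin 3) ℝ)) = 1 := by
    rw [← Matrix.map_mul, Matrix.mul_nonsing_inv P (isUnit_iff_ne_zero.mpr hP)]
    exact Matrix.map_one _ (map_zero _) (map_one _)
  refine ⟨?_, fun k => sub_hom P _ _ (hhom k), P⁻¹.map (C : ℝ →+* MvPolynomial (Fin 3) ℝ) *
    (L.map (sub3 P).toRingHom) * P.map (C : ℝ →+* MvPolynomial (Fin 3) ℝ), ?_, ?_⟩
  · rw [sub_adm_aux_jac, Matrix.det_mul]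
    apply mul_ne_zero
    · have h1 : ((jac s).map (sub3 P).toRingHom).det = (sub3 P).toRingHom ((jac s).det) := by
        rw [RingHom.map_det]
        rfl
      rw [h1]
      exact sub_adm_aux_inj P hP _ hdet
    · have h2 : (P.map (C : ℝ →+* MvPolynomial (Fin 3) ℝ)).det =
          (C : ℝ →+* MvPolynomial (Fin 3) ℝ) P.det := by
        rw [RingHom.map_det]
        rfl
      rw [h2]
      intro h3
      exact hP ((map_eq_zero_iff _ (C_injective (Fin 3) ℝ)).mp h3)
  · intro i j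
    rw [Matrix.mul_apply]
    apply IsHomogeneous.sum
    intro k _
    have h1 : ((P⁻¹.map (C : ℝ →+* MvPolynomial (Fin 3) ℝ) *
        (L.map (sub3 P).toRingHom)) i k).IsHomogeneous 1 := by
      rw [Matrix.mul_apply]
      apply IsHomogeneous.sum
      intro l _
      have h2 : ((L.map (sub3 P).toRingHom) l k).IsHomogeneous 1 := sub_hom P _ _ (hL l k)
      have h3 := (isHomogeneous_C (Fin 3) (P⁻¹ i l)).mul h2
      rw [zero_add] at h3
      exact h3
    have h4 := h1.mul (isHomogeneous_C (Fin 3) (P k j))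
    rw [add_zero] at h4
    exact h4
  · rw [sub_adm_aux_jac, sub_adm_aux_cmat]
    have h5 : ((jac s).map (sub3 P).toRingHom) * (L.map (sub3 P).toRingHom) =
        ((cmat s).map (sub3 P).toRingHom) * ((jac s).map (sub3 P).toRingHom) := by
      rw [← Matrix.map_mul, ← Matrix.map_mul, heq]
    calc ((jac s).map (sub3 P).toRingHom) * P.map (C : ℝ →+* MvPolynomial (Fin 3) ℝ) *
          (P⁻¹.map (C : ℝ →+* MvPolynomial (Fin 3) ℝ) * (L.map (sub3 P).toRingHom) *
            P.map (C : ℝ →+* MvPolynomial (Fin 3) ℝ))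
        = ((jac s).map (sub3 P).toRingHom) * (P.map (C : ℝ →+* MvPolynomial (Fin 3) ℝ) *
          P⁻¹.map (C : ℝ →+* MvPolynomial (Fin 3) ℝ)) * (L.map (sub3 P).toRingHom) *
            P.map (C : ℝ →+* MvPolynomial (Fin 3) ℝ) := by
          simp only [Matrix.mul_assoc]
      _ = _ := by
          rw [hPC, Matrix.mul_one, h5, Matrix.mul_assoc]

end Pool.Agent.Helper190.NJ
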