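import Pool.Agent.Helper190.NJ.Defs

set_option autoImplicit false

/-!
Admissible collections of polynomials (linear Nijenhuis operators), `n = 3`.
-/

namespace Pool.Agent.Helper190.NJ
open MvPolynomial Matrix


theorem ta4_cbrt (t : ℝ) : ∃ r : ℝ, r ^ 3 = t := by
  rcases le_total 0 t with h | h
  · refine ⟨t ^ ((1:ℝ) / 3), ?_⟩
    rw [← Real.rpow_natCast, ← Real.rpow_mul h]
    norm_num
  · refine ⟨-((-t) ^ ((1:ℝ) / 3)), ?_⟩
    have h2 : ((-t) ^ ((1:ℝ) / 3)) ^ 3 = -t := by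
      rw [← Real.rpow_natCast, ← Real.rpow_mul (by linarith)]
      norm_num
    have h3 : (-((-t) ^ ((1:ℝ) / 3))) ^ 3 = -(((-t) ^ ((1:ℝ) / 3)) ^ 3) := by ring
    rw [h3, h2]
    ring

theorem ta4 (t : ℝ) (ht : t ≠ 0) : ∃ A : Matrix (Fin 3) (Fin 3) ℝ, A.det ≠ 0 ∧
    Fam (lf A 0) (lf A 1) (lf A 2)
      ![X 0, quadP ![1 / 3, 0, 0, 0, 1, 0],
        cubP ![1 / 27, 0, 0, 0, 1 / 3, 0, t, 0, 0, - 1 / (27 * t)]] := by
  obtain ⟨r, hr⟩ := ta4_cbrt t
  have hr0 : r ≠ 0 := by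
    rintro rfl
    apply ht
    rw [← hr]
    norm_num
  obtain ⟨s, hs, hs0⟩ : ∃ s : ℝ, s ^ 2 = 3 ∧ s ≠ 0 :=
    ⟨Real.sqrt 3, Real.sq_sqrt (by norm_num), by positivity⟩
  subst hr
  refine ⟨!![1/3, r, -1/(3*r); 1/3, -r/2, 1/(6*r); 0, s*r/2, s/(6*r)], ?_, ?_⟩
  · rw [Matrix.det_fin_three]
    simp only [Matrix.of_apply, Matrix.cons_val', Matrix.cons_val_zero, Matrix.cons_val_one,
      Matrix.cons_val]
    have : (1 / 3 * (-r / 2) * (s / (6 * r)) - 1 / 3 * (1 / (6 * r)) * (s * r / 2) -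
      r * (1 / 3) * (s / (6 * r)) + r * (1 / (6 * r)) * 0 + -1 / (3 * r) * (1 / 3) * (s * r / 2) -
      -1 / (3 * r) * (-r / 2) * 0) = - s / 6 := by
      field_simp
      ring
    rw [this]
    intro h
    apply hs0
    linarith
  · right
    left
    funext i
    fin_cases i
    · apply MvPolynomial.funext
      intro v
      simp [lf, Fin.sum_univ_three]
      field_simp
      ring
    · apply MvPolynomial.funext
      intro v
      simp [lf, quadP, Fin.sum_univ_three]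
      field_simp
      ring_nf
      simp only [hs]
      ring
    · apply MvPolynomial.funext
      intro v
      simp [lf, cubP, Fin.sum_univ_three]
      field_simp
      ring_nf
      simp only [hs]
      ring

end Pool.Agent.Helper190.NJ
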